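import Pool.Agent.NH95.QP.Base

/-!
Project QP: a basis adapted to a place.
-/

namespace Pool.Agent.NH95.QP.Adb

open MvPolynomial

/-- independence, the index `j0` apart -/
theorem ind0 {k : Type} [Field k] {F : MvPolynomial (Fin 3) k} {r : ℕ}
    {u : Fin (r + 1) → MvPolynomial (Fin 3) k} (hu : IndepMod F u) (j0 : Fin (r + 1))
    {a0 : k} {a : Fin r → k}
    (h : F ∣ C a0 * u j0 + ∑ j, C (a j) * u (j0.succAbove j)) : a0 = 0 ∧ a = 0 := by
  have h1 := hu (Fin.insertNth j0 a0 a) (by
    rw [Fin.sum_univ_succAbove _ j0]
    simp only [Fin.insertNth_apply_same, Fin.insertNth_apply_succAbove]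
    exact h)
  constructor
  · have h2 := congrFun h1 j0
    simpa using h2
  · funext j
    have h2 := congrFun h1 (j0.succAbove j)
    simpa using h2

theorem sum_sub {k : Type} [Field k] {r : ℕ} (a c : Fin r → k)
    (f : Fin r → MvPolynomial (Fin 3) k) (g : MvPolynomial (Fin 3) k) :
    ∑ j, C (a j) * (f j - C (c j) * g) =
      C (-∑ j, a j * c j) * g + ∑ j, C (a j) * f j := by
  simp only [mul_sub, Finset.sum_sub_distrib, map_neg, map_sum, map_mul, neg_mul,
    Finset.sum_mul, mul_assoc]
  ring

theorem step {k : Type} [Field k] [IsAlgClosed k] [CharZero k] (h1 : S_RES)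
    {F : MvPolynomial (Fin 3) k} {d : ℕ} {v : MvPolynomial (Fin 3) k → ℤ}
    (hF : Curve F d) (hv : IsPlace F v) {N : ℕ} :
    ∀ (r : ℕ) (s : ℤ) (u : Fin r → MvPolynomial (Fin 3) k),
      (∀ j, (u j).IsHomogeneous N) → IndepMod F u → (∀ j, s ≤ v (u j)) →
      ∃ b : Fin r → MvPolynomial (Fin 3) k,
        (∀ j, b j ∈ Submodule.span k (Set.range u)) ∧ IndepMod F b ∧
        ∀ j : Fin r, s + ((j : ℕ) : ℤ) ≤ v (b j) := by
  intro r
  induction r with
  | zero =>
    intro s u _ hu _
    exact ⟨u, fun j => j.elim0, hu, fun j => j.elim0⟩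
  | succ r ih =>
    intro s u hh hu hs
    obtain ⟨j0, _, hmin⟩ := Finset.exists_min_image Finset.univ (fun i => v (u i))
      Finset.univ_nonempty
    have h0 : ¬ F ∣ u j0 := by
      intro h
      have h2 := ind0 hu j0 (a0 := 1) (a := 0) (by simpa using h)
      exact one_ne_zero h2.1
    have hnd : ∀ (j : Fin r) (c : k), ¬ F ∣ u (j0.succAbove j) - C c * u j0 := by
      intro j c h
      have h2 := ind0 hu j0 (a0 := -c) (a := Pi.single j 1) (by
        have e : ∑ i, C ((Pi.single j 1 : Fin r → k) i) * u (j0.succAbove i) =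
            u (j0.succAbove j) := by
          rw [Finset.sum_eq_single j]
          · simp
          · intro i _ hi
            rw [Pi.single_eq_of_ne hi, map_zero, zero_mul]
          · intro hj
            exact absurd (Finset.mem_univ j) hj
        rw [e, map_neg, neg_mul, add_comm, ← sub_eq_add_neg]
        exact h)
      have h3 := congrFun h2.2 j
      simp at h3
    have hex : ∀ j : Fin r, ∃ c : k, v (u j0) < v (u (j0.succAbove j) - C c * u j0) := by
      intro j
      have hle : v (u j0) ≤ v (u (j0.succAbove j)) := hmin _ (Finset.mem_univ _)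
      rcases hle.lt_or_eq with h | h
      · refine ⟨0, ?_⟩
        rw [map_zero, zero_mul, sub_zero]
        exact h
      · have hj : ¬ F ∣ u (j0.succAbove j) := by
          have := hnd j 0
          rwa [map_zero, zero_mul, sub_zero] at this
        obtain ⟨c, _, hc⟩ := h1 k F d v hF hv N (u (j0.succAbove j)) (u j0) (hh _) (hh _) hj h0
          h.symm
        exact ⟨c, hc.resolve_left (hnd j c)⟩
    choose c hc using hex
    obtain ⟨u', hu'⟩ : ∃ u' : Fin r → MvPolynomial (Fin 3) k,
        u' = fun j => u (j0.succAbove j) - C (c j) * u j0 := ⟨_, rfl⟩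
    have hsum : ∀ a : Fin r → k, ∑ j, C (a j) * u' j =
        C (-∑ j, a j * c j) * u j0 + ∑ j, C (a j) * u (j0.succAbove j) := by
      intro a
      rw [hu']
      exact sum_sub a c _ _
    have hind : IndepMod F u' := by
      intro a ha
      rw [hsum] at ha
      exact (ind0 hu j0 ha).2
    obtain ⟨b, hb1, hb2, hb3⟩ := ih (s + 1) u'
      (fun j => by
        rw [hu']
        exact (hh _).sub (C_mul_hom (hh _) _)) hind
      (fun j => by
        rw [hu']
        have h2 := hc j
        have h3 := hs j0
        show s + 1 ≤ v (u (j0.succAbove j) - C (c j) * u j0)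
        omega)
    have hsub : Submodule.span k (Set.range u') ≤ Submodule.span k (Set.range u) := by
      rw [Submodule.span_le]
      rintro _ ⟨j, rfl⟩
      rw [hu']
      refine Submodule.sub_mem _ (Submodule.subset_span ⟨_, rfl⟩) ?_
      rw [C_mul']
      exact Submodule.smul_mem _ _ (Submodule.subset_span ⟨_, rfl⟩)
    have hco : ∀ j, ∃ e : Fin r → k, b j = ∑ i, C (e i) * u' i := by
      intro j
      obtain ⟨e, he⟩ := (Submodule.mem_span_range_iff_exists_fun k).1 (hb1 j)
      refine ⟨e, ?_⟩
      rw [← he]
      exact Finset.sum_congr rfl fun i _ => C_mul'.symm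
    choose e he using hco
    refine ⟨Fin.cons (u j0) b, ?_, ?_, ?_⟩
    · intro j
      refine Fin.cases ?_ (fun j => ?_) j
      · rw [Fin.cons_zero]
        exact Submodule.subset_span ⟨_, rfl⟩
      · rw [Fin.cons_succ]
        exact hsub (hb1 j)
    · intro x hx
      rw [Fin.sum_univ_succ] at hx
      simp only [Fin.cons_zero, Fin.cons_succ] at hx
      have e1 : ∑ j : Fin r, C (x j.succ) * b j =
          ∑ i, C (∑ j : Fin r, x j.succ * e j i) * u' i := by
        calc ∑ j : Fin r, C (x j.succ) * b j
            = ∑ j : Fin r, ∑ i, C (x j.succ * e j i) * u' i := by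
              refine Finset.sum_congr rfl fun j _ => ?_
              rw [he j, Finset.mul_sum]
              refine Finset.sum_congr rfl fun i _ => ?_
              rw [map_mul, mul_assoc]
          _ = ∑ i, ∑ j : Fin r, C (x j.succ * e j i) * u' i := Finset.sum_comm
          _ = _ := by
              refine Finset.sum_congr rfl fun i _ => ?_
              rw [map_sum, Finset.sum_mul]
      have h2 := hx
      rw [e1, hsum, ← add_assoc, ← add_mul, ← map_add] at h2
      have h3 := (ind0 hu j0 h2).2
      have h4 : ∑ j : Fin r, C (x j.succ) * b j = 0 := by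
        rw [e1]
        refine Finset.sum_eq_zero fun i _ => ?_
        have := congrFun h3 i
        simp only [Pi.zero_apply] at this
        rw [this, map_zero, zero_mul]
      have h5 := hb2 (fun j => x j.succ) (by
        rw [h4]
        exact dvd_zero F)
      rw [h4, add_zero] at hx
      have h6 := ind0 hu j0 (a0 := x 0) (a := 0) (by simpa using hx)
      funext j
      refine Fin.cases ?_ (fun j => ?_) j
      · exact h6.1
      · exact congrFun h5 j
    · intro j
      refine Fin.cases ?_ (fun j => ?_) j
      · rw [Fin.cons_zero]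
        have := hs j0
        simpa using this
      · rw [Fin.cons_succ]
        have := hb3 j
        rw [Fin.val_succ]
        push_cast
        omega

theorem t_ADB (h1 : S_RES) (h2 : S_DIM) : S_ADB := by
  intro k _ _ _ F d N v hF hv hN
  obtain ⟨s, hs1, hs2, _⟩ := h2 k F d N hF hN
  have hh : ∀ j, (monomial (s j) (1 : k)).IsHomogeneous N := by
    intro j
    refine isHomogeneous_monomial _ ?_
    rw [← hs1 j, Finsupp.degree_eq_sum, Fin.sum_univ_three]
  have hnd : ∀ j, ¬ F ∣ monomial (s j) (1 : k) := by
    intro j h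
    have h3 := hs2 (Pi.single j 1) (by
      have e : ∑ i, C ((Pi.single j 1 : Fin (rdim d N) → k) i) * monomial (s i) (1 : k) =
          monomial (s j) (1 : k) := by
        rw [Finset.sum_eq_single j]
        · simp
        · intro i _ hi
          rw [Pi.single_eq_of_ne hi, map_zero, zero_mul]
        · intro hj
          exact absurd (Finset.mem_univ j) hj
      rw [e]
      exact h)
    have h4 := congrFun h3 j
    simp at h4
  obtain ⟨b, hb1, hb2, hb3⟩ := step h1 hF hv (rdim d N) 0 _ hh hs2
    fun j => hv.1.nonneg N _ (hh j) (hnd j)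
  refine ⟨b, fun j => ?_, hb2, fun j => ?_⟩
  · have hle : Submodule.span k (Set.range fun j => monomial (s j) (1 : k)) ≤
        homogeneousSubmodule (Fin 3) k N := by
      rw [Submodule.span_le]
      rintro _ ⟨j, rfl⟩
      exact (mem_homogeneousSubmodule N _).2 (hh j)
    exact (mem_homogeneousSubmodule N _).1 (hle (hb1 j))
  · have := hb3 j
    omega

end Pool.Agent.NH95.QP.Adb
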