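import Pool.Agent.NH95.QP.Base

/-!
Project QP: high contact with the conic.
-/

set_option autoImplicit false

namespace Pool.Agent.NH95.QP.Adj

open MvPolynomial Pool.Agent.NH95.QP

/-- The value of the polarisation. -/
theorem val_TL {k : Type} [Field k] [CharZero k]
    {F : MvPolynomial (Fin 3) k} {d : ℕ}
    {v : MvPolynomial (Fin 3) k → ℤ} (hF : Curve F d) (hv : IsW F v)
    (hn : ¬ F ∣ Dsc k) (p q r s : k) (e1 : p * s - q * r ≠ 0)
    (n1 : ¬ F ∣ HL p q) (n2 : ¬ F ∣ HL r s) (z1 : v (HL r s) = 0)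
    (hc : v (HL p q) < v (Dsc k)) :
    v (HL p q) = 2 * v (TL p q r s) := by
  have h4 : (4 : k) ≠ 0 := by norm_num
  have hD2 : (p * s - q * r) ^ 2 ≠ 0 := pow_ne_zero 2 e1
  have hA : ¬ F ∣ C 4 * HL p q :=
    not_dvd_mul hF (not_dvd_C hF h4) n1
  have hAh : (C 4 * HL p q).IsHomogeneous 1 := C_mul_hom (HL_hom p q) 4
  have hAB : ¬ F ∣ C 4 * HL p q * HL r s := not_dvd_mul hF hA n2
  have hABh : (C 4 * HL p q * HL r s).IsHomogeneous 2 :=
    hAh.mul (HL_hom r s)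
  have hE : (C ((p * s - q * r) ^ 2) * Dsc k).IsHomogeneous 2 :=
    C_mul_hom Dsc_hom _
  have vA : v (C 4 * HL p q * HL r s) = v (HL p q) := by
    rw [hv.mul 1 1 _ _ hAh (HL_hom r s) hA n2,
      hv.C_mul hF (HL_hom p q) n1 h4, z1, add_zero]
  have vE : v (C ((p * s - q * r) ^ 2) * Dsc k) = v (Dsc k) :=
    hv.C_mul hF Dsc_hom hn hD2
  have h1 := hv.add_eq hF hABh hE hAB (Or.inr (by
    rw [vA, vE]
    exact hc))
  rw [← TL_sq, vA] at h1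
  have hT : ¬ F ∣ TL p q r s := fun h => h1.1 (dvd_pow h two_ne_zero)
  have h2 := hv.pow hF (TL_hom p q r s) hT 2
  rw [h1.2] at h2
  rw [h2]
  simp

/-- The case of high contact with the conic. -/
theorem t_ADJ (h1 : S_LOC1) (h2 : S_LOC2) (h3 : S_GEN) (h4 : S_LCB)
    (h5 : S_NUM) (h6 : S_EXC) (h7 : S_BZ) : S_ADJ := by
  intro k _ _ _ F d v v' hF hv hv' hD hn p q r s a b e1 e2 e3 n1 n2 n3
    g1 z1 z2 g3 hle hc
  have hT := val_TL hF hv.1 hn p q r s e1 n1 n2 z1 (by linarith)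
  have b1 := h7 k F d v v' hF hv hv' hD 1 _ (HL_hom p q) n1
  have b2 := h7 k F d v v' hF hv hv' hD 2 _ Dsc_hom hn
  have b3 := h7 k F d v v' hF hv hv' hD 1 _ (HL_hom r s) n2
  have b4 := hv'.1.nonneg 2 _ Dsc_hom hn
  push_cast at b1 b2 b3
  obtain ⟨m, hm⟩ : ∃ m : ℕ, v (TL p q r s) = m :=
    ⟨(v (TL p q r s)).toNat, (Int.toNat_of_nonneg (by linarith)).symm⟩
  obtain ⟨j, hj⟩ : ∃ j : ℕ, v (Dsc k) = j :=
    ⟨(v (Dsc k)).toNat, (Int.toNat_of_nonneg (by linarith)).symm⟩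
  obtain ⟨P, hP⟩ : ∃ P : ℕ, v' (HL r s) = P :=
    ⟨(v' (HL r s)).toNat, (Int.toNat_of_nonneg (by linarith)).symm⟩
  obtain ⟨Q, hQ⟩ : ∃ Q : ℕ, v' (HL a b) = Q :=
    ⟨(v' (HL a b)).toNat, (Int.toNat_of_nonneg (by linarith)).symm⟩
  rw [hm] at hT
  rw [hT] at g1 hc b1
  rw [hj] at hc b2
  rw [hQ] at g3 hle
  rw [hP] at hle b3
  rw [z1] at b3
  rw [z2] at b1
  have m1 : 1 ≤ m := by omega
  have j1 : 1 ≤ j := by omega
  have Q1 : 1 ≤ Q := by omega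
  have P1 : 1 ≤ P := by omega
  have L1 := h1 k F d v hF hv p q r s m j e1 n2 z1 hm.ge hj.ge m1 j1
  have L2 := h2 k F d v' hF hv' p q r s a b P Q e1 e2 e3 n1 z2 hP.ge
    hQ.ge P1 Q1
  have G := h3 k F d v v' hF hv hv' hD _ _ _ _ L1 L2
  have C1 := h4 m j m1 j1
  have C2 := h4 P Q P1 Q1
  push_cast at G
  rw [hT, hj, hP, hQ]
  rcases h5 m j P Q d (by omega) (by omega) hle (by linarith)
    (by linarith) (by linarith) (by linarith) (by nlinarith) with h | h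
  · exact h
  · obtain ⟨hm1, hj1, hP1, hQ1⟩ := h
    exfalso
    have hd : 2 ≤ d := by omega
    exact h6 k F d v v' hF hd hv hv' hD hn r s a b e3 n2 n3
      (by rw [hP, hP1]) (by rw [hQ, hQ1]) (by rw [hj, hj1])

end Pool.Agent.NH95.QP.Adj
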