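import Pool.Agent.NH95.QP.Base

/-!
Project QP: the algebraic theorem from its parts.
-/

namespace Pool.Agent.NH95.QP

open MvPolynomial

namespace Alg

variable {k : Type} [Field k]

theorem prod_facts {Γ : Type} [AddCommGroup Γ] [LinearOrder Γ]
    {F : MvPolynomial (Fin 3) k} {d : ℕ} (hF : Curve F d)
    {w : MvPolynomial (Fin 3) k → Γ} (h : IsW F w) {m : ℕ}
    (p q : Fin m → k) (h0 : ∀ i, ¬ F ∣ HL (p i) (q i))
    (s : Finset (Fin m)) :
    (∏ i ∈ s, HL (p i) (q i)).IsHomogeneous s.card ∧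
      ¬ F ∣ ∏ i ∈ s, HL (p i) (q i) ∧
      w (∏ i ∈ s, HL (p i) (q i)) = ∑ i ∈ s, w (HL (p i) (q i)) := by
  classical
  induction s using Finset.induction_on with
  | empty =>
    rw [Finset.prod_empty, Finset.sum_empty, Finset.card_empty]
    have h1 : (C 1 : MvPolynomial (Fin 3) k) = 1 := map_one C
    refine ⟨?_, ?_, ?_⟩
    · exact isHomogeneous_one (Fin 3) k
    · rw [← h1]; exact not_dvd_C hF one_ne_zero
    · rw [← h1]; exact h.const 1 one_ne_zero
  | insert a s ha ih =>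
    obtain ⟨i1, i2, i3⟩ := ih
    rw [Finset.prod_insert ha, Finset.sum_insert ha,
      Finset.card_insert_of_notMem ha]
    refine ⟨?_, not_dvd_mul hF (h0 a) i2, ?_⟩
    · rw [add_comm]
      exact (HL_hom _ _).mul i1
    · rw [h.mul 1 s.card _ _ (HL_hom _ _) i1 (h0 a) i2, i3]

theorem val_W {Γ : Type} [AddCommGroup Γ] [LinearOrder Γ]
    {F : MvPolynomial (Fin 3) k} {d : ℕ} (hF : Curve F d)
    {w : MvPolynomial (Fin 3) k → Γ} (h : IsW F w) {m : ℕ}
    (p q : Fin m → k) (h0 : ∀ i, ¬ F ∣ HL (p i) (q i))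
    (hD : ¬ F ∣ Dsc k) {c0 : k} (hc : c0 ≠ 0) :
    (Dsc k * (C c0 * ∏ i, HL (p i) (q i))).IsHomogeneous (2 + m) ∧
      ¬ F ∣ Dsc k * (C c0 * ∏ i, HL (p i) (q i)) ∧
      w (Dsc k * (C c0 * ∏ i, HL (p i) (q i))) =
        w (Dsc k) + ∑ i, w (HL (p i) (q i)) := by
  obtain ⟨i1, i2, i3⟩ := prod_facts hF h p q h0 Finset.univ
  rw [Finset.card_univ, Fintype.card_fin] at i1
  have j1 := C_mul_hom i1 c0
  have j2 := not_dvd_mul hF (not_dvd_C hF hc) i2
  refine ⟨Dsc_hom.mul j1, not_dvd_mul hF hD j2, ?_⟩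
  rw [h.mul 2 m _ _ Dsc_hom j1 hD j2, h.C_mul hF i1 i2 hc, i3]

theorem rat_Dsc : rat (Dsc ℚ) = Dsc QQ := by
  unfold rat Dsc
  rw [map_sub, map_pow, map_mul, map_mul, map_X, map_X, map_X, map_C,
    map_ofNat]

/-- The numerical part. -/
theorem final {S T w0 d : ℝ} (hd : 1 ≤ d) (hS : S * d ≤ 2)
    (hT : T * d ≤ 1) (h1 : 2 * d < w0) (h2 : w0 ≤ 4 * d) :
    w0 * T + (4 * d - w0) * (S - T) ≤ 4 := by
  have e1 : (2 * w0 - 4 * d) * (T * d) ≤ (2 * w0 - 4 * d) * 1 :=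
    mul_le_mul_of_nonneg_left hT (by linarith)
  have e2 : (4 * d - w0) * (S * d) ≤ (4 * d - w0) * 2 :=
    mul_le_mul_of_nonneg_left hS (by linarith)
  have e3 : (w0 * T + (4 * d - w0) * (S - T)) * d ≤ 4 * d := by
    nlinarith
  exact le_of_mul_le_mul_right e3 (by linarith)

end Alg

open Alg in
theorem t_ALG (h1 : S_VAL) (h2 : S_CLA) (h3 : S_CL1) (h4 : S_SUM2)
    (h5 : S_PFT) (h6 : S_CNJ) : ALG := by
  classical
  intro F0 d ι _ w hC hw hSub hPF m p q c0 H0 hc0 hpq hH hD hHL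
  choose τ v hτ0 hpl hval using fun i => h1 QQ (rat F0) d (w i) hC (hw i)
  have hS := h4 QQ (rat F0) d ι w τ v hC hSub hτ0 hpl hval
  have hd : (1 : ℝ) ≤ d := by exact_mod_cast hC.2.2
  have hWW : C c0 * (Dsc QQ * ∏ i, HL (p i) (q i)) =
      Dsc QQ * (C c0 * ∏ i, HL (p i) (q i)) := by ring
  rw [hH, hWW]
  obtain ⟨W, hWdef⟩ : ∃ W, W = Dsc QQ * (C c0 * ∏ i, HL (p i) (q i)) :=
    ⟨_, rfl⟩
  rw [← hWdef]
  -- the form `W`
  have hWv : ∀ u : MvPolynomial (Fin 3) QQ → ℤ, IsW (rat F0) u →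
      u W = u (Dsc QQ) + ∑ i, u (HL (p i) (q i)) := by
    intro u hu
    rw [hWdef]
    exact (val_W hC hu p q hHL hD hc0).2.2
  have hWrat : W = rat H0 := by
    rw [hWdef, hH, hWW]
  by_cases hI : ∃ i, τ i ≠ 0
  swap
  · push Not at hI
    have hWh : W.IsHomogeneous (2 + m) ∧ ¬ rat F0 ∣ W := by
      rw [hWdef]
      by_cases hι : Nonempty ι
      · obtain ⟨i⟩ := hι
        obtain ⟨a1, a2, -⟩ := val_W hC (hw i) p q hHL hD hc0
        exact ⟨a1, a2⟩
      · obtain ⟨a1, a2⟩ := (show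
          (Dsc QQ * (C c0 * ∏ i, HL (p i) (q i))).IsHomogeneous (2 + m) ∧
          ¬ rat F0 ∣ Dsc QQ * (C c0 * ∏ i, HL (p i) (q i)) from ⟨by
            have b1 : (∏ i : Fin m, HL (p i) (q i)).IsHomogeneous m := by
              have := IsHomogeneous.prod Finset.univ
                (fun i : Fin m => HL (p i) (q i)) (fun _ => 1)
                (fun i _ => HL_hom _ _)
              simpa using this
            exact Dsc_hom.mul (C_mul_hom b1 c0), by
            refine not_dvd_mul hC hD (not_dvd_mul hC (not_dvd_C hC hc0) ?_)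
            intro hdv
            obtain ⟨i, -, hi⟩ :=
              ((prime_of_curve hC).dvd_finsetProd_iff _).1 hdv
            exact hHL i hi⟩)
        exact ⟨a1, a2⟩
    have : ∑ i, w i W = 0 := by
      refine Finset.sum_eq_zero fun i _ => ?_
      rw [hval i (2 + m) W hWh.1 hWh.2, hI i, zero_mul]
    rw [this]
    norm_num
  · obtain ⟨j, hj⟩ := hI
    have hWh : W.IsHomogeneous (2 + m) ∧ ¬ rat F0 ∣ W := by
      rw [hWdef]
      obtain ⟨a1, a2, -⟩ := val_W hC (hw j) p q hHL hD hc0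
      exact ⟨a1, a2⟩
    have hsum : ∑ i, w i W = ∑ i, τ i * (v i W : ℝ) :=
      Finset.sum_congr rfl fun i _ => hval i (2 + m) W hWh.1 hWh.2
    rw [hsum]
    have hIne : (Finset.univ.filter (fun i => τ i ≠ 0)).Nonempty :=
      ⟨j, Finset.mem_filter.2 ⟨Finset.mem_univ j, hj⟩⟩
    obtain ⟨i0, hi0, hmax⟩ := Finset.exists_max_image _
      (fun i => v i W) hIne
    have hτi0 : τ i0 ≠ 0 := (Finset.mem_filter.1 hi0).2
    have hp0 := hpl i0 hτi0
    have hle : ∀ i, τ i * (v i W : ℝ) ≤ τ i * (v i0 W : ℝ) := by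
      intro i
      by_cases hi : τ i = 0
      · rw [hi, zero_mul, zero_mul]
      · have h7 : v i W ≤ v i0 W :=
          hmax i (Finset.mem_filter.2 ⟨Finset.mem_univ i, hi⟩)
        exact mul_le_mul_of_nonneg_left (by exact_mod_cast h7) (hτ0 i)
    have hw0 : 0 ≤ v i0 W := hp0.1.nonneg (2 + m) W hWh.1 hWh.2
    by_cases hcase : v i0 W ≤ 2 * (d : ℤ)
    · have hcase' : (v i0 W : ℝ) ≤ 2 * (d : ℝ) := by exact_mod_cast hcase
      have hSn : 0 ≤ ∑ i, τ i := Finset.sum_nonneg fun i _ => hτ0 i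
      calc ∑ i, τ i * (v i W : ℝ) ≤ ∑ i, τ i * (v i0 W : ℝ) :=
            Finset.sum_le_sum fun i _ => hle i
        _ = (∑ i, τ i) * (v i0 W : ℝ) := by rw [Finset.sum_mul]
        _ ≤ (∑ i, τ i) * (2 * (d : ℝ)) :=
            mul_le_mul_of_nonneg_left hcase' hSn
        _ ≤ 4 := by linarith
    · have hcase1 : 2 * (d : ℤ) < v i0 W := not_le.1 hcase
      have hstab : Stab (rat F0) (v i0) := by
        by_contra hns
        obtain ⟨v', hv', hdiff, hrat⟩ := h6 F0 d (v i0) hC hp0 hns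
        have e1 : v' W = v i0 W := by rw [hWrat]; exact hrat _
        have e2 := h2 QQ (rat F0) d (v i0) v' hC hp0 hv' hdiff hD m p q
          hpq hHL
        rw [← hWv _ hp0.1, ← hWv _ hv'.1, e1] at e2
        omega
      have hup : v i0 W ≤ 4 * (d : ℤ) := by
        rw [hWv _ hp0.1]
        exact h3 QQ (rat F0) d (v i0) hC hp0 hD m p q hpq hHL
      set T : Finset ι := Finset.univ.filter
        (fun i => τ i ≠ 0 ∧ ¬ Diff (rat F0) (v i) (v i0)) with hTdef
      have hT := h5 F0 d ι w τ v (v i0) hC hw hPF hτ0 hval hp0 hstab T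
        (fun i hi => (Finset.mem_filter.1 hi).2.2)
      have hle2 : ∀ i ∈ Tᶜ, τ i * (v i W : ℝ) ≤
          τ i * (4 * (d : ℝ) - (v i0 W : ℝ)) := by
        intro i hi
        by_cases hτi : τ i = 0
        · rw [hτi, zero_mul, zero_mul]
        · have hdf : Diff (rat F0) (v i) (v i0) := by
            by_contra hnd
            exact (Finset.mem_compl.1 hi)
              (Finset.mem_filter.2 ⟨Finset.mem_univ i, hτi, hnd⟩)
          have e2 := h2 QQ (rat F0) d (v i) (v i0) hC (hpl i hτi) hp0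
            hdf hD m p q hpq hHL
          rw [← hWv _ hp0.1, ← hWv _ (hpl i hτi).1] at e2
          have e3 : (v i W : ℝ) + (v i0 W : ℝ) ≤ 4 * (d : ℝ) := by
            exact_mod_cast e2
          exact mul_le_mul_of_nonneg_left (by linarith) (hτ0 i)
      have hsplit : ∑ i ∈ T, τ i + ∑ i ∈ Tᶜ, τ i = ∑ i, τ i :=
        Finset.sum_add_sum_compl T τ
      calc ∑ i, τ i * (v i W : ℝ)
          = ∑ i ∈ T, τ i * (v i W : ℝ) + ∑ i ∈ Tᶜ, τ i * (v i W : ℝ) :=
            (Finset.sum_add_sum_compl T _).symm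
        _ ≤ ∑ i ∈ T, τ i * (v i0 W : ℝ) +
              ∑ i ∈ Tᶜ, τ i * (4 * (d : ℝ) - (v i0 W : ℝ)) :=
            add_le_add (Finset.sum_le_sum fun i _ => hle i)
              (Finset.sum_le_sum hle2)
        _ = (v i0 W : ℝ) * (∑ i ∈ T, τ i) +
              (4 * (d : ℝ) - (v i0 W : ℝ)) *
                (∑ i, τ i - ∑ i ∈ T, τ i) := by
            rw [← Finset.sum_mul, ← Finset.sum_mul, ← hsplit]
            ring
        _ ≤ 4 := final hd hS hT (by exact_mod_cast hcase1)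
            (by exact_mod_cast hup)

end Pool.Agent.NH95.QP
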