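import Pool.Agent.NH95.QP.Base

/-!
# QP-APX: distinct places are incomparable
-/

namespace Pool.Agent.NH95.QP

open MvPolynomial

namespace Apx

variable {k : Type} [Field k]

/-- the value of one form is proportional to the other valuation -/
theorem half {F : MvPolynomial (Fin 3) k} {d : ℕ} (hF : Curve F d)
    {v v' : MvPolynomial (Fin 3) k → ℤ} (hv : IsPlace F v)
    (hv' : IsPlace F v') (hd : Diff F v v')
    {z : MvPolynomial (Fin 3) k} (hz : z.IsHomogeneous 1)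
    (hz1 : ¬ F ∣ z) (hz2 : v z = 0) (hz3 : v' z = 0) :
    ∃ (n : ℕ) (g h : MvPolynomial (Fin 3) k), g.IsHomogeneous n ∧
      h.IsHomogeneous n ∧ ¬ F ∣ g ∧ ¬ F ∣ h ∧ v h ≤ v g ∧
      v' g < v' h := by
  by_contra hcon
  have H : ∀ (n : ℕ) (g h : MvPolynomial (Fin 3) k), g.IsHomogeneous n →
      h.IsHomogeneous n → ¬ F ∣ g → ¬ F ∣ h → v h ≤ v g → v' h ≤ v' g := by
    intro n g h hg hh hg1 hh1 hle
    by_contra hlt
    exact hcon ⟨n, g, h, hg, hh, hg1, hh1, hle, not_le.1 hlt⟩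
  obtain ⟨hw, n0, P, Q, hP, hQ, hP1, hQ1, hPQ⟩ := hv
  obtain ⟨hw', n1, g1, h1, hg1, hh1, hg1d, hh1d, hgh⟩ := hv'
  obtain ⟨t, ht⟩ : ∃ t : ℤ, t = v' P - v' Q := ⟨_, rfl⟩
  have ht0 : 0 ≤ t := by
    have := H n0 P Q hP hQ hP1 hQ1 (by omega)
    omega
  have key : ∀ (n : ℕ) (g : MvPolynomial (Fin 3) k), g.IsHomogeneous n →
      ¬ F ∣ g → v' g = v g * t := by
    intro n g hg hg1
    obtain ⟨m, hm⟩ := Int.eq_ofNat_of_zero_le (hw.nonneg n g hg hg1)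
    have hA : (g * Q ^ m).IsHomogeneous (n + n0 * m) := hg.mul (hQ.pow m)
    have hB : (z ^ n * P ^ m).IsHomogeneous (n + n0 * m) := by
      have := (hz.pow n).mul (hP.pow m)
      rwa [one_mul] at this
    have hA1 : ¬ F ∣ g * Q ^ m := not_dvd_mul hF hg1 (not_dvd_pow hF hQ1 m)
    have hB1 : ¬ F ∣ z ^ n * P ^ m :=
      not_dvd_mul hF (not_dvd_pow hF hz1 n) (not_dvd_pow hF hP1 m)
    have vA : ∀ w : MvPolynomial (Fin 3) k → ℤ, IsW F w →
        w (g * Q ^ m) = w g + m * w Q := by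
      intro w h
      rw [h.mul n (n0 * m) _ _ hg (hQ.pow m) hg1 (not_dvd_pow hF hQ1 m),
        h.pow hF hQ hQ1 m, nsmul_eq_mul]
    have vB : ∀ w : MvPolynomial (Fin 3) k → ℤ, IsW F w →
        w (z ^ n * P ^ m) = n * w z + m * w P := by
      intro w h
      rw [h.mul (1 * n) (n0 * m) _ _ (hz.pow n) (hP.pow m)
        (not_dvd_pow hF hz1 n) (not_dvd_pow hF hP1 m),
        h.pow hF hz hz1 n, h.pow hF hP hP1 m, nsmul_eq_mul, nsmul_eq_mul]
    have e1 : v (g * Q ^ m) = v (z ^ n * P ^ m) := by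
      rw [vA v hw, vB v hw, hz2, hPQ, hm]
      ring
    have e2 : v' (g * Q ^ m) = v' (z ^ n * P ^ m) :=
      le_antisymm (H _ _ _ hB hA hB1 hA1 e1.le) (H _ _ _ hA hB hA1 hB1 e1.ge)
    rw [vA v' hw', vB v' hw', hz3] at e2
    rw [hm, ht]
    linear_combination e2
  have ht1 : t = 1 := by
    have e1 := key n1 g1 hg1 hg1d
    have e2 := key n1 h1 hh1 hh1d
    have e3 : t * (v g1 - v h1) = 1 := by
      rw [e1, e2] at hgh
      linear_combination hgh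
    exact Int.eq_one_of_mul_eq_one_right ht0 e3
  obtain ⟨n, g, hg, hgd, hne⟩ := hd
  apply hne
  rw [key n g hg hgd, ht1, mul_one]

end Apx

/-- **QP-APX** -/
theorem t_APX (h : S_LIN) : S_APX := by
  intro k _ _ F d v v' hF hv hv' hd
  obtain ⟨z, hz, hz1, hz2, hz3⟩ := h k F d v v' hF hv.1 hv'.1
  obtain ⟨n, g, g', hg, hg', hgd, hgd', h1, h2⟩ :=
    Apx.half hF hv hv' hd hz hz1 hz2 hz3
  have hd' : Diff F v' v := by
    obtain ⟨n, g, hg, hgd, hne⟩ := hd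
    exact ⟨n, g, hg, hgd, hne.symm⟩
  obtain ⟨m, f, f', hf, hf', hfd, hfd', h3, h4⟩ :=
    Apx.half hF hv' hv hd' hz hz1 hz3 hz2
  refine ⟨n + m, g * f', g' * f, hg.mul hf', hg'.mul hf,
    not_dvd_mul hF hgd hfd', not_dvd_mul hF hgd' hfd, ?_, ?_⟩
  · rw [hv.1.mul n m _ _ hg hf' hgd hfd', hv.1.mul n m _ _ hg' hf hgd' hfd]
    omega
  · rw [hv'.1.mul n m _ _ hg hf' hgd hfd', hv'.1.mul n m _ _ hg' hf hgd' hfd]
    omega

end Pool.Agent.NH95.QP
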