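import Pool.Agent.NH95.QP.Stm

namespace Pool.Agent.NH95.QP

open MvPolynomial

variable {k : Type} [Field k]

theorem C4_eq : (C 4 : MvPolynomial (Fin 3) k) = 4 := map_ofNat C 4

theorem Dsc_hom : (Dsc k).IsHomogeneous 2 := by
  have h1 : (X 1 ^ 2 : MvPolynomial (Fin 3) k).IsHomogeneous 2 := by
    simpa using (isHomogeneous_X k (1 : Fin 3)).pow 2
  have h2 : (C 4 * X 0 * X 2 : MvPolynomial (Fin 3) k).IsHomogeneous 2 := by
    simpa using ((isHomogeneous_C (Fin 3) (4 : k)).mul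
      (isHomogeneous_X k (0 : Fin 3))).mul (isHomogeneous_X k (2 : Fin 3))
  exact h1.sub h2

theorem HL_hom (p q : k) : (HL p q).IsHomogeneous 1 := by
  have h (c : k) (i : Fin 3) :
      (C c * X i : MvPolynomial (Fin 3) k).IsHomogeneous 1 := by
    simpa using (isHomogeneous_C (Fin 3) c).mul (isHomogeneous_X k i)
  exact ((h _ _).add (h _ _)).add (h _ _)

theorem TL_hom (p q r s : k) : (TL p q r s).IsHomogeneous 1 := by
  have h (c : k) (i : Fin 3) :
      (C c * X i : MvPolynomial (Fin 3) k).IsHomogeneous 1 := by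
    simpa using (isHomogeneous_C (Fin 3) c).mul (isHomogeneous_X k i)
  exact ((h _ _).add (h _ _)).add (h _ _)

/-- The polarisation identity. -/
theorem TL_sq (p q r s : k) :
    TL p q r s ^ 2 = C 4 * HL p q * HL r s
      + C ((p * s - q * r) ^ 2) * Dsc k := by
  have h4 : (C 4 : MvPolynomial (Fin 3) k) = 4 := map_ofNat C 4
  have h2 : (C 2 : MvPolynomial (Fin 3) k) = 2 := map_ofNat C 2
  simp only [TL, HL, Dsc, map_mul, map_add, map_sub, map_pow, h4, h2]
  ring

theorem prime_of_curve {F : MvPolynomial (Fin 3) k} {d : ℕ}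
    (h : Curve F d) : Prime F := h.2.1.prime

theorem not_dvd_mul {F : MvPolynomial (Fin 3) k} {d : ℕ}
    (h : Curve F d) {g g' : MvPolynomial (Fin 3) k} (h1 : ¬ F ∣ g)
    (h2 : ¬ F ∣ g') : ¬ F ∣ g * g' := fun h3 => by
  rcases (prime_of_curve h).dvd_or_dvd h3 with h4 | h4
  · exact h1 h4
  · exact h2 h4

theorem not_dvd_pow {F : MvPolynomial (Fin 3) k} {d : ℕ}
    (h : Curve F d) {g : MvPolynomial (Fin 3) k} (h1 : ¬ F ∣ g)
    (n : ℕ) : ¬ F ∣ g ^ n := fun h3 =>
  h1 ((prime_of_curve h).dvd_of_dvd_pow h3)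

theorem not_dvd_C {F : MvPolynomial (Fin 3) k} {d : ℕ}
    (h : Curve F d) {c : k} (hc : c ≠ 0) :
    ¬ F ∣ (C c : MvPolynomial (Fin 3) k) := fun h1 => by
  have h2 : IsUnit (C c : MvPolynomial (Fin 3) k) :=
    (isUnit_iff_ne_zero.2 hc).map (C : k →+* MvPolynomial (Fin 3) k)
  exact h.2.1.not_isUnit (isUnit_of_dvd_unit h1 h2)

theorem ne_zero_of_not_dvd {F g : MvPolynomial (Fin 3) k}
    (h : ¬ F ∣ g) : g ≠ 0 := fun h1 => h (h1 ▸ dvd_zero F)

/-- A nonzero form divisible by `F` has degree at least `d`. -/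
theorem deg_le_of_dvd {F : MvPolynomial (Fin 3) k} {d : ℕ}
    (h : Curve F d) {n : ℕ} {g : MvPolynomial (Fin 3) k}
    (hg : g.IsHomogeneous n) (h0 : g ≠ 0) (h1 : F ∣ g) : d ≤ n := by
  obtain ⟨e, rfl⟩ := h1
  have hF : F ≠ 0 := h.2.1.ne_zero
  have he : e ≠ 0 := fun h2 => h0 (by rw [h2, mul_zero])
  have h3 := MvPolynomial.totalDegree_mul_of_isDomain hF he
  rw [hg.totalDegree h0, h.1.totalDegree hF] at h3
  omega

section IsW

variable {Γ : Type} [AddCommGroup Γ] [LinearOrder Γ]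
  {F : MvPolynomial (Fin 3) k} {d : ℕ}
  {w : MvPolynomial (Fin 3) k → Γ}

theorem IsW.C_mul (hF : Curve F d) (h : IsW F w) {n : ℕ}
    {g : MvPolynomial (Fin 3) k} (hg : g.IsHomogeneous n)
    (h1 : ¬ F ∣ g) {c : k} (hc : c ≠ 0) : w (C c * g) = w g := by
  rw [h.mul 0 n _ _ (isHomogeneous_C _ _) hg (not_dvd_C hF hc) h1,
    h.const c hc, zero_add]

theorem IsW.pow (hF : Curve F d) (h : IsW F w) {n : ℕ}
    {g : MvPolynomial (Fin 3) k} (hg : g.IsHomogeneous n)
    (h1 : ¬ F ∣ g) (m : ℕ) : w (g ^ m) = m • w g := by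
  induction m with
  | zero =>
    have h2 := h.const 1 one_ne_zero
    rw [map_one] at h2
    rw [pow_zero, zero_smul, h2]
  | succ m ih =>
    rw [pow_succ, h.mul (n * m) n _ _ (hg.pow m) hg
      (not_dvd_pow hF h1 m) h1, ih, succ_nsmul]

theorem IsW.neg (hF : Curve F d) (h : IsW F w) {n : ℕ}
    {g : MvPolynomial (Fin 3) k} (hg : g.IsHomogeneous n)
    (h1 : ¬ F ∣ g) : w (-g) = w g := by
  have h2 := h.C_mul hF hg h1 (c := -1) (neg_ne_zero.2 one_ne_zero)
  rwa [map_neg, map_one, neg_one_mul] at h2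

/-- Sums of forms of larger value (or divisible by `F`). -/
theorem IsW.add_ge (h : IsW F w) {n : ℕ}
    {g g' : MvPolynomial (Fin 3) k} (hg : g.IsHomogeneous n)
    (hg' : g'.IsHomogeneous n) {c : Γ} (h1 : F ∣ g ∨ c ≤ w g)
    (h2 : F ∣ g' ∨ c ≤ w g') : F ∣ g + g' ∨ c ≤ w (g + g') := by
  by_cases hs : F ∣ g + g'
  · exact Or.inl hs
  right
  by_cases ha : F ∣ g
  · have hb : ¬ F ∣ g' := fun hb => hs (dvd_add ha hb)
    have h3 := h.congr n g' (g + g') hg' (hg.add hg') hb (by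
      have : g' - (g + g') = -g := by ring
      rw [this]
      exact (dvd_neg).2 ha)
    rw [← h3]
    exact h2.resolve_left hb
  by_cases hb : F ∣ g'
  · have h3 := h.congr n g (g + g') hg (hg.add hg') ha (by
      have : g - (g + g') = -g' := by ring
      rw [this]
      exact (dvd_neg).2 hb)
    rw [← h3]
    exact h1.resolve_left ha
  exact le_trans (le_min (h1.resolve_left ha) (h2.resolve_left hb))
    (h.add n g g' hg hg' ha hb hs)

theorem IsW.sub_ge (hF : Curve F d) (h : IsW F w) {n : ℕ}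
    {g g' : MvPolynomial (Fin 3) k} (hg : g.IsHomogeneous n)
    (hg' : g'.IsHomogeneous n) {c : Γ} (h1 : F ∣ g ∨ c ≤ w g)
    (h2 : F ∣ g' ∨ c ≤ w g') : F ∣ g - g' ∨ c ≤ w (g - g') := by
  rw [sub_eq_add_neg]
  refine h.add_ge hg hg'.neg h1 ?_
  by_cases hb : F ∣ g'
  · exact Or.inl ((dvd_neg).2 hb)
  · right
    rw [h.neg hF hg' hb]
    exact h2.resolve_left hb

theorem IsW.mul_ge [IsOrderedAddMonoid Γ]
    (h : IsW F w) {n m : ℕ}
    {g g' : MvPolynomial (Fin 3) k} (hg : g.IsHomogeneous n)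
    (hg' : g'.IsHomogeneous m) {c c' : Γ} (h1 : F ∣ g ∨ c ≤ w g)
    (h2 : F ∣ g' ∨ c' ≤ w g') : F ∣ g * g' ∨ c + c' ≤ w (g * g') := by
  by_cases ha : F ∣ g
  · exact Or.inl (ha.mul_right _)
  by_cases hb : F ∣ g'
  · exact Or.inl (hb.mul_left _)
  right
  rw [h.mul n m g g' hg hg' ha hb]
  exact add_le_add (h1.resolve_left ha) (h2.resolve_left hb)

theorem IsW.add_gt (h : IsW F w) {n : ℕ}
    {g g' : MvPolynomial (Fin 3) k} (hg : g.IsHomogeneous n)
    (hg' : g'.IsHomogeneous n) {c : Γ} (h1 : F ∣ g ∨ c < w g)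
    (h2 : F ∣ g' ∨ c < w g') : F ∣ g + g' ∨ c < w (g + g') := by
  by_cases hs : F ∣ g + g'
  · exact Or.inl hs
  right
  by_cases ha : F ∣ g
  · have hb : ¬ F ∣ g' := fun hb => hs (dvd_add ha hb)
    have h3 := h.congr n g' (g + g') hg' (hg.add hg') hb (by
      have : g' - (g + g') = -g := by ring
      rw [this]
      exact (dvd_neg).2 ha)
    rw [← h3]
    exact h2.resolve_left hb
  by_cases hb : F ∣ g'
  · have h3 := h.congr n g (g + g') hg (hg.add hg') ha (by
      have : g - (g + g') = -g' := by ring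
      rw [this]
      exact (dvd_neg).2 hb)
    rw [← h3]
    exact h1.resolve_left ha
  exact lt_of_lt_of_le (lt_min (h1.resolve_left ha) (h2.resolve_left hb))
    (h.add n g g' hg hg' ha hb hs)

theorem IsW.sum_ge (h : IsW F w) {n : ℕ} {κ : Type} (s : Finset κ)
    (g : κ → MvPolynomial (Fin 3) k)
    (hg : ∀ i ∈ s, (g i).IsHomogeneous n) {c : Γ}
    (h1 : ∀ i ∈ s, F ∣ g i ∨ c ≤ w (g i)) :
    F ∣ ∑ i ∈ s, g i ∨ c ≤ w (∑ i ∈ s, g i) := by
  classical
  induction s using Finset.induction_on with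
  | empty => exact Or.inl (by simp)
  | insert a s ha ih =>
    rw [Finset.sum_insert ha]
    refine h.add_ge (hg a (Finset.mem_insert_self a s))
      (IsHomogeneous.sum s _ n (fun i hi =>
        hg i (Finset.mem_insert_of_mem hi)))
      (h1 a (Finset.mem_insert_self a s)) (ih ?_ ?_)
    · exact fun i hi => hg i (Finset.mem_insert_of_mem hi)
    · exact fun i hi => h1 i (Finset.mem_insert_of_mem hi)

theorem IsW.sum_gt (h : IsW F w) {n : ℕ} {κ : Type} (s : Finset κ)
    (g : κ → MvPolynomial (Fin 3) k)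
    (hg : ∀ i ∈ s, (g i).IsHomogeneous n) {c : Γ}
    (h1 : ∀ i ∈ s, F ∣ g i ∨ c < w (g i)) :
    F ∣ ∑ i ∈ s, g i ∨ c < w (∑ i ∈ s, g i) := by
  classical
  induction s using Finset.induction_on with
  | empty => exact Or.inl (by simp)
  | insert a s ha ih =>
    rw [Finset.sum_insert ha]
    refine h.add_gt (hg a (Finset.mem_insert_self a s))
      (IsHomogeneous.sum s _ n (fun i hi =>
        hg i (Finset.mem_insert_of_mem hi)))
      (h1 a (Finset.mem_insert_self a s)) (ih ?_ ?_)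
    · exact fun i hi => hg i (Finset.mem_insert_of_mem hi)
    · exact fun i hi => h1 i (Finset.mem_insert_of_mem hi)

/-- Adding a form of larger value. -/
theorem IsW.add_eq (hF : Curve F d) (h : IsW F w) {n : ℕ}
    {g g' : MvPolynomial (Fin 3) k} (hg : g.IsHomogeneous n)
    (hg' : g'.IsHomogeneous n) (h1 : ¬ F ∣ g)
    (h2 : F ∣ g' ∨ w g < w g') :
    ¬ F ∣ g + g' ∧ w (g + g') = w g := by
  by_cases hb : F ∣ g'
  · refine ⟨fun h3 => h1 ((dvd_add_left hb).1 h3), ?_⟩
    refine (h.congr n g (g + g') hg (hg.add hg') h1 ?_).symm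
    have : g - (g + g') = -g' := by ring
    rw [this]
    exact (dvd_neg).2 hb
  have h3 : w g < w g' := h2.resolve_left hb
  have h4 : ¬ F ∣ g + g' := fun h4 => by
    have h5 := h.congr n g (-g') hg hg'.neg h1 (by
      rw [sub_neg_eq_add]
      exact h4)
    rw [h.neg hF hg' hb] at h5
    exact absurd h5 h3.ne
  refine ⟨h4, le_antisymm ?_ ?_⟩
  · by_contra h5
    have h6 := h.add_gt (c := w g) (hg.add hg') hg'.neg
      (Or.inr (not_le.1 h5)) (Or.inr (by
        rw [h.neg hF hg' hb]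
        exact h3))
    have h7 : g + g' + -g' = g := by ring
    rw [h7] at h6
    rcases h6 with h6 | h6
    · exact h1 h6
    · exact absurd h6 (lt_irrefl _)
  · have h6 := h.add n g g' hg hg' h1 hb h4
    rwa [min_eq_left h3.le] at h6

/-- The dominant term of a sum. -/
theorem IsW.sum_dom (hF : Curve F d) (h : IsW F w) {n : ℕ} {κ : Type}
    (s : Finset κ) (g : κ → MvPolynomial (Fin 3) k)
    (hg : ∀ i ∈ s, (g i).IsHomogeneous n) (i0 : κ) (hi0 : i0 ∈ s)
    (h0 : ¬ F ∣ g i0)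
    (h1 : ∀ i ∈ s, i ≠ i0 → F ∣ g i ∨ w (g i0) < w (g i)) :
    ¬ F ∣ ∑ i ∈ s, g i ∧ w (∑ i ∈ s, g i) = w (g i0) := by
  classical
  rw [← Finset.add_sum_erase s g hi0]
  refine h.add_eq hF (hg i0 hi0) ?_ h0 ?_
  · exact IsHomogeneous.sum _ _ n (fun i hi =>
      hg i (Finset.mem_of_mem_erase hi))
  · refine h.sum_gt _ g (n := n)
      (fun i hi => hg i (Finset.mem_of_mem_erase hi)) ?_
    exact fun i hi =>
      h1 i (Finset.mem_of_mem_erase hi) (Finset.ne_of_mem_erase hi)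

/-- Families with distinct values are independent. -/
theorem IsW.indep_of_inj (hF : Curve F d) (h : IsW F w) {n : ℕ}
    {κ : Type} [Fintype κ] (b : κ → MvPolynomial (Fin 3) k)
    (hb : ∀ i, (b i).IsHomogeneous n) (h0 : ∀ i, ¬ F ∣ b i)
    (h1 : ∀ i j, i ≠ j → w (b i) ≠ w (b j)) : IndepMod F b := by
  classical
  intro c hc
  by_contra hne
  have h2 : (Finset.univ.filter (fun i => c i ≠ 0)).Nonempty := by
    obtain ⟨i, hi⟩ := Function.ne_iff.1 hne
    exact ⟨i, by simpa using hi⟩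
  obtain ⟨i0, hi0, hmin⟩ := Finset.exists_min_image _
    (fun i => w (b i)) h2
  have hc0 : c i0 ≠ 0 := by simpa using hi0
  have hw (i : κ) (hi : c i ≠ 0) : w (C (c i) * b i) = w (b i) :=
    h.C_mul hF (hb i) (h0 i) hi
  have hd (i : κ) (hi : c i ≠ 0) : ¬ F ∣ C (c i) * b i :=
    not_dvd_mul hF (not_dvd_C hF hi) (h0 i)
  have h3 := h.sum_dom hF (n := n) Finset.univ
    (fun i => C (c i) * b i)
    (fun i _ => by
      simpa using (isHomogeneous_C (Fin 3) (c i)).mul (hb i)) i0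
    (Finset.mem_univ i0) (hd i0 hc0) (fun i _ hi => by
      by_cases hci : c i = 0
      · left
        simp [hci]
      · right
        change w (C (c i0) * b i0) < w (C (c i) * b i)
        rw [hw i0 hc0, hw i hci]
        exact lt_of_le_of_ne (hmin i (by simpa using hci))
          (h1 i0 i (Ne.symm hi)))
  exact h3.1 hc

end IsW

theorem C_mul_hom {n : ℕ} {g : MvPolynomial (Fin 3) k}
    (hg : g.IsHomogeneous n) (c : k) : (C c * g).IsHomogeneous n := by
  simpa using (isHomogeneous_C (Fin 3) c).mul hg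

end Pool.Agent.NH95.QP
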