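import Pool.Agent.NH95.QP.Base
import Pool.Agent.NH28.QP.Stm

namespace Pool.Agent.NH95.QP.Bridge

open MvPolynomial

theorem hp_eq (P : QQ × QQ) :
    Pool.Agent.NH28.QP.Hp P = HL P.2 P.1 := by
  unfold Pool.Agent.NH28.QP.Hp HL
  rw [mul_comm P.1 P.2]

theorem dc_eq : Pool.Agent.NH28.QP.Dc = Dsc QQ := by
  unfold Pool.Agent.NH28.QP.Dc Dsc
  rw [C4_eq, mul_assoc]

theorem one_le_deg {F : MvPolynomial (Fin 3) QQ} {d : ℕ}
    (h : F.IsHomogeneous d) (hi : Irreducible F) : 1 ≤ d := by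
  rcases Nat.eq_zero_or_pos d with h0 | h0
  · exfalso
    subst h0
    have h1 : F.totalDegree = 0 := h.totalDegree hi.ne_zero
    have h2 : F = C (coeff 0 F) := totalDegree_eq_zero_iff_eq_C.1 h1
    have h3 : coeff 0 F ≠ 0 := fun h3 => by
      rw [h3, map_zero] at h2
      exact hi.ne_zero h2
    refine hi.not_isUnit ?_
    rw [h2]
    exact (isUnit_iff_ne_zero.2 h3).map
      (C : QQ →+* MvPolynomial (Fin 3) QQ)
  · exact h0

theorem two_rdim (h : S_RDM) {d N : ℕ} (hd : 1 ≤ d) (hN : d ≤ N) :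
    2 * rdim d N + d * d = 2 * d * N + 3 * d := by
  have h1 := h d N hd hN
  have h2 : ((2 * rdim d N + d * d : ℕ) : ℤ) =
      ((2 * d * N + 3 * d : ℕ) : ℤ) := by
    push_cast
    rw [h1]
    ring
  exact_mod_cast h2

theorem isW {F : MvPolynomial (Fin 3) QQ}
    {w : MvPolynomial (Fin 3) QQ → ℝ}
    (h : Pool.Agent.NH28.QP.IsW F w) : IsW F w where
  nonneg n g hg h1 := h.nonneg n g ⟨hg, h1⟩
  mul n m g g' hg hg' h1 h2 := h.mul n m g g' ⟨hg, h1⟩ ⟨hg', h2⟩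
  add n g g' hg hg' h1 h2 h3 :=
    h.add n g g' ⟨hg, h1⟩ ⟨hg', h2⟩ ⟨hg.add hg', h3⟩
  const := h.cst
  coord := by
    obtain ⟨i, h1, h2⟩ := h.lin
    exact ⟨i, h1.2, h2⟩
  congr n g g' hg hg' h1 h2 := by
    refine h.cgr n g g' ⟨hg, h1⟩ ⟨hg', fun h3 => h1 ?_⟩ h2
    have h4 : g = g - g' + g' := by ring
    rw [h4]
    exact dvd_add h2 h3

theorem bridge (hR : S_RDM) (hA : ALG) : Pool.Agent.NH28.QP.S_ALG := by
  classical
  intro F0 d hF0 hirr q P hP0 hPP Φ0 c hc hΦ hnd T w hw hST hPF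
  have hh : (rat F0).IsHomogeneous d := hF0.map _
  have hd : 1 ≤ d := one_le_deg hh hirr
  have hcu : Curve (rat F0) d := ⟨hh, hirr, hd⟩
  have hΦ2 : rat Φ0 = C c * (Dsc QQ * ∏ i, HL (P i).2 (P i).1) := by
    have h1 : rat Φ0 = Pool.Agent.NH28.QP.mp Φ0 := rfl
    rw [h1, hΦ, dc_eq]
    simp only [hp_eq]
  have hnd2 : ¬ rat F0 ∣ rat Φ0 := hnd
  have h1 : ¬ rat F0 ∣ Dsc QQ := fun h1 => hnd2 (by
    rw [hΦ2]
    exact (h1.mul_right _).mul_left _)
  have h2 : ∀ i, ¬ rat F0 ∣ HL (P i).2 (P i).1 := fun i h2 => hnd2 (by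
    rw [hΦ2]
    exact ((h2.trans (Finset.dvd_prod_of_mem
      (fun i => HL (P i).2 (P i).1) (Finset.mem_univ i))).mul_left
        _).mul_left _)
  have h3 := hA F0 d (↥T) (fun i => w i) hcu
    (fun i => isW (hw i i.2)) ?_ ?_ q (fun i => (P i).2)
    (fun i => (P i).1) c Φ0 hc ?_ hΦ2 h1 h2
  · have h4 : ∑ i : ↥T, w i (rat Φ0) = ∑ v ∈ T, w v (rat Φ0) :=
      Finset.sum_coe_sort T (fun v => w v (rat Φ0))
    exact h4.symm.le.trans h3
  · intro N hN b hb hi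
    have h5 := hST T (Finset.Subset.refl T) N (rdim d N) hN
      (two_rdim hR hd hN)
      (fun v => if hv : v ∈ T then b ⟨v, hv⟩ else fun _ => 0)
      (fun v hv j => by
        simp only [dif_pos hv]
        exact hb ⟨v, hv⟩ j)
      (fun v hv a ha => by
        simp only [dif_pos hv] at ha
        exact hi ⟨v, hv⟩ a ha)
    refine le_trans (le_of_eq ?_) h5
    rw [← Finset.sum_coe_sort T]
    refine Finset.sum_congr rfl (fun i _ => ?_)
    simp only [Finset.coe_mem, dite_true, Subtype.coe_eta]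
  · intro n g hg hn
    have h5 := hPF T (Finset.Subset.refl T) n g ⟨hg.map _, hn⟩
    refine le_trans (le_of_eq ?_) h5
    exact Finset.sum_coe_sort T (fun v => w v (rat g))
  · intro i j hij h6
    refine hPP i j hij ?_
    have h7 : (P i).1 * (P j).2 - (P i).2 * (P j).1 =
        -((P i).2 * (P j).1 - (P i).1 * (P j).2) := by ring
    rw [h7, h6, neg_zero]

end Pool.Agent.NH95.QP.Bridge
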