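import Pool.Agent.NH95.QP.Base

/-!
Project QP: Bezout for two places, by counting.
-/

namespace Pool.Agent.NH95.QP.Bz

open MvPolynomial Pool.Agent.NH95.QP

section

variable {k : Type} [Field k] {F : MvPolynomial (Fin 3) k} {d : ℕ}

theorem val2 {w : MvPolynomial (Fin 3) k → ℤ} (hF : Curve F d)
    (h : IsW F w) {n m : ℕ} {g g' : MvPolynomial (Fin 3) k}
    (hg : g.IsHomogeneous n) (hg' : g'.IsHomogeneous m)
    (h1 : ¬ F ∣ g) (h2 : ¬ F ∣ g') (a : ℕ) :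
    w (g ^ a * g') = a * w g + w g' := by
  rw [h.mul (n * a) m _ _ (hg.pow a) hg' (not_dvd_pow hF h1 a) h2,
    h.pow hF hg h1, nsmul_eq_mul]

theorem val4 {w : MvPolynomial (Fin 3) k → ℤ} (hF : Curve F d)
    (h : IsW F w) {l1 l2 l3 l4 : ℕ}
    {g1 g2 g3 g4 : MvPolynomial (Fin 3) k}
    (e1 : g1.IsHomogeneous l1) (e2 : g2.IsHomogeneous l2)
    (e3 : g3.IsHomogeneous l3) (e4 : g4.IsHomogeneous l4)
    (f1 : ¬ F ∣ g1) (f2 : ¬ F ∣ g2) (f3 : ¬ F ∣ g3) (f4 : ¬ F ∣ g4)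
    (m1 m2 m3 m4 : ℕ) :
    w (g1 ^ m1 * (g2 ^ m2 * (g3 ^ m3 * g4 ^ m4))) =
      m1 * w g1 + (m2 * w g2 + (m3 * w g3 + m4 * w g4)) := by
  have x4 := not_dvd_pow hF f4 m4
  have x3 := not_dvd_mul hF (not_dvd_pow hF f3 m3) x4
  have x2 := not_dvd_mul hF (not_dvd_pow hF f2 m2) x3
  rw [val2 hF h e1 (((e2.pow m2).mul ((e3.pow m3).mul (e4.pow m4)))) f1 x2,
    val2 hF h e2 ((e3.pow m3).mul (e4.pow m4)) f2 x3,
    val2 hF h e3 (e4.pow m4) f3 x4, h.pow hF e4 f4, nsmul_eq_mul]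

/-- The independence of the family. -/
theorem indep (hF : Curve F d) {v v' : MvPolynomial (Fin 3) k → ℤ}
    (hv : IsW F v) (hv' : IsW F v') {N n1 n2 J : ℕ} {c c' : ℤ}
    (b : Fin (J + 1) × (Fin n1 ⊕ Fin n2) → MvPolynomial (Fin 3) k)
    (hb : ∀ x, (b x).IsHomogeneous N) (h0 : ∀ x, ¬ F ∣ b x)
    (a1 : ∀ (j : Fin (J + 1)) (i : Fin n1),
      v (b (j, Sum.inl i)) = (j : ℕ) * n1 + c + (i : ℕ))
    (a2 : ∀ (j : Fin (J + 1)) (i : Fin n2),
      ((j : ℕ) : ℤ) * n1 + c + n1 ≤ v (b (j, Sum.inr i)))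
    (a3 : ∀ (j : Fin (J + 1)) (i : Fin n2),
      v' (b (j, Sum.inr i)) = (j : ℕ) * n2 + c' + (i : ℕ))
    (a4 : ∀ (j : Fin (J + 1)) (i : Fin n1),
      ((j : ℕ) : ℤ) * n2 + c' + n2 ≤ v' (b (j, Sum.inl i))) :
    IndepMod F b := by
  classical
  intro γ hγ
  by_contra hne
  set φ : Fin (J + 1) × (Fin n1 ⊕ Fin n2) → ℕ := fun x =>
    Sum.elim (fun i : Fin n1 => (x.1 : ℕ) * (n1 + n2) + (i : ℕ))
      (fun i : Fin n2 => (x.1 : ℕ) * (n1 + n2) + n1 + (i : ℕ)) x.2 with hφ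
  have h2 : (Finset.univ.filter (fun x => γ x ≠ 0)).Nonempty := by
    obtain ⟨x, hx⟩ := Function.ne_iff.1 hne
    exact ⟨x, by simpa using hx⟩
  obtain ⟨x0, hx0, hmin⟩ := Finset.exists_min_image _ φ h2
  have hc0 : γ x0 ≠ 0 := by simpa using hx0
  have hmin' : ∀ x, γ x ≠ 0 → φ x0 ≤ φ x := fun x hx =>
    hmin x (by simpa using hx)
  have hw (w : MvPolynomial (Fin 3) k → ℤ) (hw : IsW F w)
      (x : Fin (J + 1) × (Fin n1 ⊕ Fin n2)) (hx : γ x ≠ 0) :
      w (C (γ x) * b x) = w (b x) := hw.C_mul hF (hb x) (h0 x) hx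
  have hd (x : Fin (J + 1) × (Fin n1 ⊕ Fin n2)) (hx : γ x ≠ 0) :
      ¬ F ∣ C (γ x) * b x := not_dvd_mul hF (not_dvd_C hF hx) (h0 x)
  have fin (w : MvPolynomial (Fin 3) k → ℤ) (hw1 : IsW F w)
      (hlt : ∀ x, γ x ≠ 0 → x ≠ x0 → w (b x0) < w (b x)) : False := by
    have h3 := hw1.sum_dom hF (n := N) Finset.univ
      (fun x => C (γ x) * b x) (fun x _ => C_mul_hom (hb x) _) x0
      (Finset.mem_univ x0) (hd x0 hc0) (fun x _ hx => by
        by_cases hcx : γ x = 0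
        · left
          simp [hcx]
        · right
          change w (C (γ x0) * b x0) < w (C (γ x) * b x)
          rw [hw w hw1 x0 hc0, hw w hw1 x hcx]
          exact hlt x hcx hx)
    exact h3.1 hγ
  obtain ⟨j0, y0⟩ := x0
  rcases y0 with i0 | i0
  · apply fin v hv
    rintro ⟨j, y⟩ hx hne'
    have h5 := hmin' _ hx
    have hi0 := i0.2
    rcases y with i | i
    · simp only [hφ, Sum.elim_inl] at h5
      have hi := i.2
      have h6 : (j0 : ℕ) ≤ j := by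
        by_contra h7
        have h8 : (j : ℕ) + 1 ≤ j0 := by omega
        nlinarith [Nat.mul_le_mul_right (n1 + n2) h8]
      rw [a1, a1]
      rcases h6.eq_or_lt with h7 | h7
      · have h8 : j0 = j := Fin.ext h7
        subst h8
        have h9 : i0 ≠ i := fun h => hne' (by rw [h])
        have h10 : (i0 : ℕ) ≠ i := fun h => h9 (Fin.ext h)
        have h11 : (i0 : ℕ) < i := by omega
        have h12 : ((i0 : ℕ) : ℤ) < (i : ℕ) := by exact_mod_cast h11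
        linarith
      · have h8 : (j0 : ℕ) + 1 ≤ j := h7
        have h9 : ((j0 : ℕ) + 1) * n1 ≤ j * n1 := Nat.mul_le_mul_right n1 h8
        have h10 : (((j0 : ℕ) : ℤ) + 1) * n1 ≤ (j : ℕ) * n1 := by exact_mod_cast h9
        have h11 : ((i0 : ℕ) : ℤ) < n1 := by exact_mod_cast hi0
        have h12 : (0 : ℤ) ≤ (i : ℕ) := Int.natCast_nonneg _
        linarith
    · simp only [hφ, Sum.elim_inl, Sum.elim_inr] at h5
      have hi := i.2
      have h6 : (j0 : ℕ) ≤ j := by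
        by_contra h7
        have h8 : (j : ℕ) + 1 ≤ j0 := by omega
        nlinarith [Nat.mul_le_mul_right (n1 + n2) h8]
      have h9 : (j0 : ℕ) * n1 ≤ j * n1 := Nat.mul_le_mul_right n1 h6
      have h10 : ((j0 : ℕ) : ℤ) * n1 ≤ (j : ℕ) * n1 := by exact_mod_cast h9
      have h11 : ((i0 : ℕ) : ℤ) < n1 := by exact_mod_cast hi0
      have h12 := a2 j i
      rw [a1]
      linarith
  · apply fin v' hv'
    rintro ⟨j, y⟩ hx hne'
    have h5 := hmin' _ hx
    have hi0 := i0.2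
    rcases y with i | i
    · simp only [hφ, Sum.elim_inl, Sum.elim_inr] at h5
      have hi := i.2
      have h6 : (j0 : ℕ) ≤ j := by
        by_contra h7
        have h8 : (j : ℕ) + 1 ≤ j0 := by omega
        nlinarith [Nat.mul_le_mul_right (n1 + n2) h8]
      have h9 : (j0 : ℕ) * n2 ≤ j * n2 := Nat.mul_le_mul_right n2 h6
      have h10 : ((j0 : ℕ) : ℤ) * n2 ≤ (j : ℕ) * n2 := by exact_mod_cast h9
      have h11 : ((i0 : ℕ) : ℤ) < n2 := by exact_mod_cast hi0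
      have h12 := a4 j i
      rw [a3]
      linarith
    · simp only [hφ, Sum.elim_inr] at h5
      have hi := i.2
      have h6 : (j0 : ℕ) ≤ j := by
        by_contra h7
        have h8 : (j : ℕ) + 1 ≤ j0 := by omega
        nlinarith [Nat.mul_le_mul_right (n1 + n2) h8]
      rw [a3, a3]
      rcases h6.eq_or_lt with h7 | h7
      · have h8 : j0 = j := Fin.ext h7
        subst h8
        have h9 : i0 ≠ i := fun h => hne' (by rw [h])
        have h10 : (i0 : ℕ) ≠ i := fun h => h9 (Fin.ext h)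
        have h11 : (i0 : ℕ) < i := by omega
        have h12 : ((i0 : ℕ) : ℤ) < (i : ℕ) := by exact_mod_cast h11
        linarith
      · have h8 : (j0 : ℕ) + 1 ≤ j := h7
        have h9 : ((j0 : ℕ) + 1) * n2 ≤ j * n2 := Nat.mul_le_mul_right n2 h8
        have h10 : (((j0 : ℕ) : ℤ) + 1) * n2 ≤ (j : ℕ) * n2 := by exact_mod_cast h9
        have h11 : ((i0 : ℕ) : ℤ) < n2 := by exact_mod_cast hi0
        have h12 : (0 : ℤ) ≤ (i : ℕ) := Int.natCast_nonneg _
        linarith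

end

theorem t_BZ (h1 : S_CNT) (h2 : S_LIN) (h3 : S_APX) (h4 : S_BZ1) :
    S_BZ := by
  intro k _ _ _ F d v v' hF hv hv' hD e g hg hgF
  have hw := hv.1
  have hw' := hv'.1
  have p1 : 0 ≤ v g := hw.nonneg e g hg hgF
  have p2 : 0 ≤ v' g := hw'.nonneg e g hg hgF
  rcases p1.eq_or_lt with q1 | q1
  · have := h4 k F d v' hF hv' e g hg hgF
    linarith
  rcases p2.eq_or_lt with q2 | q2
  · have := h4 k F d v hF hv e g hg hgF
    linarith
  obtain ⟨z, hz, hzF, hz1, hz2⟩ := h2 k F d v v' hF hw hw'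
  obtain ⟨dA, A, B, hA, hB, hAF, hBF, hAB, hAB'⟩ := h3 k F d v v' hF hv hv' hD
  obtain ⟨-, da, a, b, ha, hb, haF, hbF, hab⟩ := hv
  obtain ⟨-, da', a', b', ha', hb', haF', hbF', hab'⟩ := hv'
  obtain ⟨n1, hn1⟩ := Int.eq_ofNat_of_zero_le p1
  obtain ⟨n2, hn2⟩ := Int.eq_ofNat_of_zero_le p2
  obtain ⟨m1, hm1⟩ := Int.eq_ofNat_of_zero_le (hw.nonneg da b hb hbF)
  obtain ⟨m2, hm2⟩ := Int.eq_ofNat_of_zero_le (hw'.nonneg da' b' hb' hbF')
  have hB0 : 0 ≤ v B := hw.nonneg dA B hB hBF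
  have hA0' : 0 ≤ v' A := hw'.nonneg dA A hA hAF
  have ha0' : 0 ≤ v' a := hw'.nonneg da a ha haF
  have hb0' : 0 ≤ v' b := hw'.nonneg da b hb hbF
  have ha0 : 0 ≤ v a' := hw.nonneg da' a' ha' haF'
  have hb0 : 0 ≤ v b' := hw.nonneg da' b' hb' hbF'
  obtain ⟨s, hs⟩ : ∃ s : ℕ, s = n1 * m1 + n1 + (n2 * m2 + n2) := ⟨_, rfl⟩
  obtain ⟨D, hDe⟩ : ∃ D : ℕ, D = dA * s + da * n1 + da' * n2 + d := ⟨_, rfl⟩
  obtain ⟨J, hJ⟩ : ∃ J : ℕ, J = D * d + 1 := ⟨_, rfl⟩
  set G : Fin n1 → MvPolynomial (Fin 3) k := fun i =>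
    B ^ s * (a ^ (i : ℕ) * (b ^ (n1 - i) * z ^ (da' * n2 + d))) with hG
  set G' : Fin n2 → MvPolynomial (Fin 3) k := fun i =>
    A ^ s * (a' ^ (i : ℕ) * (b' ^ (n2 - i) * z ^ (da * n1 + d))) with hG'
  have Ghom : ∀ i, (G i).IsHomogeneous D := by
    intro i
    have := (hB.pow s).mul ((ha.pow (i : ℕ)).mul ((hb.pow (n1 - i)).mul
      (hz.pow (da' * n2 + d))))
    have e1 : dA * s + (da * (i : ℕ) + (da * (n1 - i) + 1 * (da' * n2 + d))) = D := by
      have e2 : da * (i : ℕ) + da * (n1 - i) = da * n1 := by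
        rw [← mul_add, Nat.add_sub_cancel' i.2.le]
      rw [hDe]
      omega
    rw [e1] at this
    exact this
  have Ghom' : ∀ i, (G' i).IsHomogeneous D := by
    intro i
    have := (hA.pow s).mul ((ha'.pow (i : ℕ)).mul ((hb'.pow (n2 - i)).mul
      (hz.pow (da * n1 + d))))
    have e1 : dA * s + (da' * (i : ℕ) + (da' * (n2 - i) + 1 * (da * n1 + d))) = D := by
      have e2 : da' * (i : ℕ) + da' * (n2 - i) = da' * n2 := by
        rw [← mul_add, Nat.add_sub_cancel' i.2.le]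
      rw [hDe]
      omega
    rw [e1] at this
    exact this
  have GF : ∀ i, ¬ F ∣ G i := fun i => not_dvd_mul hF (not_dvd_pow hF hBF s)
    (not_dvd_mul hF (not_dvd_pow hF haF _) (not_dvd_mul hF (not_dvd_pow hF hbF _)
      (not_dvd_pow hF hzF _)))
  have GF' : ∀ i, ¬ F ∣ G' i := fun i => not_dvd_mul hF (not_dvd_pow hF hAF s)
    (not_dvd_mul hF (not_dvd_pow hF haF' _) (not_dvd_mul hF (not_dvd_pow hF hbF' _)
      (not_dvd_pow hF hzF _)))
  set c : ℤ := s * v B + n1 * m1 with hc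
  set c' : ℤ := s * v' A + n2 * m2 with hc'
  have sub1 : ∀ i : Fin n1, ((n1 - (i : ℕ) : ℕ) : ℤ) = n1 - (i : ℕ) := fun i =>
    Nat.cast_sub i.2.le
  have sub2 : ∀ i : Fin n2, ((n2 - (i : ℕ) : ℕ) : ℤ) = n2 - (i : ℕ) := fun i =>
    Nat.cast_sub i.2.le
  have hsZ : (s : ℤ) = n1 * m1 + n1 + (n2 * m2 + n2) := by rw [hs]; push_cast; ring
  have g1 : ∀ i, v (G i) = c + (i : ℕ) := by
    intro i
    rw [hG]
    simp only
    rw [val4 hF hw hB ha hb hz hBF haF hbF hzF, hab, hz1, sub1 i, hm1, hc]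
    ring
  have g2 : ∀ i, c' + n2 ≤ v' (G i) := by
    intro i
    rw [hG]
    simp only
    rw [val4 hF hw' hB ha hb hz hBF haF hbF hzF, hz2, hc']
    have t1 : (s : ℤ) * (v' A + 1) ≤ s * v' B :=
      mul_le_mul_of_nonneg_left (by omega) (Int.natCast_nonneg s)
    have t2 : (0 : ℤ) ≤ (i : ℕ) * v' a := mul_nonneg (Int.natCast_nonneg _) ha0'
    have t3 : (0 : ℤ) ≤ ((n1 - (i : ℕ) : ℕ) : ℤ) * v' b := mul_nonneg (Int.natCast_nonneg _) hb0'
    have t4 : (0 : ℤ) ≤ n1 * m1 := by positivity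
    have t5 : (0 : ℤ) ≤ n1 := Int.natCast_nonneg _
    linarith
  have g3 : ∀ i, v' (G' i) = c' + (i : ℕ) := by
    intro i
    rw [hG']
    simp only
    rw [val4 hF hw' hA ha' hb' hz hAF haF' hbF' hzF, hab', hz2, sub2 i, hm2, hc']
    ring
  have g4 : ∀ i, c + n1 ≤ v (G' i) := by
    intro i
    rw [hG']
    simp only
    rw [val4 hF hw hA ha' hb' hz hAF haF' hbF' hzF, hz1, hc]
    have t1 : (s : ℤ) * (v B + 1) ≤ s * v A :=
      mul_le_mul_of_nonneg_left (by omega) (Int.natCast_nonneg s)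
    have t2 : (0 : ℤ) ≤ (i : ℕ) * v a' := mul_nonneg (Int.natCast_nonneg _) ha0
    have t3 : (0 : ℤ) ≤ ((n2 - (i : ℕ) : ℕ) : ℤ) * v b' := mul_nonneg (Int.natCast_nonneg _) hb0
    have t4 : (0 : ℤ) ≤ n2 * m2 := by positivity
    have t5 : (0 : ℤ) ≤ n2 := Int.natCast_nonneg _
    linarith
  -- the family
  set E : Fin (J + 1) × (Fin n1 ⊕ Fin n2) → MvPolynomial (Fin 3) k := fun x =>
    g ^ (x.1 : ℕ) * (z ^ (e * (J - x.1)) * Sum.elim G G' x.2) with hE
  have H0 : ∀ y, (Sum.elim G G' y).IsHomogeneous D := by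
    intro y; rcases y with i | i
    · exact Ghom i
    · exact Ghom' i
  have H1 : ∀ y, ¬ F ∣ Sum.elim G G' y := by
    intro y; rcases y with i | i
    · exact GF i
    · exact GF' i
  have Ehom : ∀ x, (E x).IsHomogeneous (e * J + D) := by
    intro x
    have := (hg.pow (x.1 : ℕ)).mul ((hz.pow (e * (J - x.1))).mul (H0 x.2))
    have e1 : e * (x.1 : ℕ) + (1 * (e * (J - x.1)) + D) = e * J + D := by
      have e2 : e * (x.1 : ℕ) + e * (J - x.1) = e * J := by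
        rw [← mul_add, Nat.add_sub_cancel' (Nat.lt_succ_iff.1 x.1.2)]
      omega
    rw [e1] at this
    exact this
  have EF : ∀ x, ¬ F ∣ E x := fun x => not_dvd_mul hF (not_dvd_pow hF hgF _)
    (not_dvd_mul hF (not_dvd_pow hF hzF _) (H1 x.2))
  have Eval : ∀ (w : MvPolynomial (Fin 3) k → ℤ), IsW F w → w z = 0 →
      ∀ x, w (E x) = (x.1 : ℕ) * w g + w (Sum.elim G G' x.2) := by
    intro w hw3 hwz x
    rw [hE]
    simp only
    rw [val2 hF hw3 hg ((hz.pow _).mul (H0 x.2)) hgF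
      (not_dvd_mul hF (not_dvd_pow hF hzF _) (H1 x.2)), val2 hF hw3 hz (H0 x.2) hzF (H1 x.2),
      hwz, mul_zero, zero_add]
  have hind : IndepMod F E := by
    refine indep hF hw hw' (c := c) (c' := c') E Ehom EF ?_ ?_ ?_ ?_
    · intro j i
      rw [Eval v hw hz1, Sum.elim_inl, g1, hn1]
      ring
    · intro j i
      rw [Eval v hw hz1, Sum.elim_inr, hn1]
      have := g4 i
      linarith
    · intro j i
      rw [Eval v' hw' hz2, Sum.elim_inr, g3, hn2]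
      ring
    · intro j i
      rw [Eval v' hw' hz2, Sum.elim_inl, hn2]
      have := g2 i
      linarith
  have hcard := h1 k F d (e * J + D) _ E hF (by omega) Ehom hind
  rw [Fintype.card_prod, Fintype.card_sum, Fintype.card_fin, Fintype.card_fin,
    Fintype.card_fin] at hcard
  by_contra hlt
  have h5 : e * d + 1 ≤ n1 + n2 := by
    have h6 : (e : ℤ) * d < n1 + n2 := by
      rw [hn1, hn2] at hlt
      simpa using hlt
    exact_mod_cast h6
  have h6 : (J + 1) * (e * d + 1) ≤ (J + 1) * (n1 + n2) := Nat.mul_le_mul_left _ h5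
  have h7 : (J + 1) * (e * d + 1) = e * J * d + J + e * d + 1 := by ring
  have h8 : (e * J + D) * d + 1 = e * J * d + D * d + 1 := by ring
  omega

end Pool.Agent.NH95.QP.Bz
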