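import Pool.Agent.NH95.QP.Base

/-! QP-BZ1: Bezout for one place. -/

set_option autoImplicit false

namespace Pool.Agent.NH95.QP.Bz1

open MvPolynomial

theorem t_BZ1 (h : S_CNT) : S_BZ1 := by
  intro k _ _ _ F d v hF hv n g hg hFg
  obtain ⟨hw, e, a, b, ha, hb, hFa, hFb, hab⟩ := hv
  by_contra hlt
  have hlt' : (n : ℤ) * d < v g := not_le.1 hlt
  obtain ⟨n0, hn0⟩ : ∃ n0 : ℕ, v g = n0 :=
    ⟨(v g).toNat, (Int.toNat_of_nonneg (hw.nonneg n g hg hFg)).symm⟩
  have hn0' : n * d + 1 ≤ n0 := by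
    rw [hn0] at hlt'
    exact_mod_cast hlt'
  obtain ⟨i0, hi0, hvi0⟩ := hw.coord
  -- the degree is positive
  have hn1 : 1 ≤ n := by
    rcases Nat.eq_zero_or_pos n with hn | hn
    · subst hn
      have h1 : g ≠ 0 := ne_zero_of_not_dvd hFg
      have h2 : g = C (coeff 0 g) := totalDegree_eq_zero_iff_eq_C.1 (hg.totalDegree h1)
      have h3 : coeff 0 g ≠ 0 := fun h4 => h1 (by rw [h2, h4, map_zero])
      have h4 := hw.const _ h3
      rw [← h2, hn0] at h4
      have h5 : n0 = 0 := by exact_mod_cast h4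
      omega
    · exact hn
  have key : ∀ J : ℕ, d ≤ J → (J + 1) * n0 ≤ (n * J + e * n0) * d + 1 := by
    intro J hJ
    have hhom : ∀ x : Fin (J + 1) × Fin n0, (g ^ (x.1 : ℕ) * X i0 ^ (n * (J - x.1)) *
        (a ^ (x.2 : ℕ) * b ^ (n0 - x.2)) : MvPolynomial (Fin 3) k).IsHomogeneous
        (n * J + e * n0) := by
      intro x
      have h1 := ((hg.pow x.1).mul ((isHomogeneous_X k i0).pow (n * (J - x.1)))).mul
        ((ha.pow x.2).mul (hb.pow (n0 - x.2)))
      have h2 : n * x.1 + 1 * (n * (J - x.1)) + (e * x.2 + e * (n0 - x.2)) =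
          n * J + e * n0 := by
        rw [one_mul, ← Nat.mul_add, ← Nat.mul_add]
        have h3 : (x.1 : ℕ) + (J - x.1) = J := by
          have := x.1.2
          omega
        have h4 : (x.2 : ℕ) + (n0 - x.2) = n0 := by
          have := x.2.2
          omega
        rw [h3, h4]
      rw [h2] at h1
      exact h1
    have hnd : ∀ x : Fin (J + 1) × Fin n0, ¬ F ∣ (g ^ (x.1 : ℕ) * X i0 ^ (n * (J - x.1)) *
        (a ^ (x.2 : ℕ) * b ^ (n0 - x.2)) : MvPolynomial (Fin 3) k) := fun x =>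
      not_dvd_mul hF (not_dvd_mul hF (not_dvd_pow hF hFg _) (not_dvd_pow hF hi0 _))
        (not_dvd_mul hF (not_dvd_pow hF hFa _) (not_dvd_pow hF hFb _))
    have hval : ∀ x : Fin (J + 1) × Fin n0, v (g ^ (x.1 : ℕ) * X i0 ^ (n * (J - x.1)) *
        (a ^ (x.2 : ℕ) * b ^ (n0 - x.2)) : MvPolynomial (Fin 3) k) =
        (((x.1 : ℕ) * n0 + (x.2 : ℕ) : ℕ) : ℤ) + n0 * v b := by
      intro x
      rw [hw.mul _ _ _ _ ((hg.pow x.1).mul ((isHomogeneous_X k i0).pow (n * (J - x.1))))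
          ((ha.pow x.2).mul (hb.pow (n0 - x.2)))
          (not_dvd_mul hF (not_dvd_pow hF hFg _) (not_dvd_pow hF hi0 _))
          (not_dvd_mul hF (not_dvd_pow hF hFa _) (not_dvd_pow hF hFb _)),
        hw.mul _ _ _ _ (hg.pow x.1) ((isHomogeneous_X k i0).pow (n * (J - x.1)))
          (not_dvd_pow hF hFg _) (not_dvd_pow hF hi0 _),
        hw.mul _ _ _ _ (ha.pow x.2) (hb.pow (n0 - x.2))
          (not_dvd_pow hF hFa _) (not_dvd_pow hF hFb _),
        hw.pow hF hg hFg, hw.pow hF (isHomogeneous_X k i0) hi0, hw.pow hF ha hFa,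
        hw.pow hF hb hFb, hvi0, hn0, hab]
      have h3 : ((n0 - (x.2 : ℕ) : ℕ) : ℤ) = (n0 : ℤ) - ((x.2 : ℕ) : ℤ) :=
        Nat.cast_sub x.2.2.le
      simp only [nsmul_eq_mul]
      rw [h3]
      push_cast
      ring
    have h1 := h k F d (n * J + e * n0) (Fin (J + 1) × Fin n0)
      (fun x => g ^ (x.1 : ℕ) * X i0 ^ (n * (J - x.1)) * (a ^ (x.2 : ℕ) * b ^ (n0 - x.2))) hF
      (by
        have h2 : 1 * J ≤ n * J := Nat.mul_le_mul_right J hn1
        omega) hhom
      (hw.indep_of_inj hF _ hhom hnd (by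
        intro x y hxy hv
        rw [hval x, hval y] at hv
        have h2 : (x.1 : ℕ) * n0 + (x.2 : ℕ) = (y.1 : ℕ) * n0 + (y.2 : ℕ) := by
          have h3 := add_right_cancel hv
          exact_mod_cast h3
        have hx2 := x.2.2
        have hy2 := y.2.2
        have h4 : (x.1 : ℕ) = y.1 := by
          rcases Nat.lt_trichotomy (x.1 : ℕ) (y.1 : ℕ) with h5 | h5 | h5
          · have h6 : ((x.1 : ℕ) + 1) * n0 ≤ (y.1 : ℕ) * n0 := Nat.mul_le_mul_right n0 h5
            rw [Nat.add_mul, Nat.one_mul] at h6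
            omega
          · exact h5
          · have h6 : ((y.1 : ℕ) + 1) * n0 ≤ (x.1 : ℕ) * n0 := Nat.mul_le_mul_right n0 h5
            rw [Nat.add_mul, Nat.one_mul] at h6
            omega
        have h5 : (x.2 : ℕ) = y.2 := by
          rw [h4] at h2
          omega
        exact hxy (Prod.ext (Fin.ext h4) (Fin.ext h5))))
    rw [Fintype.card_prod, Fintype.card_fin, Fintype.card_fin] at h1
    exact h1
  have h1 := key (d + e * n0 * d + 2) (by
    have := Nat.zero_le (e * n0 * d)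
    omega)
  set J := d + e * n0 * d + 2 with hJ
  have h2 : J * (n * d + 1) ≤ J * n0 := Nat.mul_le_mul_left J hn0'
  have h3 : (n * J + e * n0) * d = J * (n * d) + e * n0 * d := by ring
  rw [h3, Nat.add_mul, Nat.one_mul] at h1
  rw [Nat.mul_add, Nat.mul_one] at h2
  omega

end Pool.Agent.NH95.QP.Bz1
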