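import Pool.Agent.NH95.QP.Base

/-!
Project QP: the sum of the values of the discriminant and of the linear forms at one or two places.
-/

namespace Pool.Agent.NH95.QP.Cla

open MvPolynomial

/-- shape of a nonnegative family with at most two positive members -/
theorem shape {m : ℕ} (f : Fin m → ℤ) (h0 : ∀ i, 0 ≤ f i)
    (h3 : ∀ i j l, i ≠ j → i ≠ l → j ≠ l → 0 < f i → 0 < f j → 0 < f l → False) :
    (∑ i, f i = 0) ∨ (∃ i, 0 < f i ∧ ∑ i, f i = f i) ∨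
      (∃ i j, i ≠ j ∧ 0 < f i ∧ 0 < f j ∧ ∑ i, f i = f i + f j) := by
  classical
  by_cases h1 : ∃ i, 0 < f i
  · obtain ⟨i, hi⟩ := h1
    by_cases h2 : ∃ j, j ≠ i ∧ 0 < f j
    · obtain ⟨j, hji, hj⟩ := h2
      right; right
      refine ⟨i, j, hji.symm, hi, hj, ?_⟩
      have h4 : ∑ l ∈ Finset.univ, f l = ∑ l ∈ ({i, j} : Finset (Fin m)), f l := by
        symm
        refine Finset.sum_subset (Finset.subset_univ _) ?_
        intro l _ hl
        simp only [Finset.mem_insert, Finset.mem_singleton, not_or] at hl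
        by_contra hne
        exact h3 i j l hji.symm (Ne.symm hl.1) (Ne.symm hl.2) hi hj
          (lt_of_le_of_ne (h0 l) (Ne.symm hne))
      rw [h4, Finset.sum_pair hji.symm]
    · push Not at h2
      right; left
      refine ⟨i, hi, ?_⟩
      refine Finset.sum_eq_single i ?_ ?_
      · intro j _ hj
        exact le_antisymm (h2 j hj) (h0 j)
      · intro h
        exact absurd (Finset.mem_univ i) h
  · push Not at h1
    left
    exact Finset.sum_eq_zero fun i _ => le_antisymm (h1 i) (h0 i)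

theorem comb1 {m : ℕ} (f : Fin m → ℤ) (D d : ℤ) (hd : 0 ≤ d) (h0 : ∀ i, 0 ≤ f i)
    (h3 : ∀ i j l, i ≠ j → i ≠ l → j ≠ l → 0 < f i → 0 < f j → 0 < f l → False)
    (hD : 0 ≤ D) (hD2 : D ≤ 2 * d) (hf : ∀ i, f i ≤ d)
    (h2 : 0 < D → ∀ i j, i ≠ j → 0 < f i → 0 < f j → False) :
    D + ∑ i, f i ≤ 4 * d := by
  rcases shape f h0 h3 with h | ⟨i, _, h⟩ | ⟨i, j, hij, hi, hj, h⟩
  · rw [h]; linarith
  · rw [h]; linarith [hf i]
  · rw [h]
    have : ¬ 0 < D := fun hp => h2 hp i j hij hi hj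
    linarith [hf i, hf j]

theorem combC {m : ℕ} (f g : Fin m → ℤ) (D d : ℤ) (hd : 0 ≤ d) (h0 : ∀ i, 0 ≤ f i)
    (g0 : ∀ i, 0 ≤ g i)
    (h3 : ∀ i j l, i ≠ j → i ≠ l → j ≠ l → 0 < f i → 0 < f j → 0 < f l → False)
    (g3 : ∀ i j l, i ≠ j → i ≠ l → j ≠ l → 0 < g i → 0 < g j → 0 < g l → False)
    (hD : 0 < D) (hD2 : D ≤ 2 * d) (hf : ∀ i, f i ≤ d) (hg : ∀ i, g i ≤ d)
    (hfg : ∀ i, f i + g i ≤ d)
    (h2 : ∀ i j, i ≠ j → 0 < f i → 0 < f j → False)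
    (hh : ∀ i j l, i ≠ j → i ≠ l → j ≠ l → 0 < f i → 0 < g j → 0 < g l →
      f i + D + g j + g l ≤ 4 * d) :
    D + ∑ i, f i + ∑ i, g i ≤ 4 * d := by
  rcases shape f h0 h3 with h | ⟨i, hi, h⟩ | ⟨i, j, hij, hi, hj, h⟩
  · rcases shape g g0 g3 with h' | ⟨j, _, h'⟩ | ⟨j, l, _, _, _, h'⟩
    · rw [h, h']; linarith
    · rw [h, h']; linarith [hg j]
    · rw [h, h']; linarith [hg j, hg l]
  · rcases shape g g0 g3 with h' | ⟨j, _, h'⟩ | ⟨j, l, hjl, hj, hl, h'⟩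
    · rw [h, h']; linarith [hf i]
    · rw [h, h']; linarith [hf i, hg j]
    · rw [h, h']
      by_cases e1 : i = j
      · subst e1
        linarith [hfg i, hg l]
      · by_cases e2 : i = l
        · subst e2
          linarith [hfg i, hg j]
        · linarith [hh i j l e1 e2 hjl hi hj hl]
  · exact (h2 i j hij hi hj).elim

theorem comb2 {m : ℕ} (f g : Fin m → ℤ) (D E d : ℤ) (hd : 0 ≤ d) (h0 : ∀ i, 0 ≤ f i)
    (g0 : ∀ i, 0 ≤ g i)
    (h3 : ∀ i j l, i ≠ j → i ≠ l → j ≠ l → 0 < f i → 0 < f j → 0 < f l → False)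
    (g3 : ∀ i j l, i ≠ j → i ≠ l → j ≠ l → 0 < g i → 0 < g j → 0 < g l → False)
    (hD : 0 ≤ D) (hE : 0 ≤ E) (hDE : D + E ≤ 2 * d) (hf : ∀ i, f i ≤ d) (hg : ∀ i, g i ≤ d)
    (hfg : ∀ i, f i + g i ≤ d)
    (h2 : 0 < D → ∀ i j, i ≠ j → 0 < f i → 0 < f j → False)
    (g2 : 0 < E → ∀ i j, i ≠ j → 0 < g i → 0 < g j → False)
    (hh : 0 < D → ∀ i j l, i ≠ j → i ≠ l → j ≠ l → 0 < f i → 0 < g j → 0 < g l →
      f i + D + g j + g l ≤ 4 * d)
    (gh : 0 < E → ∀ i j l, i ≠ j → i ≠ l → j ≠ l → 0 < g i → 0 < f j → 0 < f l →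
      g i + E + f j + f l ≤ 4 * d) :
    (D + ∑ i, f i) + (E + ∑ i, g i) ≤ 4 * d := by
  rcases hD.eq_or_lt with hD' | hD'
  · rcases hE.eq_or_lt with hE' | hE'
    · -- both zero
      have s1 : ∑ i, f i ≤ 2 * d := by
        rcases shape f h0 h3 with h | ⟨i, _, h⟩ | ⟨i, j, _, _, _, h⟩
        · rw [h]; linarith
        · rw [h]; linarith [hf i]
        · rw [h]; linarith [hf i, hf j]
      have s2 : ∑ i, g i ≤ 2 * d := by
        rcases shape g g0 g3 with h | ⟨i, _, h⟩ | ⟨i, j, _, _, _, h⟩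
        · rw [h]; linarith
        · rw [h]; linarith [hg i]
        · rw [h]; linarith [hg i, hg j]
      linarith
    · have := combC g f E d hd g0 h0 g3 h3 hE' (by linarith) hg hf
        (fun i => by linarith [hfg i]) (g2 hE') (gh hE')
      linarith
  · rcases hE.eq_or_lt with hE' | hE'
    · have := combC f g D d hd h0 g0 h3 g3 hD' (by linarith) hf hg hfg (h2 hD') (hh hD')
      linarith
    · -- both positive
      have s1 : ∑ i, f i ≤ d := by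
        rcases shape f h0 h3 with h | ⟨i, _, h⟩ | ⟨i, j, hij, hi, hj, h⟩
        · rw [h]; linarith
        · rw [h]; linarith [hf i]
        · exact (h2 hD' i j hij hi hj).elim
      have s2 : ∑ i, g i ≤ d := by
        rcases shape g g0 g3 with h | ⟨i, _, h⟩ | ⟨i, j, hij, hi, hj, h⟩
        · rw [h]; linarith
        · rw [h]; linarith [hg i]
        · exact (g2 hE' i j hij hi hj).elim
      linarith

section

variable {k : Type} [Field k] [IsAlgClosed k] [CharZero k]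

theorem no3 (h2 : S_CTR) (h4 : S_NH3) (F : MvPolynomial (Fin 3) k) (d : ℕ)
    (v : MvPolynomial (Fin 3) k → ℤ) (hF : Curve F d) (hv : IsPlace F v)
    (m : ℕ) (p q : Fin m → k) (hpq : ∀ i j, i ≠ j → p i * q j - q i * p j ≠ 0)
    (hnd : ∀ i, ¬ F ∣ HL (p i) (q i)) :
    ∀ i j l, i ≠ j → i ≠ l → j ≠ l → 0 < v (HL (p i) (q i)) → 0 < v (HL (p j) (q j)) →
      0 < v (HL (p l) (q l)) → False := by
  intro i j l hij hil hjl hi hj hl
  obtain ⟨x, hx0, _, hx⟩ := h2 k F d v hF hv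
  refine hx0 (h4 k (p i) (q i) (p j) (q j) (p l) (q l) x (hpq i j hij) (hpq i l hil)
    (hpq j l hjl) ?_ ?_ ?_)
  · exact (hx 1 _ (HL_hom _ _) (hnd i)).1 hi
  · exact (hx 1 _ (HL_hom _ _) (hnd j)).1 hj
  · exact (hx 1 _ (HL_hom _ _) (hnd l)).1 hl

theorem no2 (h2 : S_CTR) (h3 : S_NH2) (F : MvPolynomial (Fin 3) k) (d : ℕ)
    (v : MvPolynomial (Fin 3) k → ℤ) (hF : Curve F d) (hv : IsPlace F v) (hD : ¬ F ∣ Dsc k)
    (m : ℕ) (p q : Fin m → k) (hpq : ∀ i j, i ≠ j → p i * q j - q i * p j ≠ 0)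
    (hnd : ∀ i, ¬ F ∣ HL (p i) (q i)) :
    0 < v (Dsc k) → ∀ i j, i ≠ j → 0 < v (HL (p i) (q i)) → 0 < v (HL (p j) (q j)) →
      False := by
  intro hDp i j hij hi hj
  obtain ⟨x, hx0, _, hx⟩ := h2 k F d v hF hv
  refine h3 k (p i) (q i) (p j) (q j) x (hpq i j hij) hx0 ?_ ?_ ?_
  · exact (hx 1 _ (HL_hom _ _) (hnd i)).1 hi
  · exact (hx 1 _ (HL_hom _ _) (hnd j)).1 hj
  · exact (hx 2 _ Dsc_hom hD).1 hDp

theorem bd1 (h6 : S_BZ1) (F : MvPolynomial (Fin 3) k) (d : ℕ)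
    (v : MvPolynomial (Fin 3) k → ℤ) (hF : Curve F d) (hv : IsPlace F v) (p q : k)
    (hnd : ¬ F ∣ HL p q) : v (HL p q) ≤ d := by
  have := h6 k F d v hF hv 1 _ (HL_hom p q) hnd
  simpa using this

theorem bd2 (h6 : S_BZ1) (F : MvPolynomial (Fin 3) k) (d : ℕ)
    (v : MvPolynomial (Fin 3) k → ℤ) (hF : Curve F d) (hv : IsPlace F v)
    (hnd : ¬ F ∣ Dsc k) : v (Dsc k) ≤ 2 * d := by
  have := h6 k F d v hF hv 2 _ Dsc_hom hnd
  exact_mod_cast this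

end

theorem t_CL1 (h2 : S_CTR) (h3 : S_NH2) (h4 : S_NH3) (h6 : S_BZ1) : S_CL1 := by
  intro k _ _ _ F d v hF hv hD m p q hpq hnd
  exact comb1 (fun i => v (HL (p i) (q i))) (v (Dsc k)) d (Int.natCast_nonneg d)
    (fun i => hv.1.nonneg 1 _ (HL_hom _ _) (hnd i))
    (no3 h2 h4 F d v hF hv m p q hpq hnd) (hv.1.nonneg 2 _ Dsc_hom hD)
    (bd2 h6 F d v hF hv hD) (fun i => bd1 h6 F d v hF hv _ _ (hnd i))
    (no2 h2 h3 F d v hF hv hD m p q hpq hnd)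

theorem t_CLA (h1 : S_HRD) (h2 : S_CTR) (h3 : S_NH2) (h4 : S_NH3) (h5 : S_BZ) (h6 : S_BZ1) :
    S_CLA := by
  intro k _ _ _ F d v v' hF hv hv' hdiff hD m p q hpq hnd
  have hdiff' : Diff F v' v := by
    obtain ⟨n, g, hg, hgd, hne⟩ := hdiff
    exact ⟨n, g, hg, hgd, hne.symm⟩
  refine comb2 (fun i => v (HL (p i) (q i))) (fun i => v' (HL (p i) (q i))) (v (Dsc k))
    (v' (Dsc k)) d (Int.natCast_nonneg d)
    (fun i => hv.1.nonneg 1 _ (HL_hom _ _) (hnd i))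
    (fun i => hv'.1.nonneg 1 _ (HL_hom _ _) (hnd i))
    (no3 h2 h4 F d v hF hv m p q hpq hnd) (no3 h2 h4 F d v' hF hv' m p q hpq hnd)
    (hv.1.nonneg 2 _ Dsc_hom hD) (hv'.1.nonneg 2 _ Dsc_hom hD) ?_
    (fun i => bd1 h6 F d v hF hv _ _ (hnd i)) (fun i => bd1 h6 F d v' hF hv' _ _ (hnd i)) ?_
    (no2 h2 h3 F d v hF hv hD m p q hpq hnd) (no2 h2 h3 F d v' hF hv' hD m p q hpq hnd) ?_ ?_
  · have := h5 k F d v v' hF hv hv' hdiff 2 _ Dsc_hom hD
    exact_mod_cast this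
  · intro i
    have := h5 k F d v v' hF hv hv' hdiff 1 _ (HL_hom (p i) (q i)) (hnd i)
    simpa using this
  · intro hDp i j l hij hil hjl hi hj hl
    exact h1 k F d v v' hF hv hv' hdiff hD (p i) (q i) (p j) (q j) (p l) (q l) (hpq i j hij)
      (hpq i l hil) (hpq j l hjl) (hnd i) (hnd j) (hnd l) hi hDp hl hj
  · intro hDp i j l hij hil hjl hi hj hl
    exact h1 k F d v' v hF hv' hv hdiff' hD (p i) (q i) (p j) (q j) (p l) (q l) (hpq i j hij)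
      (hpq i l hil) (hpq j l hjl) (hnd i) (hnd j) (hnd l) hi hDp hl hj

end Pool.Agent.NH95.QP.Cla
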