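import Pool.Agent.NH95.QP.Base

/-!
Project QP: the conic case, general.
-/

namespace Pool.Agent.NH95.QP.Cn1

open MvPolynomial

variable {k : Type} [Field k]

/-- Expansion of the quadratic form. -/
theorem exp_HL (r s a b x y : k) :
    HL (x * r + y * a) (x * s + y * b) =
      C (x ^ 2) * HL r s + C (x * y) * TL r s a b
        + C (y ^ 2) * HL a b := by
  have h2 : (C 2 : MvPolynomial (Fin 3) k) = 2 := map_ofNat C 2
  simp only [TL, HL, map_mul, map_add, map_pow, h2]
  ring

theorem t_CN1 (h : S_BZ) : S_CN1 := by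
  intro k _ _ _ F d v v' hF hv hv' hdiff hDsc p q r s a b h1 h2 h3 hp hr
    ha hv'p hv'a hv'r hvD hκ
  set D : k := r * b - s * a with hD
  set x : k := (p * b - q * a) / D with hx
  set y : k := (q * r - p * s) / D with hy
  have hx0 : x ≠ 0 := div_ne_zero h2 h3
  have hy0 : y ≠ 0 := by
    refine div_ne_zero ?_ h3
    intro h4
    apply h1
    linear_combination -h4
  have e1 : x * r + y * a = p := by
    rw [hx, hy]
    field_simp
    rw [hD]
    ring
  have e2 : x * s + y * b = q := by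
    rw [hx, hy]
    field_simp
    rw [hD]
    ring
  have e3 := exp_HL r s a b x y
  rw [e1, e2] at e3
  have e4 := TL_sq r s a b
  rw [← hD] at e4
  set Ha := HL p q with hHa
  set Hb := HL r s with hHb
  set Hc := HL a b with hHc
  set T := TL r s a b with hT
  set lam : k := (x * y)⁻¹ with hlam
  set mu : k := -(x / y) with hmu
  set nu : k := -(y / x) with hnu
  have hmu0 : mu ≠ 0 := neg_ne_zero.2 (div_ne_zero hx0 hy0)
  have hnu0 : nu ≠ 0 := neg_ne_zero.2 (div_ne_zero hy0 hx0)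
  have hlam0 : lam ≠ 0 := inv_ne_zero (mul_ne_zero hx0 hy0)
  have e5 : T = C lam * Ha + C mu * Hb + C nu * Hc := by
    rw [e3]
    have c1 : lam * (x * y) = 1 := inv_mul_cancel₀ (mul_ne_zero hx0 hy0)
    have c2 : lam * x ^ 2 + mu = 0 := by
      rw [hlam, hmu]
      field_simp
      ring
    have c3 : lam * y ^ 2 + nu = 0 := by
      rw [hlam, hnu]
      field_simp
      ring
    have d1 : (C lam * C (x * y) : MvPolynomial (Fin 3) k) = 1 := by
      rw [← C_mul, c1, C_1]
    have d2 : (C lam * C (x ^ 2) + C mu : MvPolynomial (Fin 3) k) = 0 := by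
      rw [← C_mul, ← C_add, c2, C_0]
    have d3 : (C lam * C (y ^ 2) + C nu : MvPolynomial (Fin 3) k) = 0 := by
      rw [← C_mul, ← C_add, c3, C_0]
    linear_combination (-T) * d1 - Hb * d2 - Hc * d3
  set kap : k := -(lam ^ 2 / D ^ 2) with hkap
  have hkap0 : kap ≠ 0 :=
    neg_ne_zero.2 (div_ne_zero (pow_ne_zero 2 hlam0) (pow_ne_zero 2 h3))
  set Q := Dsc k + C kap * Ha ^ 2 with hQ
  have hQF : ¬ F ∣ Q := hκ kap
  have e6 : C (D ^ 2) * Q = (C mu * Hb + C nu * Hc) * (T + C lam * Ha)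
      - (C 4 * Hb) * Hc := by
    have c1 : D ^ 2 * kap = -lam ^ 2 := by
      rw [hkap]
      have : D ^ 2 ≠ 0 := pow_ne_zero 2 h3
      field_simp
    have d1 : (C (D ^ 2) * C kap : MvPolynomial (Fin 3) k)
        = -(C lam) ^ 2 := by
      rw [← C_mul, c1, C_neg, C_pow]
    rw [hQ]
    have e7 : C mu * Hb + C nu * Hc = T - C lam * Ha := by
      rw [e5]
      ring
    rw [e7]
    linear_combination Ha ^ 2 * d1 - e4
  have homa : Ha.IsHomogeneous 1 := HL_hom p q
  have homb : Hb.IsHomogeneous 1 := HL_hom r s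
  have homc : Hc.IsHomogeneous 1 := HL_hom a b
  have homT : T.IsHomogeneous 1 := TL_hom r s a b
  have homQ : Q.IsHomogeneous 2 := by
    refine Dsc_hom.add (C_mul_hom ?_ kap)
    simpa using homa.pow 2
  have hD2 : D ^ 2 ≠ 0 := pow_ne_zero 2 h3
  have b1 : v' Hc ≤ v' Q := by
    have g1 := hv'.1.C_mul hF homb hr hmu0
    have g2 := hv'.1.C_mul hF homc ha hnu0
    have g3 := hv'.1.add_ge (C_mul_hom homb mu) (C_mul_hom homc nu)
      (c := v' Hc) (Or.inr (by rw [g1]; exact hv'r))
      (Or.inr (by rw [g2]))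
    have homs : (T + C lam * Ha).IsHomogeneous 1 :=
      homT.add (C_mul_hom homa lam)
    have g4 : F ∣ T + C lam * Ha ∨ 0 ≤ v' (T + C lam * Ha) := by
      by_cases h4 : F ∣ T + C lam * Ha
      · exact Or.inl h4
      · exact Or.inr (hv'.1.nonneg 1 _ homs h4)
    have homl : (C mu * Hb + C nu * Hc).IsHomogeneous 1 :=
      (C_mul_hom homb mu).add (C_mul_hom homc nu)
    have g5 := hv'.1.mul_ge homl homs g3 g4
    have h4b : (4 : k) ≠ 0 := by norm_num
    have g6 : F ∣ C 4 * Hb ∨ 0 ≤ v' (C 4 * Hb) := by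
      by_cases h4 : F ∣ C 4 * Hb
      · exact Or.inl h4
      · exact Or.inr (hv'.1.nonneg 1 _ (C_mul_hom homb 4) h4)
    have g7 := hv'.1.mul_ge (C_mul_hom homb 4) homc g6
      (c' := v' Hc) (Or.inr le_rfl)
    have g8 := hv'.1.sub_ge hF (c := v' Hc) (homl.mul homs)
      ((C_mul_hom homb 4).mul homc) (by simpa using g5)
      (by simpa using g7)
    rw [← e6] at g8
    have g9 := hv'.1.C_mul hF homQ hQF hD2
    rcases g8 with g8 | g8
    · exact absurd g8 (not_dvd_mul hF (not_dvd_C hF hD2) hQF)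
    · rwa [g9] at g8
  have b2 : v (Dsc k) ≤ v Q := by
    have homa2 : (Ha ^ 2).IsHomogeneous 2 := by simpa using homa.pow 2
    have g1 := hv.1.C_mul hF homa2 (not_dvd_pow hF hp 2) hkap0
    have g2 := hv.1.pow hF homa hp 2
    have g3 := hv.1.add_ge Dsc_hom (C_mul_hom homa2 kap)
      (c := v (Dsc k)) (Or.inr le_rfl) (Or.inr (by
        rw [g1, g2]
        simpa using hvD))
    exact g3.resolve_left hQF
  have b3 := h k F d v v' hF hv hv' hdiff 2 Q homQ hQF
  push_cast at b3
  linarith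

end Pool.Agent.NH95.QP.Cn1
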