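import Pool.Agent.NH95.QP.Base

/-!
Project QP, part CN2: the special conic.
-/

namespace Pool.Agent.NH95.QP.Cn2

open MvPolynomial
open Pool.Agent.NH95.QP

variable {k : Type} [Field k]

/-- the conic is not zero -/
theorem Q_ne (p q κ : k) (hκ : κ ≠ 0) : Dsc k + C κ * HL p q ^ 2 ≠ 0 := by
  intro h
  have h1 := congrArg (eval (![1, 0, 0] : Fin 3 → k)) h
  have h2 := congrArg (eval (![0, 1, 0] : Fin 3 → k)) h
  simp only [Dsc, HL, map_add, map_sub, map_mul, map_pow, eval_X, eval_C, map_zero,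
    Matrix.cons_val_zero, Matrix.cons_val_one, Matrix.cons_val] at h1 h2
  have h3 : κ * p ^ 4 = 0 := by
    have : κ * p ^ 4 = 0 ^ 2 - 4 * 1 * 0 + κ * (p ^ 2 * 1 + p * q * 0 + q ^ 2 * 0) ^ 2 := by ring
    rw [this]
    exact h1
  have hp : p = 0 := by
    rcases mul_eq_zero.1 h3 with h4 | h4
    · exact absurd h4 hκ
    · exact pow_eq_zero_iff (by norm_num) |>.1 h4
  rw [hp] at h2
  have h5 : (1 : k) = 1 ^ 2 - 4 * 0 * 0 + κ * (0 ^ 2 * 0 + 0 * q * 1 + q ^ 2 * 0) ^ 2 := by ring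
  rw [h2] at h5
  exact one_ne_zero h5

/-- the product of the two linear forms -/
theorem prod_eq (p q r s κ t : k) (ht : t ^ 2 = -(κ * (p * s - q * r) ^ 2)) :
    (TL p q r s + C t * HL p q) * (TL p q r s - C t * HL p q) =
      C 4 * HL p q * HL r s + C ((p * s - q * r) ^ 2) * (Dsc k + C κ * HL p q ^ 2) := by
  have h1 : (C t : MvPolynomial (Fin 3) k) ^ 2 = -(C κ * C ((p * s - q * r) ^ 2)) := by
    rw [← map_pow, ht, map_neg, map_mul]
  calc (TL p q r s + C t * HL p q) * (TL p q r s - C t * HL p q)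
      = TL p q r s ^ 2 - C t ^ 2 * HL p q ^ 2 := by ring
    _ = _ := by rw [TL_sq, h1]; ring

theorem side [IsAlgClosed k] [CharZero k] (hBZ : S_BZ) (F : MvPolynomial (Fin 3) k) (d : ℕ)
    (v v' : MvPolynomial (Fin 3) k → ℤ) (hF : Curve F d) (hv : IsPlace F v)
    (hv' : IsPlace F v') (hD : Diff F v v') (hDs : ¬ F ∣ Dsc k) (p q r s κ : k)
    (hD1 : p * s - q * r ≠ 0) (ha : ¬ F ∣ HL p q) (hb : ¬ F ∣ HL r s)
    (hva : 0 < v (HL p q)) (hv'a : v' (HL p q) = 0) (hκ0 : κ ≠ 0)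
    (hvD : v (Dsc k) = 2 * v (HL p q))
    (hκ : F ∣ Dsc k + C κ * HL p q ^ 2) : v' (HL r s) ≤ (d : ℤ) - 1 := by
  obtain ⟨t, ht⟩ := IsAlgClosed.exists_pow_nat_eq (-(κ * (p * s - q * r) ^ 2))
    (n := 2) (by norm_num)
  have h4 : (4 : k) ≠ 0 := by norm_num
  have h2 : (2 : k) ≠ 0 := by norm_num
  have hD2 : (p * s - q * r) ^ 2 ≠ 0 := pow_ne_zero 2 hD1
  have ht0 : t ≠ 0 := by
    rintro rfl
    have : κ * (p * s - q * r) ^ 2 = 0 := by
      have h5 : (0 : k) ^ 2 = 0 := by norm_num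
      rw [h5] at ht
      exact neg_eq_zero.1 ht.symm
    rcases mul_eq_zero.1 this with h | h
    · exact hκ0 h
    · exact hD2 h
  have hT := TL_hom p q r s
  have hA := HL_hom p q
  have hB := HL_hom r s
  have hCA : (C t * HL p q).IsHomogeneous 1 := C_mul_hom hA t
  have hprod := prod_eq p q r s κ t ht
  have h4A : ¬ F ∣ C 4 * HL p q := not_dvd_mul hF (not_dvd_C hF h4) ha
  have h4AB : ¬ F ∣ C 4 * HL p q * HL r s := not_dvd_mul hF h4A hb
  have hAB2 : (C 4 * HL p q * HL r s).IsHomogeneous 2 := (C_mul_hom hA 4).mul hB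
  have hM12 : ¬ F ∣ (TL p q r s + C t * HL p q) * (TL p q r s - C t * HL p q) := by
    rw [hprod]
    intro h
    exact h4AB ((dvd_add_left (hκ.mul_left _)).1 h)
  have hM1 : ¬ F ∣ TL p q r s + C t * HL p q := fun h => hM12 (h.mul_right _)
  have hM2 : ¬ F ∣ TL p q r s - C t * HL p q := fun h => hM12 (h.mul_left _)
  have hM1h : (TL p q r s + C t * HL p q).IsHomogeneous 1 := hT.add hCA
  have hM2h : (TL p q r s - C t * HL p q).IsHomogeneous 1 := hT.sub hCA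
  -- the values of `v'`
  have e1 : v' (TL p q r s + C t * HL p q) + v' (TL p q r s - C t * HL p q) = v' (HL r s) := by
    rw [← hv'.1.mul 1 1 _ _ hM1h hM2h hM1 hM2]
    have e2 := hv'.1.congr 2 ((TL p q r s + C t * HL p q) * (TL p q r s - C t * HL p q))
      (C 4 * HL p q * HL r s) (hM1h.mul hM2h) hAB2 hM12 (by
        rw [hprod, add_sub_cancel_left]
        exact hκ.mul_left _)
    rw [e2, hv'.1.mul 1 1 _ _ (C_mul_hom hA 4) hB h4A hb, hv'.1.C_mul hF hA ha h4, hv'a, zero_add]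
  have n1 := hv'.1.nonneg 1 _ hM1h hM1
  have n2 := hv'.1.nonneg 1 _ hM2h hM2
  have hsub : (TL p q r s + C t * HL p q) - (TL p q r s - C t * HL p q) =
      C (2 * t) * HL p q := by
    have : (C (2 * t) : MvPolynomial (Fin 3) k) = 2 * C t := by
      rw [map_mul, map_ofNat]
    rw [this]; ring
  have hone : v' (TL p q r s + C t * HL p q) = 0 ∨ v' (TL p q r s - C t * HL p q) = 0 := by
    by_contra hcon
    push Not at hcon
    have g1 : (1 : ℤ) ≤ v' (TL p q r s + C t * HL p q) := by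
      have := hcon.1; omega
    have g2 : (1 : ℤ) ≤ v' (TL p q r s - C t * HL p q) := by
      have := hcon.2; omega
    have g3 := hv'.1.sub_ge hF hM1h hM2h (c := 1) (Or.inr g1) (Or.inr g2)
    rw [hsub] at g3
    have h2t : 2 * t ≠ 0 := mul_ne_zero h2 ht0
    rcases g3 with g3 | g3
    · exact not_dvd_mul hF (not_dvd_C hF h2t) ha g3
    · rw [hv'.1.C_mul hF hA ha h2t, hv'a] at g3
      omega
  -- the values of `v`
  have hvb := hv.1.nonneg 1 _ hB hb
  have hT1 : F ∣ TL p q r s ∨ (1 : ℤ) ≤ v (TL p q r s) := by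
    by_cases hFT : F ∣ TL p q r s
    · exact Or.inl hFT
    right
    have g1 : F ∣ C 4 * HL p q * HL r s + C ((p * s - q * r) ^ 2) * Dsc k ∨
        (1 : ℤ) ≤ v (C 4 * HL p q * HL r s + C ((p * s - q * r) ^ 2) * Dsc k) := by
      refine hv.1.add_ge hAB2 (C_mul_hom Dsc_hom _) (Or.inr ?_) (Or.inr ?_)
      · rw [hv.1.mul 1 1 _ _ (C_mul_hom hA 4) hB h4A hb, hv.1.C_mul hF hA ha h4]
        omega
      · rw [hv.1.C_mul hF Dsc_hom hDs hD2, hvD]
        omega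
    rw [← TL_sq] at g1
    rcases g1 with g1 | g1
    · exact absurd g1 (not_dvd_pow hF hFT 2)
    · rw [hv.1.pow hF hT hFT 2] at g1
      rw [two_nsmul] at g1
      omega
  have hCA1 : F ∣ C t * HL p q ∨ (1 : ℤ) ≤ v (C t * HL p q) := by
    right
    rw [hv.1.C_mul hF hA ha ht0]
    omega
  have w1 : (1 : ℤ) ≤ v (TL p q r s + C t * HL p q) :=
    (hv.1.add_ge hT hCA hT1 hCA1).resolve_left hM1
  have w2 : (1 : ℤ) ≤ v (TL p q r s - C t * HL p q) :=
    (hv.1.sub_ge hF hT hCA hT1 hCA1).resolve_left hM2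
  have b1 := hBZ k F d v v' hF hv hv' hD 1 _ hM1h hM1
  have b2 := hBZ k F d v v' hF hv hv' hD 1 _ hM2h hM2
  push_cast at b1 b2
  rcases hone with h | h
  · rw [h] at e1
    linarith
  · rw [h] at e1
    linarith

theorem t_CN2 (h : S_BZ) : S_CN2 := by
  intro k _ _ _ F d v v' hF hv hv' hD hDs p q r s a b h1 h2 _ ha hb hc hva hv'a _ _ hκ
  obtain ⟨κ, hκ⟩ := hκ
  have hκ0 : κ ≠ 0 := by
    rintro rfl
    apply hDs
    rwa [map_zero, zero_mul, add_zero] at hκ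
  have hA := HL_hom p q
  have hA2 : (HL p q ^ 2).IsHomogeneous 2 := by simpa using hA.pow 2
  have hQ : (Dsc k + C κ * HL p q ^ 2).IsHomogeneous 2 := Dsc_hom.add (C_mul_hom hA2 κ)
  have hd : d ≤ 2 := deg_le_of_dvd hF hQ (Q_ne p q κ hκ0) hκ
  have hA2d : ¬ F ∣ HL p q ^ 2 := not_dvd_pow hF ha 2
  have hvD : v (Dsc k) = 2 * v (HL p q) := by
    have e1 := hv.1.congr 2 (Dsc k) (-(C κ * HL p q ^ 2)) Dsc_hom (C_mul_hom hA2 κ).neg hDs (by
      rwa [sub_neg_eq_add])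
    rw [e1, hv.1.neg hF (C_mul_hom hA2 κ) (not_dvd_mul hF (not_dvd_C hF hκ0) hA2d),
      hv.1.C_mul hF hA2 hA2d hκ0, hv.1.pow hF hA ha 2, two_nsmul]
    ring
  have h3 := side h F d v v' hF hv hv' hD hDs p q r s κ h1 ha hb hva hv'a hκ0 hvD hκ
  have h4 := side h F d v v' hF hv hv' hD hDs p q a b κ h2 ha hc hva hv'a hκ0 hvD hκ
  have h5 := h k F d v v' hF hv hv' hD 1 _ hA ha
  rw [hv'a] at h5
  push_cast at h5
  have h6 : (d : ℤ) ≤ 2 := by exact_mod_cast hd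
  linarith

end Pool.Agent.NH95.QP.Cn2
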