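import Pool.Agent.NH95.QP.Base

/-!
QP-CNJ: the conjugate of a place which is not Galois stable.
-/

set_option autoImplicit false

namespace Pool.Agent.NH95.QP.Cnj

open MvPolynomial Pool.Agent.NH95.QP

/-- the action of an automorphism on forms -/
noncomputable def act (σ : QQ ≃ₐ[ℚ] QQ) : MvPolynomial (Fin 3) QQ →+* MvPolynomial (Fin 3) QQ :=
  MvPolynomial.map (σ : QQ →+* QQ)

theorem act_symm (σ : QQ ≃ₐ[ℚ] QQ) (g : MvPolynomial (Fin 3) QQ) :
    act σ (act σ.symm g) = g := by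
  unfold act
  rw [MvPolynomial.map_map]
  have : ((σ : QQ →+* QQ).comp (σ.symm : QQ →+* QQ)) = RingHom.id QQ := by
    ext x
    simp
  rw [this, MvPolynomial.map_id]

theorem symm_act (σ : QQ ≃ₐ[ℚ] QQ) (g : MvPolynomial (Fin 3) QQ) :
    act σ.symm (act σ g) = g := by
  have := act_symm σ.symm g
  rwa [AlgEquiv.symm_symm] at this

theorem act_rat (σ : QQ ≃ₐ[ℚ] QQ) (g : MvPolynomial (Fin 3) ℚ) : act σ (rat g) = rat g := by
  unfold act rat
  rw [MvPolynomial.map_map]
  have : ((σ : QQ →+* QQ).comp (algebraMap ℚ QQ)) = algebraMap ℚ QQ := by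
    ext x
    simp
  rw [this]

theorem dvd_iff (σ : QQ ≃ₐ[ℚ] QQ) (F0 : MvPolynomial (Fin 3) ℚ) (g : MvPolynomial (Fin 3) QQ) :
    rat F0 ∣ act σ g ↔ rat F0 ∣ g := by
  constructor
  · intro h
    have h1 := map_dvd (act σ.symm) h
    rwa [act_rat, symm_act] at h1
  · intro h
    have h1 := map_dvd (act σ) h
    rwa [act_rat] at h1

theorem act_hom (σ : QQ ≃ₐ[ℚ] QQ) {n : ℕ} {g : MvPolynomial (Fin 3) QQ} (h : g.IsHomogeneous n) :
    (act σ g).IsHomogeneous n := h.map _

theorem t_CNJ : S_CNJ := by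
  intro F0 d v hF hv hs
  unfold Stab at hs
  push Not at hs
  obtain ⟨σ, n, g, hg, hFg, hne⟩ := hs
  obtain ⟨hW, m, a, b, ha, hb, hFa, hFb, hab⟩ := hv
  have hnd : ∀ {x : MvPolynomial (Fin 3) QQ}, ¬ rat F0 ∣ x → ¬ rat F0 ∣ act σ x :=
    fun h => fun h' => h ((dvd_iff σ F0 _).1 h')
  refine ⟨fun x => v (act σ x), ⟨?_, ?_⟩, ⟨n, g, hg, hFg, fun h => hne h.symm⟩, fun x => ?_⟩
  · refine ⟨?_, ?_, ?_, ?_, ?_, ?_⟩
    · intro n x hx hFx
      exact hW.nonneg n _ (act_hom σ hx) (hnd hFx)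
    · intro n m x y hx hy hFx hFy
      simp only [map_mul]
      exact hW.mul n m _ _ (act_hom σ hx) (act_hom σ hy) (hnd hFx) (hnd hFy)
    · intro n x y hx hy hFx hFy hFxy
      have h1 := hnd hFxy
      simp only [map_add] at h1 ⊢
      exact hW.add n _ _ (act_hom σ hx) (act_hom σ hy) (hnd hFx) (hnd hFy) h1
    · intro c hc
      have : act σ (C c) = C (σ c) := by
        unfold act
        rw [MvPolynomial.map_C]
        rfl
      simp only [this]
      exact hW.const _ (by simpa using hc)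
    · obtain ⟨i, h1, h2⟩ := hW.coord
      refine ⟨i, h1, ?_⟩
      have : act σ (X i) = X i := by
        unfold act
        rw [MvPolynomial.map_X]
      simp only [this]
      exact h2
    · intro n x y hx hy hFx hFxy
      have h1 : rat F0 ∣ act σ x - act σ y := by
        rw [← map_sub]
        exact (dvd_iff σ F0 _).2 hFxy
      exact hW.congr n _ _ (act_hom σ hx) (act_hom σ hy) (hnd hFx) h1
  · have hnd' : ∀ {x : MvPolynomial (Fin 3) QQ}, ¬ rat F0 ∣ x → ¬ rat F0 ∣ act σ.symm x :=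
      fun h => fun h' => h ((dvd_iff σ.symm F0 _).1 h')
    refine ⟨m, act σ.symm a, act σ.symm b, act_hom _ ha, act_hom _ hb, hnd' hFa, hnd' hFb, ?_⟩
    simp only [act_symm]
    exact hab
  · simp only [act_rat]

end Pool.Agent.NH95.QP.Cnj
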