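import Pool.Agent.NH95.QP.Base

/-!
# QP-CTR: the centre of a place
-/

set_option autoImplicit false

namespace Pool.Agent.NH95.QP.Ctr

open MvPolynomial

variable {k : Type} [Field k] {F : MvPolynomial (Fin 3) k} {d : ℕ}
  {v : MvPolynomial (Fin 3) k → ℤ}

theorem hX (j : Fin 3) : (X j : MvPolynomial (Fin 3) k).IsHomogeneous 1 := isHomogeneous_X k j

theorem hXp (j : Fin 3) (n : ℕ) : (X j ^ n : MvPolynomial (Fin 3) k).IsHomogeneous n := by
  simpa using (isHomogeneous_X k j).pow n

theorem ge_zero (hw : IsW F v) {n : ℕ} {g : MvPolynomial (Fin 3) k} (hg : g.IsHomogeneous n) :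
    F ∣ g ∨ (0 : ℤ) ≤ v g := by
  by_cases h : F ∣ g
  · exact Or.inl h
  · exact Or.inr (hw.nonneg n g hg h)

theorem mono (hw : IsW F v) (i0 : Fin 3) (x : Fin 3 → k)
    (hx : ∀ j, F ∣ X j - C (x j) * X i0 ∨ (1 : ℤ) ≤ v (X j - C (x j) * X i0)) :
    ∀ (n : ℕ) (s : Fin 3 →₀ ℕ) (c : k), s.degree = n →
      F ∣ monomial s c - C (eval x (monomial s c)) * X i0 ^ n ∨
        (1 : ℤ) ≤ v (monomial s c - C (eval x (monomial s c)) * X i0 ^ n) := by
  intro n
  induction n with
  | zero =>
    intro s c hs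
    have h0 : s = 0 := by
      rwa [Finsupp.degree_eq_zero_iff] at hs
    subst h0
    left
    simp
  | succ n ih =>
    intro s c hs
    have hne : s ≠ 0 := by
      rintro rfl
      simp at hs
    obtain ⟨j, hj⟩ := Finsupp.ne_iff.1 hne
    have hj' : s j ≠ 0 := hj
    have hst : s - Finsupp.single j 1 + Finsupp.single j 1 = s := by
      apply tsub_add_cancel_of_le
      rw [Finsupp.single_le_iff]
      omega
    set t := s - Finsupp.single j 1 with ht
    have htd : t.degree = n := by
      have h1 : (t + Finsupp.single j 1).degree = n + 1 := by rw [hst, hs]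
      rw [map_add, Finsupp.degree_single] at h1
      omega
    have hm : monomial s c = monomial t c * X j := by
      rw [← hst, monomial_add_single, pow_one]
    have hmt : (monomial t c : MvPolynomial (Fin 3) k).IsHomogeneous n :=
      isHomogeneous_monomial c htd
    have he : eval x (monomial s c) = eval x (monomial t c) * x j := by
      rw [hm, map_mul, eval_X]
    have hid : monomial s c - C (eval x (monomial s c)) * X i0 ^ (n + 1) =
        (X j - C (x j) * X i0) * monomial t c +
          (C (x j) * X i0) * (monomial t c - C (eval x (monomial t c)) * X i0 ^ n) := by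
      rw [he, hm, map_mul]
      ring
    rw [hid]
    have hA : (X j - C (x j) * X i0 : MvPolynomial (Fin 3) k).IsHomogeneous 1 :=
      (hX j).sub (C_mul_hom (hX i0) _)
    have hB : (C (x j) * X i0 : MvPolynomial (Fin 3) k).IsHomogeneous 1 := C_mul_hom (hX i0) _
    have hD : (monomial t c - C (eval x (monomial t c)) * X i0 ^ n :
        MvPolynomial (Fin 3) k).IsHomogeneous n := hmt.sub (C_mul_hom (hXp i0 n) _)
    have h1 := hw.mul_ge hA hmt (hx j) (ge_zero hw hmt)
    have h2 := hw.mul_ge hB hD (ge_zero hw hB) (ih t c htd)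
    rw [add_zero] at h1
    rw [zero_add] at h2
    exact hw.add_ge (hA.mul hmt) (hB.mul hD) h1 h2

theorem small (hw : IsW F v) (i0 : Fin 3) (x : Fin 3 → k)
    (hx : ∀ j, F ∣ X j - C (x j) * X i0 ∨ (1 : ℤ) ≤ v (X j - C (x j) * X i0))
    (n : ℕ) (g : MvPolynomial (Fin 3) k) (hg : g.IsHomogeneous n) :
    F ∣ g - C (eval x g) * X i0 ^ n ∨ (1 : ℤ) ≤ v (g - C (eval x g) * X i0 ^ n) := by
  have hsum : g - C (eval x g) * X i0 ^ n =
      ∑ s ∈ g.support, (monomial s (coeff s g) -
        C (eval x (monomial s (coeff s g))) * X i0 ^ n) := by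
    rw [Finset.sum_sub_distrib, ← Finset.sum_mul, ← map_sum, ← map_sum]
    rw [← g.as_sum]
  rw [hsum]
  have hdeg : ∀ s ∈ g.support, s.degree = n := by
    intro s hs
    have := hg (mem_support_iff.1 hs)
    rwa [Finsupp.degree_eq_weight_one]
  refine hw.sum_ge _ _ (n := n) (fun s hs => ?_) (fun s hs => ?_)
  · exact (isHomogeneous_monomial _ (hdeg s hs)).sub (C_mul_hom (hXp i0 n) _)
  · exact mono hw i0 x hx n s _ (hdeg s hs)

theorem t_CTR (h : S_RES) : S_CTR := by
  intro k _ _ _ F d v hF hv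
  have hw : IsW F v := hv.1
  obtain ⟨i0, hi0, hvi0⟩ := hw.coord
  have hex : ∀ j : Fin 3, ∃ a : k, (j = i0 → a = 1) ∧
      (F ∣ X j - C a * X i0 ∨ (1 : ℤ) ≤ v (X j - C a * X i0)) := by
    intro j
    by_cases hj : j = i0
    · subst hj
      exact ⟨1, fun _ => rfl, Or.inl (by simp)⟩
    · by_cases h1 : F ∣ X j
      · exact ⟨0, fun h' => absurd h' hj, Or.inl (by simpa using h1)⟩
      · by_cases h2 : 1 ≤ v (X j)
        · exact ⟨0, fun h' => absurd h' hj, Or.inr (by simpa using h2)⟩
        · have h3 := hw.nonneg 1 (X j) (hX j) h1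
          have h4 : v (X j) = v (X i0) := by omega
          obtain ⟨c, -, hc⟩ := h k F d v hF hv 1 (X j) (X i0) (hX j) (hX i0) h1 hi0 h4
          refine ⟨c, fun h' => absurd h' hj, ?_⟩
          rcases hc with hc | hc
          · exact Or.inl hc
          · right
            omega
  choose x hx1 hx2 using hex
  have hX0 : ∀ n : ℕ, ¬ F ∣ (X i0 ^ n : MvPolynomial (Fin 3) k) := fun n =>
    not_dvd_pow hF hi0 n
  have hvX : ∀ n : ℕ, v (X i0 ^ n) = 0 := by
    intro n
    rw [hw.pow hF (hX i0) hi0 n, hvi0, smul_zero]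
  have hC : ∀ (n : ℕ) (c : k), c ≠ 0 → ¬ F ∣ (C c * X i0 ^ n : MvPolynomial (Fin 3) k) ∧
      v (C c * X i0 ^ n) = 0 := by
    intro n c hc
    exact ⟨not_dvd_mul hF (not_dvd_C hF hc) (hX0 n), by
      rw [hw.C_mul hF (hXp i0 n) (hX0 n) hc, hvX n]⟩
  have hmain : ∀ (n : ℕ) (g : MvPolynomial (Fin 3) k), g.IsHomogeneous n → eval x g ≠ 0 →
      ¬ F ∣ g ∧ v g = 0 := by
    intro n g hg hc
    obtain ⟨h1, h2⟩ := hC n _ hc
    have hD := small hw i0 x hx2 n g hg
    have h3 := hw.add_eq hF (C_mul_hom (hXp i0 n) (eval x g))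
      (hg.sub (C_mul_hom (hXp i0 n) (eval x g))) h1 (by
        rcases hD with hD | hD
        · exact Or.inl hD
        · right
          omega)
    have h4 : C (eval x g) * X i0 ^ n + (g - C (eval x g) * X i0 ^ n) = g := by ring
    rw [h4] at h3
    exact ⟨h3.1, by rw [h3.2, h2]⟩
  refine ⟨x, ?_, ?_, ?_⟩
  · intro h0
    have := hx1 i0 rfl
    rw [h0] at this
    simp at this
  · by_contra hne
    exact (hmain d F hF.1 hne).1 dvd_rfl
  · intro n g hg hFg
    constructor
    · intro hpos
      by_contra hne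
      have := (hmain n g hg hne).2
      omega
    · intro h0
      have hD := small hw i0 x hx2 n g hg
      rw [h0] at hD
      simp only [map_zero, zero_mul, sub_zero] at hD
      have := hD.resolve_left hFg
      omega

end Pool.Agent.NH95.QP.Ctr
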