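import Pool.Agent.NH95.QP.Base

/-! QP-DIM: the dimension of the space of forms of degree `N` modulo `F`, with a monomial basis:
the monomials of degree `N` which are not divisible by the leading monomial of `F`. -/

set_option autoImplicit false

namespace Pool.Agent.NH95.QP.Dim

open MvPolynomial

variable {k : Type} [Field k]

/-- exponents of degree `N` -/
noncomputable def E (N : ℕ) : Finset (Fin 3 →₀ ℕ) := Finset.univ.finsuppAntidiag N

lemma mem_E {N : ℕ} {s : Fin 3 →₀ ℕ} : s ∈ E N ↔ s 0 + s 1 + s 2 = N := by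
  simp [E, Finset.mem_finsuppAntidiag, Fin.sum_univ_three]

lemma card_E (N : ℕ) : (E N).card = (N + 2).choose 2 := by
  rw [E, Finset.card_finsuppAntidiag_nat_eq_choose, Finset.card_univ, Fintype.card_fin]
  have h : 3 + N - 1 = N + 2 := by omega
  rw [h]
  exact Nat.choose_symm_of_eq_add rfl

lemma card_ge {e : Fin 3 →₀ ℕ} {d N : ℕ} (he : e ∈ E d) (h : d ≤ N) :
    ((E N).filter (fun s => e ≤ s)).card = (E (N - d)).card := by
  have he' := mem_E.1 he
  refine Finset.card_bij' (fun s _ => s - e) (fun s _ => s + e) ?_ ?_ ?_ ?_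
  · intro s hs
    rw [Finset.mem_filter, mem_E] at hs
    rw [mem_E]
    have h0 := hs.2 0
    have h1 := hs.2 1
    have h2 := hs.2 2
    have h3 := hs.1
    show s 0 - e 0 + (s 1 - e 1) + (s 2 - e 2) = N - d
    omega
  · intro s hs
    rw [mem_E] at hs
    rw [Finset.mem_filter, mem_E]
    refine ⟨?_, le_add_self⟩
    show s 0 + e 0 + (s 1 + e 1) + (s 2 + e 2) = N
    omega
  · intro s hs
    rw [Finset.mem_filter] at hs
    exact tsub_add_cancel_of_le hs.2
  · intro s hs
    exact add_tsub_cancel_right s e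

lemma card_not_ge {e : Fin 3 →₀ ℕ} {d N : ℕ} (he : e ∈ E d) (h : d ≤ N) :
    ((E N).filter (fun s => ¬ e ≤ s)).card = rdim d N := by
  have h1 := Finset.card_filter_add_card_filter_not (s := E N) (fun s => e ≤ s)
  rw [card_ge he h, card_E, card_E] at h1
  have h2 : N - d + 2 = N + 2 - d := by omega
  rw [h2] at h1
  rw [rdim]
  omega

lemma deg_of_hom {g : MvPolynomial (Fin 3) k} {n : ℕ} (hg : g.IsHomogeneous n)
    {s : Fin 3 →₀ ℕ} (hs : coeff s g ≠ 0) : s ∈ E n := by
  rw [mem_E]
  have h := hg hs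
  simpa [Finsupp.weight_apply, Finsupp.sum_fintype, Fin.sum_univ_three] using h

/-- the homogeneous components of a multiple of `F` are multiples of `F` -/
lemma dvd_comp {F : MvPolynomial (Fin 3) k} {d : ℕ} (hF : F.IsHomogeneous d)
    (g : MvPolynomial (Fin 3) k) (N : ℕ) : F ∣ homogeneousComponent N (g * F) := by
  have h : g * F = ∑ i ∈ Finset.range (g.totalDegree + 1), homogeneousComponent i g * F := by
    rw [← Finset.sum_mul, sum_homogeneousComponent]
  rw [h, map_sum]
  refine Finset.dvd_sum fun i _ => ?_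
  have hi : (homogeneousComponent i g * F) ∈ homogeneousSubmodule (Fin 3) k (i + d) :=
    (homogeneousComponent_isHomogeneous i g).mul hF
  rw [homogeneousComponent_of_mem hi]
  split_ifs
  · exact dvd_mul_left F _
  · exact dvd_zero F

lemma coeff_comb {n : ℕ} (s : Fin n → (Fin 3 →₀ ℕ)) (hs : Function.Injective s) (c : Fin n → k)
    (i : Fin n) : coeff (s i) (∑ j, C (c j) * monomial (s j) (1 : k)) = c i := by
  classical
  rw [coeff_sum, Finset.sum_eq_single i]
  · simp
  · intro j _ hj
    rw [coeff_C_mul, coeff_monomial, if_neg (fun h => hj (hs h)), mul_zero]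
  · intro h
    exact absurd (Finset.mem_univ i) h

lemma coeff_comb' {n : ℕ} (s : Fin n → (Fin 3 →₀ ℕ)) (c : Fin n → k) (t : Fin 3 →₀ ℕ)
    (ht : ∀ j, s j ≠ t) : coeff t (∑ j, C (c j) * monomial (s j) (1 : k)) = 0 := by
  classical
  rw [coeff_sum]
  refine Finset.sum_eq_zero fun j _ => ?_
  rw [coeff_C_mul, coeff_monomial, if_neg (ht j), mul_zero]

end Pool.Agent.NH95.QP.Dim

namespace Pool.Agent.NH95.QP

open MvPolynomial Dim

theorem t_DIM : S_DIM := by
  classical
  intro k _ F d N hC hN
  have hF0 : F ≠ 0 := hC.2.1.ne_zero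
  let m : MonomialOrder (Fin 3) := MonomialOrder.lex
  have he : m.degree F ∈ E d :=
    deg_of_hom hC.1 (m.coeff_degree_ne_zero_iff.2 hF0)
  let S : Finset (Fin 3 →₀ ℕ) := (E N).filter (fun s => ¬ m.degree F ≤ s)
  have hS : S.card = rdim d N := card_not_ge he hN
  let q : S ≃ Fin (rdim d N) := Finset.equivFinOfCardEq hS
  let s : Fin (rdim d N) → (Fin 3 →₀ ℕ) := fun j => (q.symm j).1
  have hsm (j) : s j ∈ S := (q.symm j).2
  have hsi : Function.Injective s := fun i j h => q.symm.injective (Subtype.ext h)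
  have hsu (t : Fin 3 →₀ ℕ) (ht : t ∈ S) : ∃ j, s j = t :=
    ⟨q ⟨t, ht⟩, by simp [s]⟩
  refine ⟨s, fun j => mem_E.1 (Finset.mem_filter.1 (hsm j)).1, ?_, ?_⟩
  · intro c hc
    by_contra hne
    obtain ⟨i, hi⟩ := Function.ne_iff.1 hne
    obtain ⟨g, hg⟩ := hc
    have h1 : ∑ j, C (c j) * monomial (s j) (1 : k) ≠ 0 := fun h0 => hi (by
      rw [← coeff_comb s hsi c i, h0, coeff_zero]
      rfl)
    have hg0 : g ≠ 0 := fun h0 => h1 (by rw [hg, h0, mul_zero])
    have h2 : m.degree (F * g) = m.degree F + m.degree g :=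
      m.degree_mul_of_mul_leadingCoeff_ne_zero
        (mul_ne_zero (m.leadingCoeff_ne_zero_iff.2 hF0) (m.leadingCoeff_ne_zero_iff.2 hg0))
    have h3 : coeff (m.degree (F * g)) (∑ j, C (c j) * monomial (s j) (1 : k)) ≠ 0 := by
      rw [hg]
      exact m.coeff_degree_ne_zero_iff.2 (mul_ne_zero hF0 hg0)
    have h4 : ∃ j, s j = m.degree (F * g) := by
      by_contra h5
      push Not at h5
      exact h3 (coeff_comb' s c _ h5)
    obtain ⟨j, hj⟩ := h4
    refine (Finset.mem_filter.1 (hsm j)).2 ?_
    rw [hj, h2]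
    exact le_self_add
  · intro g hg
    obtain ⟨u, r, h1, -, h3⟩ := m.div_single (b := F) (m.isUnit_leadingCoeff.2 hF0) g
    have h4 : g = homogeneousComponent N (u * F) + homogeneousComponent N r := by
      rw [← map_add, ← h1, homogeneousComponent_eq_self hg]
    refine ⟨fun j => coeff (s j) (homogeneousComponent N r), ?_⟩
    have h5 : ∑ j, C (coeff (s j) (homogeneousComponent N r)) * monomial (s j) (1 : k) =
        homogeneousComponent N r := by
      ext t
      by_cases ht : t ∈ S
      · obtain ⟨j, rfl⟩ := hsu t ht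
        exact coeff_comb s hsi _ j
      · rw [coeff_comb' s _ t (fun j hj => ht (hj ▸ hsm j))]
        by_contra h6
        have h7 : coeff t (homogeneousComponent N r) ≠ 0 := fun h => h6 h.symm
        have h8 : t ∈ E N := deg_of_hom (homogeneousComponent_isHomogeneous N r) h7
        have h9 : coeff t r ≠ 0 := by
          intro h10
          apply h7
          rw [coeff_homogeneousComponent]
          split_ifs
          · exact h10
          · rfl
        exact ht (Finset.mem_filter.2 ⟨h8, h3 t (mem_support_iff.2 h9)⟩)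
    rw [h5]
    have h6 : g - homogeneousComponent N r = homogeneousComponent N (u * F) := by
      rw [sub_eq_iff_eq_add]
      exact h4
    rw [h6]
    exact dvd_comp hC.1 u N

end Pool.Agent.NH95.QP
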