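import Pool.Agent.NH95.QP.Base

/-!
# QP-EXC: the excluded case
-/

set_option autoImplicit false

namespace Pool.Agent.NH95.QP.Exc

open MvPolynomial Pool.Agent.NH95.QP

variable {k : Type} [Field k]

/-- the homogenisation of a polynomial at two forms -/
noncomputable def HH (A B : MvPolynomial (Fin 3) k) (e : ℕ) (Q : Polynomial k) :
    MvPolynomial (Fin 3) k :=
  ∑ i ∈ Finset.range (e + 1), C (Q.coeff i) * B ^ i * A ^ (e - i)

section frac

variable (A B : MvPolynomial (Fin 3) k)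

theorem HH_frac (hA : A ≠ 0) (e : ℕ) (Q : Polynomial k) (hQ : Q.natDegree ≤ e) :
    algebraMap (MvPolynomial (Fin 3) k) (FractionRing (MvPolynomial (Fin 3) k)) (HH A B e Q) =
      algebraMap _ (FractionRing (MvPolynomial (Fin 3) k)) A ^ e *
        Polynomial.eval₂ ((algebraMap (MvPolynomial (Fin 3) k)
          (FractionRing (MvPolynomial (Fin 3) k))).comp C)
          (algebraMap _ (FractionRing (MvPolynomial (Fin 3) k)) B /
            algebraMap _ (FractionRing (MvPolynomial (Fin 3) k)) A) Q := by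
  have hA' : algebraMap (MvPolynomial (Fin 3) k) (FractionRing (MvPolynomial (Fin 3) k)) A ≠ 0 := by
    intro h
    exact hA ((IsFractionRing.injective (MvPolynomial (Fin 3) k)
      (FractionRing (MvPolynomial (Fin 3) k))) (h.trans (map_zero _).symm))
  unfold HH
  rw [Polynomial.eval₂_eq_sum_range' _ (Nat.lt_succ_of_le hQ), map_sum, Finset.mul_sum]
  refine Finset.sum_congr rfl fun i hi => ?_
  rw [Finset.mem_range] at hi
  rw [map_mul, map_mul, map_pow, map_pow, RingHom.comp_apply, div_pow]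
  have h1 : algebraMap (MvPolynomial (Fin 3) k) (FractionRing (MvPolynomial (Fin 3) k)) A ^ e =
      algebraMap (MvPolynomial (Fin 3) k) (FractionRing (MvPolynomial (Fin 3) k)) A ^ (e - i) *
      algebraMap (MvPolynomial (Fin 3) k) (FractionRing (MvPolynomial (Fin 3) k)) A ^ i := by
    rw [← pow_add]
    congr 1
    omega
  rw [h1]
  field_simp

theorem HH_mul (hA : A ≠ 0) (e e' : ℕ) (P Q : Polynomial k) (hP : P.natDegree ≤ e)
    (hQ : Q.natDegree ≤ e') : HH A B (e + e') (P * Q) = HH A B e P * HH A B e' Q := by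
  apply IsFractionRing.injective (MvPolynomial (Fin 3) k)
    (FractionRing (MvPolynomial (Fin 3) k))
  rw [map_mul, HH_frac A B hA e P hP, HH_frac A B hA e' Q hQ, HH_frac A B hA (e + e') (P * Q)
    (Polynomial.natDegree_mul_le.trans (Nat.add_le_add hP hQ)), Polynomial.eval₂_mul, pow_add]
  ring

theorem HH_sub (e : ℕ) (P Q : Polynomial k) : HH A B e (P - Q) = HH A B e P - HH A B e Q := by
  unfold HH
  rw [← Finset.sum_sub_distrib]
  refine Finset.sum_congr rfl fun i _ => ?_
  rw [Polynomial.coeff_sub, map_sub]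
  ring

theorem HH_lin (a : k) (e : ℕ) (hA : A ≠ 0) :
    HH A B e ((Polynomial.X - Polynomial.C a) ^ e) = (B - C a * A) ^ e := by
  have hA' : algebraMap (MvPolynomial (Fin 3) k) (FractionRing (MvPolynomial (Fin 3) k)) A ≠ 0 := by
    intro h
    exact hA ((IsFractionRing.injective (MvPolynomial (Fin 3) k)
      (FractionRing (MvPolynomial (Fin 3) k))) (h.trans (map_zero _).symm))
  apply IsFractionRing.injective (MvPolynomial (Fin 3) k)
    (FractionRing (MvPolynomial (Fin 3) k))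
  rw [HH_frac A B hA e _ (by rw [Polynomial.natDegree_pow, Polynomial.natDegree_X_sub_C, mul_one]),
    Polynomial.eval₂_pow, Polynomial.eval₂_sub, Polynomial.eval₂_X, Polynomial.eval₂_C,
    RingHom.comp_apply, map_pow, map_sub, map_mul, ← mul_pow, mul_sub, mul_div_cancel₀ _ hA']
  ring

theorem HH_X (e : ℕ) (he : 1 ≤ e) :
    HH A B e (Polynomial.C 4 * Polynomial.X) = C 4 * B * A ^ (e - 1) := by
  unfold HH
  rw [Finset.sum_eq_single 1]
  · rw [Polynomial.coeff_C_mul, Polynomial.coeff_X_one, mul_one, pow_one]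
  · intro i _ hi
    rw [Polynomial.coeff_C_mul, Polynomial.coeff_X_of_ne_one hi, mul_zero, map_zero, zero_mul,
      zero_mul]
  · intro h
    exact absurd (Finset.mem_range.2 (by omega)) h

theorem HH_zero (e : ℕ) : HH A B e 0 = 0 := by
  unfold HH
  exact Finset.sum_eq_zero fun i _ => by rw [Polynomial.coeff_zero, map_zero, zero_mul, zero_mul]

theorem HH_hom (hA : A.IsHomogeneous 1) (hB : B.IsHomogeneous 1) (e : ℕ) (Q : Polynomial k) :
    (HH A B e Q).IsHomogeneous e := by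
  unfold HH
  refine IsHomogeneous.sum _ _ e fun i hi => ?_
  rw [Finset.mem_range] at hi
  have h1 := ((isHomogeneous_C (Fin 3) (Q.coeff i)).mul (hB.pow i)).mul (hA.pow (e - i))
  have h2 : 0 + 1 * i + 1 * (e - i) = e := by omega
  rw [h2] at h1
  exact h1

theorem HH_eval (x : Fin 3 → k) (hA : eval x A ≠ 0) (e : ℕ) (Q : Polynomial k)
    (hQ : Q.natDegree ≤ e) :
    eval x (HH A B e Q) = eval x A ^ e * Q.eval (eval x B / eval x A) := by
  unfold HH
  rw [Polynomial.eval_eq_sum_range' (Nat.lt_succ_of_le hQ), map_sum, Finset.mul_sum]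
  refine Finset.sum_congr rfl fun i hi => ?_
  rw [Finset.mem_range] at hi
  rw [map_mul, map_mul, map_pow, map_pow, eval_C, div_pow]
  have h1 : eval x A ^ e = eval x A ^ (e - i) * eval x A ^ i := by
    rw [← pow_add]
    congr 1
    omega
  rw [h1]
  field_simp

end frac

/-- QP-EXC -/
theorem t_EXC (h1 : S_POLY) (h2 : S_PID) (h3 : S_BZ) (h4 : S_CTR) : S_EXC := by
  intro k _ _ _ F d v v' hF hd hv hv' hdiff hDsc p q r s hD hFA hFB hv'A hv'B hvD
  obtain ⟨A, hAd⟩ : ∃ A, A = HL p q := ⟨_, rfl⟩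
  obtain ⟨B, hBd⟩ : ∃ B, B = HL r s := ⟨_, rfl⟩
  have hAh : A.IsHomogeneous 1 := by rw [hAd]; exact HL_hom p q
  have hBh : B.IsHomogeneous 1 := by rw [hBd]; exact HL_hom r s
  rw [← hAd] at hFA hv'A
  rw [← hBd] at hFB hv'B
  have hA0 : A ≠ 0 := ne_zero_of_not_dvd hFA
  have hB0 : B ≠ 0 := ne_zero_of_not_dvd hFB
  -- the values of A
  have hvA : v A = 0 := by
    have e1 := h3 k F d v v' hF hv hv' hdiff 1 A hAh hFA
    have e2 := hv.1.nonneg 1 A hAh hFA
    rw [hv'A] at e1
    push_cast at e1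
    linarith
  -- the polynomial
  obtain ⟨G, hG1, hG2⟩ := h1 k F d v' hF hv' A B hAh hBh hFA hFB hv'A hv'B 1 (TL p q r s)
    (TL_hom p q r s)
  rw [one_mul] at hG1 hG2
  have hG3 : F ∣ TL p q r s * A ^ (d - 1) - HH A B d G := hG2
  obtain ⟨R, hR⟩ : ∃ R, R = G ^ 2 - Polynomial.C 4 * Polynomial.X := ⟨_, rfl⟩
  have hRdeg : R.natDegree ≤ d + d := by
    rw [hR]
    refine (Polynomial.natDegree_sub_le _ _).trans (max_le ?_ ?_)
    · refine Polynomial.natDegree_pow_le.trans ?_
      omega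
    · refine (Polynomial.natDegree_C_mul_le _ _).trans ?_
      rw [Polynomial.natDegree_X]
      omega
  have hHR : HH A B (d + d) R = HH A B d G ^ 2 - C 4 * B * A ^ (d + d - 1) := by
    rw [hR, HH_sub, pow_two, HH_mul A B hA0 d d G G hG1 hG1, HH_X A B (d + d) (by omega), pow_two]
  have hdvd : F ∣ C ((p * s - q * r) ^ 2) * Dsc k * A ^ (d + d - 2) - HH A B (d + d) R := by
    have e1 : C ((p * s - q * r) ^ 2) * Dsc k * A ^ (d + d - 2) - HH A B (d + d) R =
        (TL p q r s * A ^ (d - 1) - HH A B d G) * (TL p q r s * A ^ (d - 1) + HH A B d G) := by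
      have e2 := TL_sq p q r s
      rw [← hAd, ← hBd] at e2
      have e3 : A ^ (d + d - 1) = A * A ^ (d + d - 2) := by
        rw [← pow_succ']
        congr 1
        omega
      have e4 : A ^ (d + d - 2) = A ^ (d - 1) * A ^ (d - 1) := by
        rw [← pow_add]
        congr 1
        omega
      rw [hHR, e3, e4]
      have e5 : C ((p * s - q * r) ^ 2) * Dsc k = TL p q r s ^ 2 - C 4 * A * B := by
        rw [e2]
        ring
      rw [e5]
      ring
    rw [e1]
    exact hG3.mul_right _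
  have hc0 : (p * s - q * r) ^ 2 ≠ 0 := pow_ne_zero 2 hD
  have hW1 : ¬ F ∣ C ((p * s - q * r) ^ 2) * Dsc k :=
    not_dvd_mul hF (not_dvd_C hF hc0) hDsc
  have hW2 : ¬ F ∣ C ((p * s - q * r) ^ 2) * Dsc k * A ^ (d + d - 2) :=
    not_dvd_mul hF hW1 (not_dvd_pow hF hFA _)
  have hWh : (C ((p * s - q * r) ^ 2) * Dsc k * A ^ (d + d - 2)).IsHomogeneous (d + d) := by
    have e1 := (C_mul_hom (Dsc_hom (k := k)) ((p * s - q * r) ^ 2)).mul (hAh.pow (d + d - 2))
    have e2 : 2 + 1 * (d + d - 2) = d + d := by omega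
    rw [e2] at e1
    exact e1
  have hHRh := HH_hom A B hAh hBh (d + d) R
  have hvR : v (HH A B (d + d) R) = 2 * d := by
    rw [← hv.1.congr (d + d) _ _ hWh hHRh hW2 hdvd,
      hv.1.mul 2 (1 * (d + d - 2)) _ _ (C_mul_hom Dsc_hom _) (hAh.pow _) hW1 (not_dvd_pow hF hFA _),
      hv.1.C_mul hF Dsc_hom hDsc hc0, hv.1.pow hF hAh hFA, hvA, smul_zero, add_zero, hvD]
  have hHR0 : ¬ F ∣ HH A B (d + d) R := fun h => hW2 ((dvd_sub_right h).1 (by
    have : HH A B (d + d) R - C ((p * s - q * r) ^ 2) * Dsc k * A ^ (d + d - 2) =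
      -(C ((p * s - q * r) ^ 2) * Dsc k * A ^ (d + d - 2) - HH A B (d + d) R) := by ring
    rw [this]
    exact (dvd_neg).2 hdvd))
  have hR0 : R ≠ 0 := by
    intro h
    rw [h, HH_zero] at hHR0
    exact hHR0 (dvd_zero F)
  -- the centre
  obtain ⟨x, hx0, hxF, hx⟩ := h4 k F d v hF hv
  have hAx : eval x A ≠ 0 := by
    intro h
    have := (hx 1 A hAh hFA).2 h
    omega
  obtain ⟨a, ha⟩ : ∃ a, a = eval x B / eval x A := ⟨_, rfl⟩
  have hlh : (B - C a * A).IsHomogeneous 1 := hBh.sub (C_mul_hom hAh a)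
  have hl0 : B - C a * A ≠ 0 := by
    intro h
    have e1 : B = C a * A := sub_eq_zero.1 h
    have ha0 : a ≠ 0 := by
      intro h'
      rw [h', map_zero, zero_mul] at e1
      exact hB0 e1
    have e2 := hv'.1.C_mul hF hAh hFA ha0
    rw [← e1, hv'B, hv'A] at e2
    omega
  have hFl : ¬ F ∣ B - C a * A := by
    intro h
    have := deg_le_of_dvd hF hlh hl0 h
    omega
  have hvl : v (B - C a * A) = 1 := by
    have e1 : 0 < v (B - C a * A) := by
      rw [hx 1 _ hlh hFl, map_sub, map_mul, eval_C, ha, div_mul_cancel₀ _ hAx, sub_self]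
    have e2 : v' (B - C a * A) = (d : ℤ) - 1 := by
      have e3 : B - C a * A = B + -(C a * A) := sub_eq_add_neg _ _
      rw [e3, (hv'.1.add_eq hF hBh (C_mul_hom hAh a).neg hFB ?_).2, hv'B]
      by_cases ha0 : a = 0
      · left
        rw [ha0, map_zero, zero_mul, neg_zero]
        exact dvd_zero F
      · right
        rw [hv'.1.neg hF (C_mul_hom hAh a) (not_dvd_mul hF (not_dvd_C hF ha0) hFA),
          hv'.1.C_mul hF hAh hFA ha0, hv'A, hv'B]
        omega
    have e3 := h3 k F d v v' hF hv hv' hdiff 1 _ hlh hFl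
    rw [e2] at e3
    push_cast at e3
    omega
  -- the factorisation
  obtain ⟨R1, hR1, hR1a⟩ := Polynomial.exists_eq_pow_rootMultiplicity_mul_and_not_dvd R hR0 a
  obtain ⟨m, hm⟩ : ∃ m, m = Polynomial.rootMultiplicity a R := ⟨_, rfl⟩
  rw [← hm] at hR1
  have hR1a' : R1.eval a ≠ 0 := by
    intro h
    exact hR1a (Polynomial.dvd_iff_isRoot.2 h)
  have hR10 : R1 ≠ 0 := by
    intro h
    rw [h, mul_zero] at hR1
    exact hR0 hR1
  have hpm : ((Polynomial.X - Polynomial.C a) ^ m : Polynomial k).natDegree = m := by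
    rw [Polynomial.natDegree_pow, Polynomial.natDegree_X_sub_C, mul_one]
  have hdeg : m + R1.natDegree = R.natDegree := by
    rw [hR1, Polynomial.natDegree_mul (pow_ne_zero _ (Polynomial.X_sub_C_ne_zero a)) hR10, hpm]
  have hmd : m ≤ d + d := by omega
  have hprod : HH A B (d + d) R = (B - C a * A) ^ m * HH A B (d + d - m) R1 := by
    rw [← HH_lin A B a m hA0, ← HH_mul A B hA0 m (d + d - m) _ R1 hpm.le (by omega), ← hR1]
    congr 1
    omega
  have hH1h := HH_hom A B hAh hBh (d + d - m) R1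
  have hH1x : eval x (HH A B (d + d - m) R1) ≠ 0 := by
    rw [HH_eval A B x hAx (d + d - m) R1 (by omega), ← ha]
    exact mul_ne_zero (pow_ne_zero _ hAx) hR1a'
  have hH1F : ¬ F ∣ HH A B (d + d - m) R1 := by
    rintro ⟨W, hW⟩
    apply hH1x
    rw [hW, map_mul, hxF, zero_mul]
  have hvH1 : v (HH A B (d + d - m) R1) = 0 := by
    have e1 := hv.1.nonneg _ _ hH1h hH1F
    have e2 : ¬ 0 < v (HH A B (d + d - m) R1) := fun h => hH1x ((hx _ _ hH1h hH1F).1 h)
    omega
  have hm2 : (m : ℤ) = 2 * d := by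
    have e1 := hvR
    rw [hprod, hv.1.mul (1 * m) (d + d - m) _ _ (hlh.pow m) hH1h (not_dvd_pow hF hFl m) hH1F, hvH1,
      hv.1.pow hF hlh hFl, hvl, add_zero] at e1
    simpa using e1
  have hm3 : m = 2 * d := by exact_mod_cast hm2
  have hR1deg : R1.natDegree = 0 := by omega
  obtain ⟨κ, hκ⟩ : ∃ κ, R1 = Polynomial.C κ :=
    ⟨R1.coeff 0, Polynomial.eq_C_of_natDegree_eq_zero hR1deg⟩
  refine h2 k d G κ a hd ?_
  rw [← hR, hR1, hκ, hm3]
  ring

end Pool.Agent.NH95.QP.Exc
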