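import Pool.Agent.NH95.QP.Base

/-!
Project QP: products of conjugates (helper51).
-/

namespace Pool.Agent.NH95.QP.Gal

open MvPolynomial

set_option autoImplicit false

/-- the action of an automorphism on the forms -/
noncomputable def act (σ : QQ ≃ₐ[ℚ] QQ) (g : MvPolynomial (Fin 3) QQ) :
    MvPolynomial (Fin 3) QQ :=
  MvPolynomial.map (σ : QQ →+* QQ) g

theorem act_rat (σ : QQ ≃ₐ[ℚ] QQ) (g : MvPolynomial (Fin 3) ℚ) :
    act σ (rat g) = rat g := by
  unfold act rat
  rw [MvPolynomial.map_map]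
  congr 1
  congr 1
  ext x
  simp

theorem act_symm (σ : QQ ≃ₐ[ℚ] QQ) (g : MvPolynomial (Fin 3) QQ) :
    act σ.symm (act σ g) = g := by
  unfold act
  rw [MvPolynomial.map_map]
  have h : ((σ.symm : QQ →+* QQ)).comp (σ : QQ →+* QQ) = RingHom.id QQ := by
    ext x
    simp
  rw [h, MvPolynomial.map_id]

theorem not_dvd_act {F0 : MvPolynomial (Fin 3) ℚ} (σ : QQ ≃ₐ[ℚ] QQ)
    {g : MvPolynomial (Fin 3) QQ} (h : ¬ rat F0 ∣ g) : ¬ rat F0 ∣ act σ g := by
  intro h1
  apply h
  have h2 : act σ.symm (rat F0) ∣ act σ.symm (act σ g) :=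
    map_dvd (MvPolynomial.map (σ.symm : QQ →+* QQ)) h1
  rwa [act_rat, act_symm] at h2

/-- the value of a product of conjugates -/
theorem val_prod {F0 : MvPolynomial (Fin 3) ℚ} {d : ℕ}
    {v : MvPolynomial (Fin 3) QQ → ℤ} (hF : Curve (rat F0) d)
    (hv : IsW (rat F0) v) (hS : Stab (rat F0) v) {n : ℕ}
    {g : MvPolynomial (Fin 3) QQ} (hg : g.IsHomogeneous n)
    (hd : ¬ rat F0 ∣ g) {ι : Type} (s : Finset ι) (σ : ι → QQ ≃ₐ[ℚ] QQ) :
    (∏ i ∈ s, act (σ i) g).IsHomogeneous (n * s.card) ∧
      ¬ rat F0 ∣ ∏ i ∈ s, act (σ i) g ∧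
      v (∏ i ∈ s, act (σ i) g) = s.card * v g := by
  classical
  induction s using Finset.induction_on with
  | empty =>
    refine ⟨?_, ?_, ?_⟩
    · rw [Finset.prod_empty, Finset.card_empty, mul_zero]
      exact isHomogeneous_one _ _
    · rw [Finset.prod_empty]
      have := not_dvd_C hF (one_ne_zero (α := QQ))
      rwa [C_1] at this
    · rw [Finset.prod_empty, Finset.card_empty, Nat.cast_zero, zero_mul]
      have := hv.const 1 one_ne_zero
      rwa [C_1] at this
  | insert a s ha ih =>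
    obtain ⟨h1, h2, h3⟩ := ih
    have h4 : (act (σ a) g).IsHomogeneous n := hg.map _
    have h5 := not_dvd_act (σ a) hd
    rw [Finset.prod_insert ha, Finset.card_insert_of_notMem ha]
    refine ⟨?_, not_dvd_mul hF h5 h2, ?_⟩
    · have := h4.mul h1
      have e : n * (s.card + 1) = n + n * s.card := by ring
      rw [e]
      exact this
    · rw [hv.mul n (n * s.card) _ _ h4 h1 h5 h2, h3]
      have h6 : v (act (σ a) g) = v g := hS (σ a) n g hg hd
      rw [h6]
      push_cast
      ring

theorem algc : IsAlgClosure ℚ QQ := by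
  have h : (DivisionRing.toRatAlgebra : Algebra ℚ QQ) = AlgebraicClosure.instAlgebra ℚ :=
    Subsingleton.elim _ _
  rw [h]
  infer_instance

/-- the product of the conjugates is rational -/
theorem conj {k K : Type} [Field k] [Field K] [Algebra k K] [IsGalois k K]
    (g : MvPolynomial (Fin 3) K) : ∃ (ι : Type) (s : Finset ι) (σ : ι → K ≃ₐ[k] K)
      (g0 : MvPolynomial (Fin 3) k), 1 ≤ s.card ∧
      MvPolynomial.map (algebraMap k K) g0 =
        ∏ i ∈ s, MvPolynomial.map ((σ i : K ≃ₐ[k] K) : K →+* K) g := by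
  set E := FiniteGaloisIntermediateField.adjoin k (g.coeffs : Set K) with hE
  have hsub := FiniteGaloisIntermediateField.subset_adjoin k (g.coeffs : Set K)
  obtain ⟨gE, hgE⟩ : ∃ gE : MvPolynomial (Fin 3) E.toIntermediateField,
      MvPolynomial.map (algebraMap E.toIntermediateField K) gE = g := by
    have h1 : g ∈ Set.range (MvPolynomial.map (algebraMap E.toIntermediateField K)) := by
      rw [MvPolynomial.mem_range_map_iff_coeffs_subset]
      intro x hx
      exact ⟨⟨x, hsub hx⟩, rfl⟩
    exact h1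
  have hfin : Fintype (E.toIntermediateField ≃ₐ[k] E.toIntermediateField) := Fintype.ofFinite _
  set PE : MvPolynomial (Fin 3) E.toIntermediateField :=
    ∏ τ : E.toIntermediateField ≃ₐ[k] E.toIntermediateField,
      MvPolynomial.map (τ : E.toIntermediateField →+* E.toIntermediateField) gE with hPE
  have hfix : ∀ τ : E.toIntermediateField ≃ₐ[k] E.toIntermediateField,
      MvPolynomial.map (τ : E.toIntermediateField →+* E.toIntermediateField) PE = PE := by
    intro τ
    rw [hPE, map_prod]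
    refine Fintype.prod_equiv (Equiv.mulLeft τ) _ _ fun τ' => ?_
    rw [MvPolynomial.map_map]
    rfl
  obtain ⟨g0, hg0⟩ : ∃ g0 : MvPolynomial (Fin 3) k,
      MvPolynomial.map (algebraMap k E.toIntermediateField) g0 = PE := by
    have h1 : PE ∈ Set.range (MvPolynomial.map (algebraMap k E.toIntermediateField)) := by
      rw [MvPolynomial.mem_range_map_iff_coeffs_subset]
      intro x hx
      rw [Finset.mem_coe, MvPolynomial.mem_coeffs_iff] at hx
      obtain ⟨m, -, rfl⟩ := hx
      rw [← IntermediateField.mem_bot, IsGalois.mem_bot_iff_fixed]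
      intro τ
      have h2 := congrArg (MvPolynomial.coeff m) (hfix τ)
      rwa [MvPolynomial.coeff_map] at h2
    exact h1
  refine ⟨_, (Finset.univ : Finset (E.toIntermediateField ≃ₐ[k] E.toIntermediateField)),
    fun τ => τ.liftNormal K, g0, Finset.card_pos.2 ⟨1, Finset.mem_univ _⟩, ?_⟩
  have h1 : MvPolynomial.map (algebraMap k K) g0 =
      MvPolynomial.map (algebraMap E.toIntermediateField K) PE := by
    rw [← hg0, MvPolynomial.map_map]
    rfl
  rw [h1, hPE, map_prod]
  refine Finset.prod_congr rfl fun τ _ => ?_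
  have h2 : ((τ.liftNormal K : K ≃ₐ[k] K) : K →+* K).comp (algebraMap E.toIntermediateField K) =
      (algebraMap E.toIntermediateField K).comp
        (τ : E.toIntermediateField →+* E.toIntermediateField) := by
    ext x
    exact AlgEquiv.liftNormal_commutes τ K x
  rw [MvPolynomial.map_map, ← h2, ← MvPolynomial.map_map, hgE]

theorem t_GAL : S_GAL := by
  intro F0 d v hF hv hS n g hg hd
  haveI := algc
  haveI : IsGalois ℚ QQ := IsAlgClosure.isGalois ℚ QQ
  obtain ⟨ι, s, σ, g0, h0, hkey⟩ := conj (k := ℚ) g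
  obtain ⟨h1, h2, h3⟩ := val_prod hF hv.1 hS hg hd s σ
  have hk : rat g0 = ∏ i ∈ s, act (σ i) g := hkey
  rw [← hk] at h1 h2 h3
  exact ⟨s.card, g0, h0,
    MvPolynomial.IsHomogeneous.of_map (FaithfulSMul.algebraMap_injective ℚ QQ) h1, h2, h3⟩

end Pool.Agent.NH95.QP.Gal
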