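import Pool.Agent.NH95.QP.Base

/-!
QP-GEN: the adjunction inequality.
-/

namespace Pool.Agent.NH95.QP.Gen

open MvPolynomial Module

variable {k : Type} [Field k]

/-- the form with the given coefficients -/
noncomputable def G {M : ℕ} (s : Fin M → (Fin 3 →₀ ℕ)) :
    (Fin M → k) →ₗ[k] MvPolynomial (Fin 3) k where
  toFun c := ∑ j, C (c j) * monomial (s j) (1 : k)
  map_add' a b := by
    simp only [Pi.add_apply, map_add, add_mul, Finset.sum_add_distrib]
  map_smul' a b := by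
    simp only [Pi.smul_apply, smul_eq_mul, map_mul, RingHom.id_apply,
      Finset.smul_sum, MvPolynomial.smul_eq_C_mul, mul_assoc]

lemma G_apply {M : ℕ} (s : Fin M → (Fin 3 →₀ ℕ)) (c : Fin M → k) :
    G s c = ∑ j, C (c j) * monomial (s j) (1 : k) := rfl

lemma G_hom {M N : ℕ} (s : Fin M → (Fin 3 →₀ ℕ))
    (hs : ∀ j, (s j) 0 + (s j) 1 + (s j) 2 = N) (c : Fin M → k) :
    (G s c).IsHomogeneous N := by
  rw [G_apply]
  refine IsHomogeneous.sum _ _ N fun j _ => C_mul_hom ?_ _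
  apply isHomogeneous_monomial
  rw [Finsupp.degree_eq_sum, Fin.sum_univ_three]
  exact hs j

variable {F : MvPolynomial (Fin 3) k} {d : ℕ}

/-- the coefficients of the forms with `v ≥ n` and `v' ≥ n'` -/
noncomputable def W {M N : ℕ} (hF : Curve F d) (s : Fin M → (Fin 3 →₀ ℕ))
    (hs : ∀ j, (s j) 0 + (s j) 1 + (s j) 2 = N)
    {v v' : MvPolynomial (Fin 3) k → ℤ} (hv : IsW F v) (hv' : IsW F v')
    (n n' : ℤ) : Submodule k (Fin M → k) where
  carrier := {c | (F ∣ G s c ∨ n ≤ v (G s c)) ∧ (F ∣ G s c ∨ n' ≤ v' (G s c))}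
  add_mem' {a b} ha hb := by
    have h1 := hv.add_ge (G_hom s hs a) (G_hom s hs b) ha.1 hb.1
    have h2 := hv'.add_ge (G_hom s hs a) (G_hom s hs b) ha.2 hb.2
    rw [← map_add] at h1 h2
    exact ⟨h1, h2⟩
  zero_mem' := by
    have h : F ∣ G s (0 : Fin M → k) := by rw [map_zero]; exact dvd_zero _
    exact ⟨Or.inl h, Or.inl h⟩
  smul_mem' a c hc := by
    by_cases ha : a = 0
    · have h : F ∣ G s (a • c) := by rw [ha, zero_smul, map_zero]; exact dvd_zero _
      exact ⟨Or.inl h, Or.inl h⟩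
    · by_cases hd : F ∣ G s c
      · have h : F ∣ G s (a • c) := by
          rw [map_smul, MvPolynomial.smul_eq_C_mul]
          exact hd.mul_left _
        exact ⟨Or.inl h, Or.inl h⟩
      · have e1 := hv.C_mul hF (G_hom s hs c) hd ha
        have e2 := hv'.C_mul hF (G_hom s hs c) hd ha
        rw [← MvPolynomial.smul_eq_C_mul, ← map_smul] at e1 e2
        refine ⟨Or.inr ?_, Or.inr ?_⟩
        · rw [e1]; exact hc.1.resolve_left hd
        · rw [e2]; exact hc.2.resolve_left hd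

lemma mem_W {M N : ℕ} (hF : Curve F d) (s : Fin M → (Fin 3 →₀ ℕ))
    (hs : ∀ j, (s j) 0 + (s j) 1 + (s j) 2 = N)
    {v v' : MvPolynomial (Fin 3) k → ℤ} (hv : IsW F v) (hv' : IsW F v')
    (n n' : ℤ) (c : Fin M → k) : c ∈ W hF s hs hv hv' n n' ↔
      (F ∣ G s c ∨ n ≤ v (G s c)) ∧ (F ∣ G s c ∨ n' ≤ v' (G s c)) := Iff.rfl

/-- one more condition -/
lemma step [IsAlgClosed k] [CharZero k] (h2 : S_RES) {M N : ℕ} (hF : Curve F d)
    (s : Fin M → (Fin 3 →₀ ℕ))
    (hs : ∀ j, (s j) 0 + (s j) 1 + (s j) 2 = N)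
    {v v' : MvPolynomial (Fin 3) k → ℤ} (hv : IsPlace F v) (hv' : IsW F v')
    (n n' : ℤ) :
    finrank k (W hF s hs hv.1 hv' n n') ≤ finrank k (W hF s hs hv.1 hv' (n + 1) n') + 1 := by
  by_cases hle : W hF s hs hv.1 hv' n n' ≤ W hF s hs hv.1 hv' (n + 1) n'
  · have := Submodule.finrank_mono hle
    omega
  · obtain ⟨c', hc', hc'n⟩ := Set.not_subset.1 hle
    have key : ∀ c ∈ W hF s hs hv.1 hv' n n', c ∉ W hF s hs hv.1 hv' (n + 1) n' →
        ¬ F ∣ G s c ∧ v (G s c) = n := by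
      intro c hc hcn
      have h3 : ¬ F ∣ G s c := fun h => hcn ⟨Or.inl h, Or.inl h⟩
      refine ⟨h3, ?_⟩
      have h4 := hc.1.resolve_left h3
      have h5 : ¬ n + 1 ≤ v (G s c) := fun h => hcn ⟨Or.inr h, hc.2⟩
      omega
    have hsub : W hF s hs hv.1 hv' n n' ≤
        W hF s hs hv.1 hv' (n + 1) n' ⊔ Submodule.span k {c'} := by
      intro c hc
      by_cases hcn : c ∈ W hF s hs hv.1 hv' (n + 1) n'
      · exact Submodule.mem_sup_left hcn
      · obtain ⟨h3, h4⟩ := key c hc hcn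
        obtain ⟨h3', h4'⟩ := key c' hc' hc'n
        obtain ⟨a, ha, h5⟩ := h2 k F d v hF hv N (G s c) (G s c') (G_hom s hs c)
          (G_hom s hs c') h3 h3' (by rw [h4, h4'])
        have e : G s (c - a • c') = G s c - C a * G s c' := by
          rw [map_sub, map_smul, MvPolynomial.smul_eq_C_mul]
        have h6 : c - a • c' ∈ W hF s hs hv.1 hv' (n + 1) n' := by
          refine ⟨?_, ((W hF s hs hv.1 hv' n n').sub_mem hc
            ((W hF s hs hv.1 hv' n n').smul_mem a hc')).2⟩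
          rw [e]
          rcases h5 with h5 | h5
          · exact Or.inl h5
          · right; omega
        have h7 : c = (c - a • c') + a • c' := by rw [sub_add_cancel]
        rw [h7]
        exact Submodule.add_mem_sup h6
          (Submodule.smul_mem _ _ (Submodule.mem_span_singleton_self c'))
    have h8 := Submodule.finrank_mono hsub
    have h9 := Submodule.finrank_add_le_finrank_add_finrank (W hF s hs hv.1 hv' (n + 1) n')
      (Submodule.span k {c'})
    have h10 : finrank k (Submodule.span k {c'}) ≤ 1 := by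
      have := finrank_span_le_card (R := k) ({c'} : Set (Fin M → k))
      simpa using this
    omega

lemma steps [IsAlgClosed k] [CharZero k] (h2 : S_RES) {M N : ℕ} (hF : Curve F d)
    (s : Fin M → (Fin 3 →₀ ℕ))
    (hs : ∀ j, (s j) 0 + (s j) 1 + (s j) 2 = N)
    {v v' : MvPolynomial (Fin 3) k → ℤ} (hv : IsPlace F v) (hv' : IsW F v')
    (n n' : ℤ) (r : ℕ) :
    finrank k (W hF s hs hv.1 hv' n n') ≤ finrank k (W hF s hs hv.1 hv' (n + r) n') + r := by
  induction r with
  | zero =>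
    have e : n + ((0 : ℕ) : ℤ) = n := by simp
    rw [e]
    omega
  | succ r ih =>
    have h := step h2 hF s hs hv hv' (n + r) n'
    have e : n + ((r + 1 : ℕ) : ℤ) = n + r + 1 := by push_cast; ring
    rw [e]
    omega

/-- the local conditions -/
lemma start {M N : ℕ} (hF : Curve F d) (s : Fin M → (Fin 3 →₀ ℕ))
    (hs : ∀ j, (s j) 0 + (s j) 1 + (s j) 2 = N)
    {v v' : MvPolynomial (Fin 3) k → ℤ} (hv : IsW F v) (hv' : IsW F v')
    {n n' L L' : ℕ} (hL : Loc F v n L) (hL' : Loc F v' n' L') :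
    M ≤ finrank k (W hF s hs hv hv' n n') + (L + L') := by
  obtain ⟨Λ, hΛ⟩ := hL N
  obtain ⟨Λ', hΛ'⟩ := hL' N
  let Φ : (Fin M → k) →ₗ[k] (Fin L → k) × (Fin L' → k) :=
    (Λ.comp (G s)).prod (Λ'.comp (G s))
  have h1 : LinearMap.ker Φ ≤ W hF s hs hv hv' n n' := by
    intro c hc
    have h2 : Φ c = 0 := hc
    have h3 : Λ (G s c) = 0 := congrArg Prod.fst h2
    have h4 : Λ' (G s c) = 0 := congrArg Prod.snd h2
    exact ⟨hΛ _ (G_hom s hs c) h3, hΛ' _ (G_hom s hs c) h4⟩
  have h2 := Submodule.finrank_mono h1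
  have h3 := LinearMap.finrank_range_add_finrank_ker Φ
  have h4 : finrank k (LinearMap.range Φ) ≤ L + L' := by
    refine (Submodule.finrank_le _).trans ?_
    rw [finrank_prod, finrank_fin_fun, finrank_fin_fun]
  rw [finrank_fin_fun] at h3
  omega

end Pool.Agent.NH95.QP.Gen

namespace Pool.Agent.NH95.QP

open MvPolynomial Module

theorem Gen.t_GEN (h1 : S_BZ) (h2 : S_RES) (h3 : S_DIM) (h4 : S_RDM) : S_GEN := by
  intro k _ _ _ F d v v' hF hv hv' hdiff n n' L L' hL hL'
  have hd : 1 ≤ d := hF.2.2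
  set N : ℕ := d + n + n' with hN
  have hdN : d ≤ N := by omega
  have hNd : n + n' ≤ N * d := by nlinarith
  obtain ⟨s, hs, hind, -⟩ := h3 k F d N hF hdN
  obtain ⟨r, hr⟩ : ∃ r : ℕ, n + n' + r = N * d + 1 := ⟨N * d + 1 - (n + n'), by omega⟩
  have h5 := Gen.start hF s hs hv.1 hv'.1 hL hL'
  have h6 := Gen.steps h2 hF s hs hv hv'.1 n n' r
  have h7 : finrank k (Gen.W hF s hs hv.1 hv'.1 ((n : ℤ) + r) n') = 0 := by
    have hbot : Gen.W hF s hs hv.1 hv'.1 ((n : ℤ) + r) n' = ⊥ := by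
      rw [eq_bot_iff]
      intro c hc
      rw [Submodule.mem_bot]
      by_contra hne
      have h8 : ¬ F ∣ Gen.G s c := fun h => hne (hind c h)
      have h9 := h1 k F d v v' hF hv hv' hdiff N _ (Gen.G_hom s hs c) h8
      have h10 := hc.1.resolve_left h8
      have h11 := hc.2.resolve_left h8
      have h12 : ((n : ℤ) + n' + r) = N * d + 1 := by exact_mod_cast hr
      linarith
    rw [hbot, finrank_bot]
  have h8 := h4 d N hd hdN
  have h9 : rdim d N ≤ L + L' + r := by omega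
  have h10 : (rdim d N : ℤ) ≤ L + L' + r := by exact_mod_cast h9
  have h12 : ((n : ℤ) + n' + r) = N * d + 1 := by exact_mod_cast hr
  linarith

end Pool.Agent.NH95.QP
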