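import Pool.Agent.NH95.QP.Base

/-!
Project QP: the hard case.
-/

set_option autoImplicit false

namespace Pool.Agent.NH95.QP.Hrd

open MvPolynomial Pool.Agent.NH95.QP

/-- The hard case, if the value of the third form is the smaller one. -/
theorem hrd_aux (h1 : S_CN1) (h2 : S_CN2) (h3 : S_ADJ) (h7 : S_BZ)
    (k : Type) [Field k] [IsAlgClosed k] [CharZero k]
    (F : MvPolynomial (Fin 3) k) (d : ℕ)
    (v v' : MvPolynomial (Fin 3) k → ℤ) (hF : Curve F d)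
    (hv : IsPlace F v) (hv' : IsPlace F v') (hD : Diff F v v')
    (hn : ¬ F ∣ Dsc k) (p q r s a b : k) (e1 : p * s - q * r ≠ 0)
    (e2 : p * b - q * a ≠ 0) (e3 : r * b - s * a ≠ 0)
    (n1 : ¬ F ∣ HL p q) (n2 : ¬ F ∣ HL r s) (n3 : ¬ F ∣ HL a b)
    (g1 : 0 < v (HL p q)) (g3 : 0 < v' (HL a b))
    (g4 : 0 < v' (HL r s)) (z1 : v (HL r s) = 0)
    (z2 : v' (HL p q) = 0) (hle : v' (HL a b) ≤ v' (HL r s)) :
    v (HL p q) + v (Dsc k) + v' (HL r s) + v' (HL a b) ≤ 4 * d := by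
  by_cases hc : 2 * v (HL p q) < v (Dsc k)
  · exact h3 k F d v v' hF hv hv' hD hn p q r s a b e1 e2 e3 n1 n2 n3
      g1 z1 z2 g3 hle hc
  by_cases hk : ∃ κ : k, F ∣ Dsc k + C κ * HL p q ^ 2
  · exact h2 k F d v v' hF hv hv' hD hn p q r s a b e1 e2 e3 n1 n2 n3
      g1 z2 g3 g4 hk
  have hk' : ∀ κ : k, ¬ F ∣ Dsc k + C κ * HL p q ^ 2 :=
    fun κ hκ => hk ⟨κ, hκ⟩
  have c1 := h1 k F d v v' hF hv hv' hD hn p q r s a b e1 e2 e3 n1 n2
    n3 z2 g3 hle (not_lt.1 hc) hk'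
  have c2 := h7 k F d v v' hF hv hv' hD 1 (HL p q) (HL_hom p q) n1
  have c3 := h7 k F d v v' hF hv hv' hD 1 (HL r s) (HL_hom r s) n2
  push_cast at c2 c3
  linarith

/-- The hard case. -/
theorem t_HRD (h1 : S_CN1) (h2 : S_CN2) (h3 : S_ADJ) (h4 : S_CTR)
    (h5 : S_NH2) (h6 : S_NH3) (h7 : S_BZ) : S_HRD := by
  intro k _ _ _ F d v v' hF hv hv' hD hn p q r s a b e1 e2 e3 n1 n2 n3
    g1 g2 g3 g4
  obtain ⟨x, hx0, -, hx⟩ := h4 k F d v hF hv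
  obtain ⟨y, hy0, -, hy⟩ := h4 k F d v' hF hv'
  have xp : eval x (HL p q) = 0 := (hx 1 _ (HL_hom p q) n1).1 g1
  have xD : eval x (Dsc k) = 0 := (hx 2 _ Dsc_hom hn).1 g2
  have ya : eval y (HL a b) = 0 := (hy 1 _ (HL_hom a b) n3).1 g3
  have yr : eval y (HL r s) = 0 := (hy 1 _ (HL_hom r s) n2).1 g4
  have z1 : v (HL r s) = 0 := by
    refine le_antisymm (not_lt.1 fun h => ?_)
      (hv.1.nonneg 1 _ (HL_hom r s) n2)
    exact h5 k p q r s x e1 hx0 xp ((hx 1 _ (HL_hom r s) n2).1 h) xD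
  have z1' : v (HL a b) = 0 := by
    refine le_antisymm (not_lt.1 fun h => ?_)
      (hv.1.nonneg 1 _ (HL_hom a b) n3)
    exact h5 k p q a b x e2 hx0 xp ((hx 1 _ (HL_hom a b) n3).1 h) xD
  have z2 : v' (HL p q) = 0 := by
    refine le_antisymm (not_lt.1 fun h => ?_)
      (hv'.1.nonneg 1 _ (HL_hom p q) n1)
    exact hy0 (h6 k p q r s a b y e1 e2 e3
      ((hy 1 _ (HL_hom p q) n1).1 h) yr ya)
  rcases le_total (v' (HL a b)) (v' (HL r s)) with hle | hle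
  · exact hrd_aux h1 h2 h3 h7 k F d v v' hF hv hv' hD hn p q r s a b e1
      e2 e3 n1 n2 n3 g1 g3 g4 z1 z2 hle
  · have e3' : a * s - b * r ≠ 0 := by
      intro h
      apply e3
      linear_combination -h
    have h := hrd_aux h1 h2 h3 h7 k F d v v' hF hv hv' hD hn p q a b r s
      e2 e1 e3' n1 n3 n2 g1 g4 g3 z1' z2 hle
    linarith

end Pool.Agent.NH95.QP.Hrd
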