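import Pool.Agent.NH95.QP.Stm

/-!
QP-LCB: the number of lattice points below a line.
-/

namespace Pool.Agent.NH95.QP.Lcb

open Finset

theorem t_LCB : S_LCB := by
  classical
  intro m j hm hj
  set P : Finset (ℕ × ℕ) := (range j ×ˢ range m).filter
    (fun x => m * x.1 + j * x.2 < m * j) with hP
  set A : Finset (ℕ × ℕ) := P.filter (fun x => 1 ≤ x.1 ∧ 1 ≤ x.2) with hA
  set B : Finset (ℕ × ℕ) := P.filter (fun x => ¬ (1 ≤ x.1 ∧ 1 ≤ x.2)) with hB
  have h0 : P.card = A.card + B.card := by
    have := Finset.card_union_of_disjoint (s := A) (t := B) (by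
      rw [Finset.disjoint_left]
      intro x hx hx'
      exact (Finset.mem_filter.1 hx').2 (Finset.mem_filter.1 hx).2)
    rw [← this]
    congr 1
    ext x
    constructor
    · intro hx
      by_cases h : 1 ≤ x.1 ∧ 1 ≤ x.2
      · exact Finset.mem_union_left _ (Finset.mem_filter.2 ⟨hx, h⟩)
      · exact Finset.mem_union_right _ (Finset.mem_filter.2 ⟨hx, h⟩)
    · intro hx
      rcases Finset.mem_union.1 hx with h | h
      · exact (Finset.mem_filter.1 h).1
      · exact (Finset.mem_filter.1 h).1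
  have h2 : B.card ≤ j + (m - 1) := by
    have hsub : B ⊆ (range j ×ˢ {0}) ∪ ({0} ×ˢ Ico 1 m) := by
      intro x hx
      obtain ⟨h1, h2⟩ := Finset.mem_filter.1 hx
      obtain ⟨h3, h4⟩ := Finset.mem_filter.1 h1
      obtain ⟨h5, h6⟩ := Finset.mem_product.1 h3
      rw [Finset.mem_range] at h5 h6
      rw [Finset.mem_union, Finset.mem_product, Finset.mem_product, Finset.mem_range,
        Finset.mem_singleton, Finset.mem_singleton, Finset.mem_Ico]
      omega
    refine (Finset.card_le_card hsub).trans ((Finset.card_union_le _ _).trans ?_)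
    rw [Finset.card_product, Finset.card_product, Finset.card_range, Finset.card_singleton,
      Nat.card_Ico]
    simp
  have h3 : 2 * A.card ≤ (j - 1) * (m - 1) := by
    let f : ℕ × ℕ → ℕ × ℕ := fun x => (j - x.1, m - x.2)
    have hAm : ∀ x ∈ A, 1 ≤ x.1 ∧ x.1 < j ∧ 1 ≤ x.2 ∧ x.2 < m ∧ m * x.1 + j * x.2 < m * j := by
      intro x hx
      obtain ⟨h1, h2⟩ := Finset.mem_filter.1 hx
      obtain ⟨h3, h4⟩ := Finset.mem_filter.1 h1
      obtain ⟨h5, h6⟩ := Finset.mem_product.1 h3
      rw [Finset.mem_range] at h5 h6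
      exact ⟨h2.1, h5, h2.2, h6, h4⟩
    have hinj : Set.InjOn f A := by
      intro x hx y hy hxy
      have a1 := hAm x hx
      have a2 := hAm y hy
      have e1 : j - x.1 = j - y.1 := congrArg Prod.fst hxy
      have e2 : m - x.2 = m - y.2 := congrArg Prod.snd hxy
      ext <;> omega
    have hdis : Disjoint A (A.image f) := by
      rw [Finset.disjoint_left]
      intro x hx hx'
      obtain ⟨y, hy, rfl⟩ := Finset.mem_image.1 hx'
      have a1 := (hAm _ hx).2.2.2.2
      have a2 := hAm y hy
      obtain ⟨c, hc⟩ : ∃ c, j = y.1 + c := ⟨j - y.1, by omega⟩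
      obtain ⟨e, he⟩ : ∃ e, m = y.2 + e := ⟨m - y.2, by omega⟩
      have b1 : (f y).1 = c := by simp only [f]; omega
      have b2 : (f y).2 = e := by simp only [f]; omega
      rw [b1, b2] at a1
      have a3 := a2.2.2.2.2
      have e3 : m * j = m * y.1 + m * c := by rw [hc]; ring
      have e4 : m * j = j * y.2 + j * e := by rw [he]; ring
      omega
    have hsub : A ∪ A.image f ⊆ Ico 1 j ×ˢ Ico 1 m := by
      intro x hx
      rw [Finset.mem_product, Finset.mem_Ico, Finset.mem_Ico]
      rcases Finset.mem_union.1 hx with h | h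
      · have := hAm x h
        omega
      · obtain ⟨y, hy, rfl⟩ := Finset.mem_image.1 h
        have := hAm y hy
        simp only [f]
        omega
    have h4 := Finset.card_le_card hsub
    rw [Finset.card_union_of_disjoint hdis, Finset.card_image_of_injOn hinj, Finset.card_product,
      Nat.card_Ico, Nat.card_Ico] at h4
    omega
  have h5 : Lc m j = P.card := rfl
  rw [h5]
  obtain ⟨m', rfl⟩ : ∃ m', m = m' + 1 := ⟨m - 1, by omega⟩
  obtain ⟨j', rfl⟩ : ∃ j', j = j' + 1 := ⟨j - 1, by omega⟩
  simp only [Nat.add_sub_cancel] at h2 h3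
  have h6 : 2 * P.card ≤ j' * m' + 2 * (j' + 1 + m') := by omega
  have h7 : 2 * (P.card : ℤ) ≤ j' * m' + 2 * (j' + 1 + m') := by exact_mod_cast h6
  push_cast
  nlinarith

end Pool.Agent.NH95.QP.Lcb

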