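import Pool.Agent.NH95.QP.Base

/-!
# QP-LIN: a linear form of value zero at two valuations
-/

set_option autoImplicit false

namespace Pool.Agent.NH95.QP

open MvPolynomial

namespace Lin

variable {k : Type} [Field k] {F : MvPolynomial (Fin 3) k} {d : ℕ}
  {w : MvPolynomial (Fin 3) k → ℤ}

/-- the forms of positive value -/
def Bad (F : MvPolynomial (Fin 3) k) (w : MvPolynomial (Fin 3) k → ℤ)
    (l : MvPolynomial (Fin 3) k) : Prop := F ∣ l ∨ 1 ≤ w l

lemma bad_C (hF : Curve F d) (h : IsW F w) {l : MvPolynomial (Fin 3) k}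
    (hl : l.IsHomogeneous 1) (hb : Bad F w l) (c : k) : Bad F w (C c * l) := by
  by_cases hc : c = 0
  · left
    rw [hc, map_zero, zero_mul]
    exact dvd_zero F
  by_cases hd : F ∣ l
  · exact Or.inl (hd.mul_left _)
  · right
    rw [h.C_mul hF hl hd hc]
    exact hb.resolve_left hd

lemma z_hom (i j : Fin 3) (c : k) :
    (X i + C c * X j : MvPolynomial (Fin 3) k).IsHomogeneous 1 :=
  (isHomogeneous_X k i).add (C_mul_hom (isHomogeneous_X k j) c)

lemma two_bad (hF : Curve F d) (h : IsW F w) (i j : Fin 3) {c c' : k} (hc : c ≠ c')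
    (h1 : Bad F w (X i + C c * X j)) (h2 : Bad F w (X i + C c' * X j)) :
    Bad F w (X i) ∧ Bad F w (X j) := by
  have h3 : Bad F w ((X i + C c * X j) - (X i + C c' * X j)) :=
    h.sub_ge hF (z_hom i j c) (z_hom i j c') h1 h2
  have h4 : Bad F w (C (c - c')⁻¹ * ((X i + C c * X j) - (X i + C c' * X j))) :=
    bad_C hF h ((z_hom i j c).sub (z_hom i j c')) h3 _
  have e : C (c - c')⁻¹ * ((X i + C c * X j) - (X i + C c' * X j)) =
      (X j : MvPolynomial (Fin 3) k) := by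
    have e1 : (X i + C c * X j) - (X i + C c' * X j) =
        (C (c - c') * X j : MvPolynomial (Fin 3) k) := by
      rw [map_sub]
      ring
    rw [e1, ← mul_assoc, ← map_mul, inv_mul_cancel₀ (sub_ne_zero.2 hc), map_one, one_mul]
  rw [e] at h4
  refine ⟨?_, h4⟩
  have h5 : Bad F w ((X i + C c * X j) - C c * X j) :=
    h.sub_ge hF (z_hom i j c) (C_mul_hom (isHomogeneous_X k j) c) h1
      (bad_C hF h (isHomogeneous_X k j) h4 c)
  rwa [add_sub_cancel_right] at h5

lemma not_bad {l : MvPolynomial (Fin 3) k} (h1 : ¬ F ∣ l) (h2 : w l = 0) : ¬ Bad F w l := by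
  rintro (h | h)
  · exact h1 h
  · omega

lemma good (h : IsW F w) {l : MvPolynomial (Fin 3) k} (hl : l.IsHomogeneous 1)
    (hb : ¬ Bad F w l) : ¬ F ∣ l ∧ w l = 0 := by
  unfold Bad at hb
  push Not at hb
  exact ⟨hb.1, le_antisymm (by omega) (h.nonneg 1 l hl hb.1)⟩

end Lin

open Lin

theorem t_LIN : S_LIN := by
  intro k _ _ F d v v' hF h h'
  obtain ⟨i, hi, hi0⟩ := h.coord
  obtain ⟨j, hj, hj0⟩ := h'.coord
  have key : ∀ c c' : k, c ≠ c' → ¬ (Bad F v (X i + C c * X j) ∧ Bad F v (X i + C c' * X j)) ∧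
      ¬ (Bad F v' (X i + C c * X j) ∧ Bad F v' (X i + C c' * X j)) := by
    intro c c' hc
    exact ⟨fun hb => not_bad hi hi0 (two_bad hF h i j hc hb.1 hb.2).1,
      fun hb => not_bad hj hj0 (two_bad hF h' i j hc hb.1 hb.2).2⟩
  have fin : ∀ c : k, ¬ Bad F v (X i + C c * X j) → ¬ Bad F v' (X i + C c * X j) →
      ∃ z : MvPolynomial (Fin 3) k, z.IsHomogeneous 1 ∧ ¬ F ∣ z ∧ v z = 0 ∧ v' z = 0 := by
    intro c h1 h2
    have h3 := good h (z_hom i j c) h1
    exact ⟨_, z_hom i j c, h3.1, h3.2, (good h' (z_hom i j c) h2).2⟩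
  have k01 := key 0 1 zero_ne_one
  have k02 := key 0 2 two_ne_zero.symm
  have k12 := key 1 2 (by
    intro h
    have h2 : (1 : k) + 1 = 1 + 0 := by rw [one_add_one_eq_two, ← h, add_zero]
    exact one_ne_zero (add_left_cancel h2))
  by_cases a0 : Bad F v (X i + C 0 * X j)
  · have a1 : ¬ Bad F v (X i + C 1 * X j) := fun h => k01.1 ⟨a0, h⟩
    have a2 : ¬ Bad F v (X i + C 2 * X j) := fun h => k02.1 ⟨a0, h⟩
    by_cases b1 : Bad F v' (X i + C 1 * X j)
    · exact fin 2 a2 fun h => k12.2 ⟨b1, h⟩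
    · exact fin 1 a1 b1
  · by_cases b0 : Bad F v' (X i + C 0 * X j)
    · by_cases a1 : Bad F v (X i + C 1 * X j)
      · exact fin 2 (fun h => k12.1 ⟨a1, h⟩) fun h => k02.2 ⟨b0, h⟩
      · exact fin 1 a1 fun h => k01.2 ⟨b0, h⟩
    · exact fin 0 a0 b0

end Pool.Agent.NH95.QP
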