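import Pool.Agent.NH95.QP.Base

set_option autoImplicit false

namespace Pool.Agent.NH95.QP

open MvPolynomial

namespace Loc1

variable {k K : Type} [Field k] [Field K] [Algebra k K]

/-- the coefficients of `f (p, q)` in the coordinates -/
def cA (r s : k) : Fin 3 → k := ![s ^ 2, -(2 * s * r), r ^ 2]

/-- the coefficients of `T` in the coordinates -/
def cT (p q r s : k) : Fin 3 → k := ![-(s * q), s * p + q * r, -(r * p)]

/-- the coefficients of `f (r, s)` in the coordinates -/
def cB (p q : k) : Fin 3 → k := ![q ^ 2, -(2 * q * p), p ^ 2]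

lemma ev_HL (x : Fin 3 → K) (p q : k) : aeval x (HL p q) =
    algebraMap k K p ^ 2 * x 0 + algebraMap k K p * algebraMap k K q * x 1 +
      algebraMap k K q ^ 2 * x 2 := by
  simp only [HL, map_add, map_mul, map_pow, aeval_X, algHom_C]

lemma ev_TL (x : Fin 3 → K) (p q r s : k) : aeval x (TL p q r s) =
    2 * (algebraMap k K p * algebraMap k K r) * x 0 +
      (algebraMap k K p * algebraMap k K s + algebraMap k K q * algebraMap k K r) * x 1 +
      2 * (algebraMap k K q * algebraMap k K s) * x 2 := by
  simp only [TL, map_add, map_mul, aeval_X, algHom_C, map_ofNat]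

lemma ev_Dsc (x : Fin 3 → K) : aeval x (Dsc k) = x 1 ^ 2 - 4 * x 0 * x 2 := by
  simp only [Dsc, map_sub, map_mul, map_pow, aeval_X, map_ofNat]

lemma lin (x : Fin 3 → K) (p q r s : k) (i : Fin 3) :
    algebraMap k K (p * s - q * r) ^ 2 * x i =
      algebraMap k K (cA r s i) * aeval x (HL p q) +
        algebraMap k K (cT p q r s i) * aeval x (TL p q r s) +
        algebraMap k K (cB p q i) * aeval x (HL r s) := by
  rw [ev_HL, ev_TL, ev_HL]
  fin_cases i
  · simp only [cA, cT, cB, Fin.zero_eta, Matrix.cons_val_zero, map_sub, map_mul, map_pow,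
      map_neg]
    ring
  · simp only [cA, cT, cB, Fin.mk_one, Matrix.cons_val_one, Matrix.cons_val_zero, map_sub,
      map_mul, map_pow, map_neg, map_add, map_ofNat]
    ring
  · simp only [cA, cT, cB, Fin.reduceFinMk, Matrix.cons_val, map_sub, map_mul, map_pow,
      map_neg]
    ring

lemma sq (x : Fin 3 → K) (p q r s : k) : aeval x (TL p q r s) ^ 2 =
    4 * aeval x (HL p q) * aeval x (HL r s) +
      algebraMap k K (p * s - q * r) ^ 2 * aeval x (Dsc k) := by
  rw [ev_HL, ev_TL, ev_HL, ev_Dsc, map_sub, map_mul, map_mul]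
  ring

lemma third (x : Fin 3 → K) (p q r s a b : k) :
    algebraMap k K (p * s - q * r) ^ 2 * aeval x (HL a b) =
      algebraMap k K (a * s - b * r) ^ 2 * aeval x (HL p q) +
        algebraMap k K (a * s - b * r) * algebraMap k K (p * b - q * a) *
          aeval x (TL p q r s) +
        algebraMap k K (p * b - q * a) ^ 2 * aeval x (HL r s) := by
  rw [ev_HL, ev_HL, ev_TL, ev_HL]
  simp only [map_sub, map_mul]
  ring

end Loc1

open Loc1

/-- Local conditions at a point of the conic. -/
theorem t_LOC1 (h : S_LOCG) : S_LOC1 := by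
  intro k _ _ _ F d v hF hv p q r s m j hD hc hc0 hm hj h1 h2
  refine h k F d v hF hv (HL r s) (TL p q r s) (Dsc k) 1 2 m j
    (fun i => C (((p * s - q * r) ^ 2)⁻¹) * (C (cA r s i / 4) *
      (X 0 ^ 2 - C ((p * s - q * r) ^ 2) * X 1) + C (cT p q r s i) * X 0 + C (cB p q i)))
    (HL_hom r s) hc hc0 (TL_hom p q r s) Dsc_hom (Or.inr hm) (Or.inr hj) h1 h2 ?_
  intro K _ _ x hx i
  have hDK : algebraMap k K (p * s - q * r) ≠ 0 := by
    rw [Ne, map_eq_zero]
    exact hD
  have h4 : (4 : K) ≠ 0 := by
    have h5 : algebraMap k K 4 ≠ 0 := by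
      rw [Ne, map_eq_zero]
      norm_num
    rwa [map_ofNat] at h5
  have e1 := lin x p q r s i
  have e2 := sq x p q r s
  have e3 : (aeval x (TL p q r s) / aeval x (HL r s) ^ 1) ^ 2 -
      algebraMap k K (p * s - q * r) ^ 2 * (aeval x (Dsc k) / aeval x (HL r s) ^ 2) =
      4 * (aeval x (HL p q) / aeval x (HL r s)) := by
    field_simp
    linear_combination e2
  simp only [map_mul, map_add, map_sub, map_pow, algHom_C, aeval_X, map_inv₀, map_div₀,
    map_ofNat, Matrix.cons_val_zero, Matrix.cons_val_one]
  have e4 : algebraMap k K (p * s - q * r) = algebraMap k K p * algebraMap k K s -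
      algebraMap k K q * algebraMap k K r := by
    rw [map_sub, map_mul, map_mul]
  rw [← e4, e3]
  generalize algebraMap k K (p * s - q * r) = D at *
  generalize aeval x (HL r s) = B at *
  generalize aeval x (HL p q) = A at *
  generalize aeval x (TL p q r s) = T at *
  field_simp
  linear_combination e1

/-- Local conditions at the intersection of two tangents. -/
theorem t_LOC2 (h : S_LOCG) : S_LOC2 := by
  intro k _ _ _ F d v hF hv p q r s a b m j hD hE1 hE2 hc hc0 hm hj h1 h2
  have hu : a * s - b * r ≠ 0 := by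
    intro h0
    apply hE2
    linear_combination -h0
  refine h k F d v hF hv (HL p q) (HL r s) (HL a b) 1 1 m j
    (fun i => C (((p * s - q * r) ^ 2)⁻¹) * (C (cA r s i) +
      C (cT p q r s i / ((a * s - b * r) * (p * b - q * a))) *
      (C ((p * s - q * r) ^ 2) * X 1 - C ((a * s - b * r) ^ 2) -
        C ((p * b - q * a) ^ 2) * X 0) + C (cB p q i) * X 0))
    (HL_hom p q) hc hc0 (HL_hom r s) (HL_hom a b) (Or.inr hm) (Or.inr hj) h1 h2 ?_
  intro K _ _ x hx i
  have hne : ∀ z : k, z ≠ 0 → algebraMap k K z ≠ 0 := fun z hz => by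
    rw [Ne, map_eq_zero]
    exact hz
  have hDK := hne _ hD
  have huK := hne _ hu
  have hwK := hne _ hE1
  have e1 := lin x p q r s i
  have e2 := third x p q r s a b
  rw [map_mul, map_add, map_add, map_mul, map_sub, map_sub, map_mul, map_mul, map_mul,
    aeval_X, aeval_X, algHom_C, algHom_C, algHom_C, algHom_C, algHom_C, algHom_C, algHom_C,
    map_inv₀, map_div₀, map_pow, map_pow, map_pow,
    map_mul (algebraMap k K) (a * s - b * r) (p * b - q * a), Matrix.cons_val_zero,
    Matrix.cons_val_one, Matrix.cons_val_zero]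
  generalize algebraMap k K (p * s - q * r) = D at *
  generalize algebraMap k K (a * s - b * r) = u at *
  generalize algebraMap k K (p * b - q * a) = w at *
  generalize aeval x (HL r s) = B at *
  generalize aeval x (HL p q) = A at *
  generalize aeval x (TL p q r s) = T at *
  generalize aeval x (HL a b) = H at *
  generalize algebraMap k K (cA r s i) = α at *
  generalize algebraMap k K (cT p q r s i) = β at *
  generalize algebraMap k K (cB p q i) = γ at *
  have e3 : (D ^ 2 * (H / A ^ 1) - u ^ 2 - w ^ 2 * (B / A ^ 1)) = u * w * (T / A) := by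
    field_simp
    linear_combination e2
  rw [e3]
  field_simp
  linear_combination e1

end Pool.Agent.NH95.QP
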