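import Pool.Agent.NH95.QP.Base

/-!
Project QP: local conditions from two local coordinates (`S_LOCG`).
-/

namespace Pool.Agent.NH95.QP.Locg

open MvPolynomial

variable {k : Type} [Field k]

theorem cancel_aux {K : Type} [Field K] (a p q T A B : K) (hA : A ≠ 0)
    (hB : B ≠ 0) :
    a * (p / A * (q / B)) * (T * A * B) = a * (p * q * T) := by
  field_simp

/-- Scaling of the variables of a form. -/
theorem hom_scale {K : Type} [Field K] [Algebra k K] (x : Fin 3 → K)
    (t : K) (ht : t ≠ 0) {N : ℕ} {g : MvPolynomial (Fin 3) k}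
    (hg : g.IsHomogeneous N) :
    aeval (fun i => x i / t) g * t ^ N = aeval x g := by
  rw [aeval_def, aeval_def, eval₂_eq', eval₂_eq', Finset.sum_mul]
  refine Finset.sum_congr rfl (fun s hs => ?_)
  have h1 : s 0 + s 1 + s 2 = N := by
    have h2 := hg (MvPolynomial.mem_support_iff.1 hs)
    rw [← h2, Finsupp.weight_apply, Finsupp.sum_fintype _ _ (by simp),
      Fin.sum_univ_three]
    simp
  rw [Fin.prod_univ_three, Fin.prod_univ_three, ← h1, pow_add, pow_add,
    div_pow, div_pow, div_pow]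
  field_simp

/-- Powers. -/
theorem pow_ge {F : MvPolynomial (Fin 3) k}
    {v : MvPolynomial (Fin 3) k → ℤ} (h : IsW F v) {e : ℕ}
    {P : MvPolynomial (Fin 3) k} (hP : P.IsHomogeneous e) {m : ℕ}
    (h1 : F ∣ P ∨ (m : ℤ) ≤ v P) (a : ℕ) :
    F ∣ P ^ a ∨ ((m * a : ℕ) : ℤ) ≤ v (P ^ a) := by
  induction a with
  | zero =>
    right
    have h2 := h.const 1 one_ne_zero
    rw [map_one] at h2
    rw [pow_zero, h2]
    simp
  | succ a ih =>
    have h3 := h.mul_ge (hP.pow a) hP ih h1
    rw [← pow_succ] at h3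
    refine h3.imp_right (fun h4 => ?_)
    refine le_trans (le_of_eq ?_) h4
    push_cast
    ring

/-- The terms. -/
theorem term_ge {F : MvPolynomial (Fin 3) k}
    {v : MvPolynomial (Fin 3) k → ℤ} (h : IsW F v)
    {c P Q : MvPolynomial (Fin 3) k} {e e' m j : ℕ}
    (hc : c.IsHomogeneous 1) (hP : P.IsHomogeneous e)
    (hQ : Q.IsHomogeneous e') (h1 : F ∣ P ∨ (m : ℤ) ≤ v P)
    (h2 : F ∣ Q ∨ (j : ℤ) ≤ v Q) (r : k) (a b u : ℕ)
    (h3 : m * j ≤ m * a + j * b) :
    F ∣ C r * (P ^ a * Q ^ b * c ^ u) ∨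
      ((m * j : ℕ) : ℤ) ≤ v (C r * (P ^ a * Q ^ b * c ^ u)) := by
  have h4 : F ∣ c ^ u ∨ (0 : ℤ) ≤ v (c ^ u) := by
    by_cases hd : F ∣ c ^ u
    · exact Or.inl hd
    · exact Or.inr (h.nonneg _ _ (hc.pow u) hd)
  have h5 : F ∣ (C r : MvPolynomial (Fin 3) k) ∨ (0 : ℤ) ≤ v (C r) := by
    by_cases hd : F ∣ (C r : MvPolynomial (Fin 3) k)
    · exact Or.inl hd
    · exact Or.inr (h.nonneg _ _ (isHomogeneous_C (Fin 3) r) hd)
  have h6 := h.mul_ge (hP.pow a) (hQ.pow b) (pow_ge h hP h1 a)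
    (pow_ge h hQ h2 b)
  have h7 := h.mul_ge ((hP.pow a).mul (hQ.pow b)) (hc.pow u) h6 h4
  have h8 := h.mul_ge (isHomogeneous_C (Fin 3) r)
    (((hP.pow a).mul (hQ.pow b)).mul (hc.pow u)) h5 h7
  refine h8.imp_right (fun h9 => le_trans ?_ h9)
  have h10 : ((m * j : ℕ) : ℤ) ≤ ((m * a + j * b : ℕ) : ℤ) := by
    exact_mod_cast h3
  refine le_trans h10 (le_of_eq ?_)
  push_cast
  ring

/-- The expansion in the local coordinates. -/
theorem expand (c P Q : MvPolynomial (Fin 3) k) (e e' : ℕ)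
    (G : Fin 3 → MvPolynomial (Fin 2) k) (hc0 : c ≠ 0)
    (hG : ∀ (K : Type) [Field K] [Algebra k K] (x : Fin 3 → K),
      aeval x c ≠ 0 → ∀ i,
        x i / aeval x c =
          aeval ![aeval x P / (aeval x c) ^ e,
            aeval x Q / (aeval x c) ^ e'] (G i))
    {N : ℕ} {g : MvPolynomial (Fin 3) k} (hg : g.IsHomogeneous N)
    (M : ℕ) (hM : ∀ s ∈ (aeval G g).support,
      e * s 0 + e' * s 1 ≤ M) :
    g * c ^ M = ∑ s ∈ (aeval G g).support,
      C (coeff s (aeval G g)) *
        (P ^ s 0 * Q ^ s 1 * c ^ (N + M - (e * s 0 + e' * s 1))) := by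
  set K : Type := FractionRing (MvPolynomial (Fin 3) k) with hK
  have hinj : Function.Injective (algebraMap (MvPolynomial (Fin 3) k) K) :=
    IsFractionRing.injective (MvPolynomial (Fin 3) k) K
  set x : Fin 3 → K := fun i => algebraMap (MvPolynomial (Fin 3) k) K (X i)
    with hx
  have hev (q : MvPolynomial (Fin 3) k) :
      aeval x q = algebraMap (MvPolynomial (Fin 3) k) K q := by
    have h1 := MvPolynomial.aeval_algebraMap_apply (R := k) K
      (X : Fin 3 → MvPolynomial (Fin 3) k) q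
    rw [aeval_X_left_apply] at h1
    exact h1
  have hc : algebraMap (MvPolynomial (Fin 3) k) K c ≠ 0 := by
    intro h0
    exact hc0 (hinj (by rw [h0, map_zero]))
  have h1 := hG K x (by rw [hev]; exact hc)
  simp only [hev] at h1
  set t : K := algebraMap (MvPolynomial (Fin 3) k) K c with ht
  set y1 : K := algebraMap (MvPolynomial (Fin 3) k) K P / t ^ e with hy1
  set y2 : K := algebraMap (MvPolynomial (Fin 3) k) K Q / t ^ e' with hy2
  have h2 : aeval (fun i => x i / t) g = aeval ![y1, y2] (aeval G g) := by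
    rw [show (fun i => x i / t) = (fun i => aeval ![y1, y2] (G i)) from
      funext h1]
    exact (MvPolynomial.comp_aeval_apply G (aeval ![y1, y2]) g).symm
  have h3 := hom_scale x t hc hg
  rw [hev, h2, aeval_def, eval₂_eq', Finset.sum_mul] at h3
  refine hinj ?_
  rw [map_mul, ← h3, Finset.sum_mul, map_sum]
  refine Finset.sum_congr rfl (fun s hs => ?_)
  have h4 := hM s hs
  rw [Fin.prod_univ_two, Matrix.cons_val_zero, Matrix.cons_val_one,
    Matrix.cons_val_zero, map_pow, ← ht, mul_assoc, ← pow_add, map_mul,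
    map_mul, map_mul, map_pow, map_pow, map_pow, ← ht, hy1, hy2]
  have h5 : N + M = (N + M - (e * s 0 + e' * s 1)) + e * s 0 + e' * s 1 := by
    omega
  have h6 : t ^ (N + M) = t ^ (N + M - (e * s 0 + e' * s 1)) *
      (t ^ e) ^ s 0 * (t ^ e') ^ s 1 := by
    rw [← pow_mul, ← pow_mul, ← pow_add, ← pow_add, ← h5]
  have h7 : algebraMap (MvPolynomial (Fin 3) k) K
      (C (coeff s (aeval G g))) = algebraMap k K (coeff s (aeval G g)) := by
    rw [IsScalarTower.algebraMap_apply k (MvPolynomial (Fin 3) k) K]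
    rfl
  have h8 : (t ^ e) ^ s 0 ≠ 0 := pow_ne_zero _ (pow_ne_zero _ hc)
  have h9 : (t ^ e') ^ s 1 ≠ 0 := pow_ne_zero _ (pow_ne_zero _ hc)
  rw [h6, h7, div_pow, div_pow]
  generalize t ^ (N + M - (e * s 0 + e' * s 1)) = T
  generalize (t ^ e) ^ s 0 = A at h8 ⊢
  generalize (t ^ e') ^ s 1 = B at h9 ⊢
  exact cancel_aux _ _ _ _ _ _ h8 h9

/-- Local conditions from two local coordinates. -/
theorem t_LOCG : S_LOCG := by
  intro k _ _ _ F d v hF hv c P Q e e' m j G hc hFc hvc hP hQ h1 h2 hm hj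
    hG N
  classical
  have hw : IsW F v := hv.1
  set I : Finset (ℕ × ℕ) := (Finset.range j ×ˢ Finset.range m).filter
    (fun x => m * x.1 + j * x.2 < m * j) with hI
  have hcard : I.card = Lc m j := rfl
  let idx : Fin (Lc m j) → (Fin 2 →₀ ℕ) := fun i =>
    Finsupp.equivFunOnFinite.symm
      ![(I.equivFin.symm (Fin.cast hcard.symm i)).1.1,
        (I.equivFin.symm (Fin.cast hcard.symm i)).1.2]
  let Λ : MvPolynomial (Fin 3) k →ₗ[k] (Fin (Lc m j) → k) :=
    { toFun := fun g i => coeff (idx i) (aeval G g)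
      map_add' := fun g g' => by
        funext i
        simp
      map_smul' := fun r g => by
        funext i
        simp }
  refine ⟨Λ, fun g hg hL => ?_⟩
  have hsup (s : Fin 2 →₀ ℕ) (hs : s ∈ (aeval G g).support) :
      m * j ≤ m * s 0 + j * s 1 := by
    by_contra hlt
    rw [not_le] at hlt
    have ha : s 0 < j := by
      by_contra hge
      rw [not_lt] at hge
      have := Nat.mul_le_mul_left m hge
      omega
    have hb : s 1 < m := by
      by_contra hge
      rw [not_lt] at hge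
      have := Nat.mul_le_mul_left j hge
      rw [Nat.mul_comm j m] at this
      omega
    have hmem : (s 0, s 1) ∈ I := by
      rw [hI, Finset.mem_filter, Finset.mem_product, Finset.mem_range,
        Finset.mem_range]
      exact ⟨⟨ha, hb⟩, hlt⟩
    have h3 := congrFun hL (Fin.cast hcard (I.equivFin ⟨(s 0, s 1), hmem⟩))
    have h4 : idx (Fin.cast hcard (I.equivFin ⟨(s 0, s 1), hmem⟩)) = s := by
      ext i
      fin_cases i
      · simp [idx]
      · simp [idx]
    have h5 : coeff (idx (Fin.cast hcard (I.equivFin ⟨(s 0, s 1), hmem⟩)))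
      (aeval G g) = 0 := h3
    rw [h4] at h5
    exact (MvPolynomial.mem_support_iff.1 hs) h5
  set M : ℕ := ∑ s ∈ (aeval G g).support, (e * s 0 + e' * s 1) with hMdef
  have hM : ∀ s ∈ (aeval G g).support, e * s 0 + e' * s 1 ≤ M :=
    fun s hs => Finset.single_le_sum
      (f := fun s : Fin 2 →₀ ℕ => e * s 0 + e' * s 1)
      (fun _ _ => Nat.zero_le _) hs
  have h3 := expand c P Q e e' G (ne_zero_of_not_dvd hFc) hG hg M hM
  have h4 := hw.sum_ge (n := N + M) (c := ((m * j : ℕ) : ℤ))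
    (aeval G g).support
    (fun s => C (coeff s (aeval G g)) *
        (P ^ s 0 * Q ^ s 1 * c ^ (N + M - (e * s 0 + e' * s 1))))
    (fun s hs => by
      have h5 := (isHomogeneous_C (Fin 3) (coeff s (aeval G g))).mul
        (((hP.pow (s 0)).mul (hQ.pow (s 1))).mul
          (hc.pow (N + M - (e * s 0 + e' * s 1))))
      have h6 := hM s hs
      have h7 : 0 + (e * s 0 + e' * s 1 +
        1 * (N + M - (e * s 0 + e' * s 1))) = N + M := by omega
      rw [h7] at h5
      exact h5)
    (fun s hs => term_ge hw hc hP hQ h1 h2 _ _ _ _ (hsup s hs))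
  rw [← h3] at h4
  have hcM : ¬ F ∣ c ^ M := not_dvd_pow hF hFc M
  by_cases hFg : F ∣ g
  · exact Or.inl hFg
  right
  have h5 := h4.resolve_left (not_dvd_mul hF hFg hcM)
  rw [hw.mul N (1 * M) g (c ^ M) hg (hc.pow M) hFg hcM,
    hw.pow hF hc hFc M, hvc, smul_zero, add_zero] at h5
  exact h5

end Pool.Agent.NH95.QP.Locg
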