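import Pool.Agent.NH95.QP.Base

/-!
Project QP (MP_651af7_nt): tangent lines of the conic.
-/

namespace Pool.Agent.NH95.QP.Nh

open MvPolynomial Pool.Agent.NH95.QP

variable {k : Type} [Field k]

theorem eval_HL (p q : k) (x : Fin 3 → k) :
    eval x (HL p q) = p ^ 2 * x 0 + p * q * x 1 + q ^ 2 * x 2 := by
  simp [HL]

theorem eval_Dsc (x : Fin 3 → k) :
    eval x (Dsc k) = x 1 ^ 2 - 4 * x 0 * x 2 := by
  simp [Dsc]

/-- The polarisation. -/
def T (p q r s : k) (x : Fin 3 → k) : k :=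
  2 * (p * r) * x 0 + (p * s + q * r) * x 1 + 2 * (q * s) * x 2

/-- If the three numbers vanish then the point is zero. -/
theorem zero_of (p q r s : k) (x : Fin 3 → k) (hD : p * s - q * r ≠ 0)
    (h1 : p ^ 2 * x 0 + p * q * x 1 + q ^ 2 * x 2 = 0)
    (h2 : r ^ 2 * x 0 + r * s * x 1 + s ^ 2 * x 2 = 0)
    (h3 : T p q r s x = 0) : x = 0 := by
  have hD2 : (p * s - q * r) ^ 2 ≠ 0 := pow_ne_zero 2 hD
  unfold T at h3
  have e0 : (p * s - q * r) ^ 2 * x 0 = 0 := by
    linear_combination s ^ 2 * h1 - s * q * h3 + q ^ 2 * h2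
  have e1 : (p * s - q * r) ^ 2 * x 1 = 0 := by
    linear_combination (-2 * s * r) * h1 + (s * p + q * r) * h3
      - 2 * q * p * h2
  have e2 : (p * s - q * r) ^ 2 * x 2 = 0 := by
    linear_combination r ^ 2 * h1 - r * p * h3 + p ^ 2 * h2
  funext i
  fin_cases i
  · exact (mul_eq_zero.1 e0).resolve_left hD2
  · exact (mul_eq_zero.1 e1).resolve_left hD2
  · exact (mul_eq_zero.1 e2).resolve_left hD2

theorem t_NH2 : S_NH2 := by
  intro k _ _ p q r s x hD hx h1 h2 h3
  rw [eval_HL] at h1 h2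
  rw [eval_Dsc] at h3
  apply hx
  refine zero_of p q r s x hD h1 h2 ?_
  have h4 : T p q r s x ^ 2 = 0 := by
    unfold T
    linear_combination 4 * (r ^ 2 * x 0 + r * s * x 1 + s ^ 2 * x 2) * h1
      + (p * s - q * r) ^ 2 * h3
  exact pow_eq_zero_iff (two_ne_zero) |>.1 h4

theorem t_NH3 : S_NH3 := by
  intro k _ _ p q r s a b x hD hE hG h1 h2 h3
  rw [eval_HL] at h1 h2 h3
  refine zero_of p q r s x hD h1 h2 ?_
  have h4 : (a * s - b * r) * (p * b - q * a) * T p q r s x = 0 := by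
    unfold T
    linear_combination (p * s - q * r) ^ 2 * h3
      - (a * s - b * r) ^ 2 * h1 - (p * b - q * a) ^ 2 * h2
  have hG' : a * s - b * r ≠ 0 := fun h => hG (by linear_combination -h)
  exact (mul_eq_zero.1 h4).resolve_left (mul_ne_zero hG' hE)

end Pool.Agent.NH95.QP.Nh
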