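import Pool.Agent.NH95.QP.Stm

/-! QP-NUM: a numerical inequality and a polynomial identity. -/

set_option autoImplicit false

namespace Pool.Agent.NH95.QP.Num

theorem t_NUM : S_NUM := by
  intro m j p q d h1 h2 h3 h4 h5 h6 h7 h8
  by_cases h9 : 2 * m + j + p + q ≤ 4 * d
  · exact Or.inl h9
  right
  have h9' : 4 * d + 1 ≤ 2 * m + j + p + q := by
    have := not_le.1 h9
    linarith
  have hE : (0 : ℤ) ≤ (d - 1) * ((q - 1) - (d - 2 - 2 * (m - 1) + (2 * d - j) + (d - p))) :=
    mul_nonneg (by linarith) (by linarith)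
  have key : (m - 1) + (2 * d - j) * (d - 1 - (m - 1)) + (d - p) * (d - 1 - (q - 1)) ≤ 0 := by
    nlinarith
  have t1 : 0 ≤ (2 * d - j) * (d - 1 - (m - 1)) := mul_nonneg (by linarith) (by linarith)
  have t2 : 0 ≤ (d - p) * (d - 1 - (q - 1)) := mul_nonneg (by linarith) (by linarith)
  have hm : m = 1 := by linarith
  have hx : (2 * d - j) * (d - 1 - (m - 1)) = 0 := by linarith
  have hj : j = 2 * d := by
    rcases mul_eq_zero.1 hx with h | h
    · linarith
    · exfalso
      linarith
  have hy : (d - p) * (d - 1 - (q - 1)) = 0 := by linarith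
  have hp : p = d := by
    rcases mul_eq_zero.1 hy with h | h
    · linarith
    · linarith
  refine ⟨hm, hj, hp, ?_⟩
  rw [hm, hj, hp] at h8 h9'
  have h10 : (d - 1) * (q - 1) ≤ (d - 1) * (d - 2) := by linarith
  have h11 : q - 1 ≤ d - 2 := le_of_mul_le_mul_left h10 (by linarith)
  linarith

theorem t_PID : S_PID := by
  intro k _ _ _ d G κ a hd heq
  obtain ⟨s, hs⟩ := IsAlgClosed.exists_pow_nat_eq κ (n := 2) two_pos
  set W : Polynomial k := (Polynomial.X - Polynomial.C a) ^ d with hW
  have h4 : (4 : k) ≠ 0 := by norm_num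
  have hUV : (G - Polynomial.C s * W) * (G + Polynomial.C s * W) =
      Polynomial.C 4 * Polynomial.X := by
    have h1 : Polynomial.C κ * (Polynomial.X - Polynomial.C a) ^ (2 * d) =
        (Polynomial.C s * W) ^ 2 := by
      rw [← hs, map_pow, mul_pow, hW, ← pow_mul, mul_comm d 2]
    rw [h1] at heq
    linear_combination heq
  have hdeg : (Polynomial.C 4 * Polynomial.X : Polynomial k).natDegree = 1 :=
    Polynomial.natDegree_C_mul_X 4 h4
  have hne : (Polynomial.C 4 * Polynomial.X : Polynomial k) ≠ 0 := by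
    intro h
    rw [h, Polynomial.natDegree_zero] at hdeg
    exact absurd hdeg (by norm_num)
  have hU : G - Polynomial.C s * W ≠ 0 := by
    intro h
    rw [h, zero_mul] at hUV
    exact hne hUV.symm
  have hV : G + Polynomial.C s * W ≠ 0 := by
    intro h
    rw [h, mul_zero] at hUV
    exact hne hUV.symm
  have hsum : (G - Polynomial.C s * W).natDegree + (G + Polynomial.C s * W).natDegree = 1 := by
    rw [← Polynomial.natDegree_mul hU hV, hUV, hdeg]
  by_cases hs0 : s = 0
  · have h5 : (G - Polynomial.C s * W).natDegree = (G + Polynomial.C s * W).natDegree := by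
      rw [hs0, map_zero, zero_mul, sub_zero, add_zero]
    omega
  · have h5 : (G + Polynomial.C s * W) - (G - Polynomial.C s * W) =
        Polynomial.C (2 * s) * W := by
      rw [map_mul, show (Polynomial.C 2 : Polynomial k) = 2 from map_ofNat _ 2]
      ring
    have h6 : (Polynomial.C (2 * s) * W).natDegree = d := by
      rw [Polynomial.natDegree_C_mul (mul_ne_zero two_ne_zero hs0), hW,
        Polynomial.natDegree_pow, Polynomial.natDegree_X_sub_C, mul_one]
    have h7 := Polynomial.natDegree_sub_le (G + Polynomial.C s * W) (G - Polynomial.C s * W)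
    rw [h5, h6] at h7
    omega

end Pool.Agent.NH95.QP.Num
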