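import Pool.Agent.NH95.QP.Base

/-!
Project QP (MP_651af7_nt): the mass of a stable place.
-/

namespace Pool.Agent.NH95.QP

open MvPolynomial

namespace Pft

theorem key (h1 : S_GAL) (h2 : S_ADB) (h3 : S_RDM)
    (F0 : MvPolynomial (Fin 3) ℚ) (d : ℕ) (ι : Type) [Fintype ι]
    (w : ι → MvPolynomial (Fin 3) QQ → ℝ) (τ : ι → ℝ)
    (v : ι → MvPolynomial (Fin 3) QQ → ℤ)
    (v0 : MvPolynomial (Fin 3) QQ → ℤ) (hF : Curve (rat F0) d)
    (hw : ∀ i, IsW (rat F0) (w i)) (hP : ProdForm F0 w)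
    (hτ : ∀ i, 0 ≤ τ i)
    (hwv : ∀ i (n : ℕ) (g : MvPolynomial (Fin 3) QQ), g.IsHomogeneous n →
      ¬ rat F0 ∣ g → w i g = τ i * v i g)
    (hv0 : IsPlace (rat F0) v0) (hst : Stab (rat F0) v0)
    (T : Finset ι) (hT : ∀ i ∈ T, ¬ Diff (rat F0) (v i) v0) (N : ℕ)
    (hN : d ≤ N) :
    (∑ i ∈ T, τ i) * ((rdim d N : ℝ) - 1) ≤ N := by
  classical
  have hd : 1 ≤ d := hF.2.2
  have hr := h3 d N hd hN
  have hpos : 1 ≤ rdim d N := by
    have hd' : (1 : ℤ) ≤ d := by exact_mod_cast hd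
    have hN' : (d : ℤ) ≤ N := by exact_mod_cast hN
    have : (0 : ℤ) < 2 * (rdim d N : ℤ) := by
      rw [hr]
      nlinarith [mul_le_mul_of_nonneg_right hN' (by omega : (0 : ℤ) ≤ d)]
    omega
  obtain ⟨b, hb, hind, hv⟩ := h2 QQ (rat F0) d N v0 hF hv0 hN
  obtain ⟨j0, hj0⟩ : ∃ j0 : Fin (rdim d N), (j0 : ℕ) = rdim d N - 1 :=
    ⟨⟨rdim d N - 1, by omega⟩, rfl⟩
  have hgd : ¬ rat F0 ∣ b j0 := by
    intro hdv
    have h4 := hind (Pi.single j0 1) (by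
      have h5 : ∑ j, C ((Pi.single j0 1 : Fin (rdim d N) → QQ) j) * b j
          = b j0 := by
        rw [Finset.sum_eq_single j0]
        · rw [Pi.single_eq_same, map_one, one_mul]
        · intro j _ hj
          rw [Pi.single_eq_of_ne hj, map_zero, zero_mul]
        · intro h
          exact absurd (Finset.mem_univ _) h
      rw [h5]
      exact hdv)
    have h6 := congrFun h4 j0
    rw [Pi.single_eq_same] at h6
    exact one_ne_zero h6
  obtain ⟨r, g0, hr1, hg0, hg0d, hval⟩ :=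
    h1 F0 d v0 hF hv0 hst N (b j0) (hb j0) hgd
  have hrat : (rat g0).IsHomogeneous (N * r) := hg0.map _
  have hpf := hP (N * r) g0 hg0 hg0d
  have hge : ∀ i, (if i ∈ T then τ i * ((r : ℝ) * (v0 (b j0) : ℝ)) else 0) ≤
      w i (rat g0) := by
    intro i
    split_ifs with hi
    · rw [hwv i (N * r) (rat g0) hrat hg0d]
      have h7 : v i (rat g0) = v0 (rat g0) := by
        by_contra hne
        exact hT i hi ⟨N * r, rat g0, hrat, hg0d, hne⟩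
      rw [h7, hval]
      push_cast
      exact le_rfl
    · exact (hw i).nonneg (N * r) _ hrat hg0d
  have hsum : (∑ i ∈ T, τ i) * ((r : ℝ) * (v0 (b j0) : ℝ)) ≤ ((N * r : ℕ) : ℝ) := by
    have h8 : (∑ i ∈ T, τ i) * ((r : ℝ) * (v0 (b j0) : ℝ)) =
        ∑ i, if i ∈ T then τ i * ((r : ℝ) * (v0 (b j0) : ℝ)) else 0 := by
      rw [Finset.sum_ite_mem, Finset.univ_inter, Finset.sum_mul]
    rw [h8]
    exact (Finset.sum_le_sum fun i _ => hge i).trans hpf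
  have hvj := hv j0
  have hvr : (rdim d N : ℝ) - 1 ≤ (v0 (b j0) : ℝ) := by
    have h9 : ((rdim d N : ℤ) - 1) ≤ v0 (b j0) := by
      rw [hj0] at hvj
      omega
    exact_mod_cast h9
  have hr0 : (0 : ℝ) < r := by exact_mod_cast hr1
  have hS0 : 0 ≤ ∑ i ∈ T, τ i := Finset.sum_nonneg fun i _ => hτ i
  have h10 : (∑ i ∈ T, τ i) * (v0 (b j0) : ℝ) ≤ N := by
    have h11 : ((∑ i ∈ T, τ i) * (v0 (b j0) : ℝ)) * r ≤ N * r := by
      push_cast at hsum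
      calc ((∑ i ∈ T, τ i) * (v0 (b j0) : ℝ)) * r
          = (∑ i ∈ T, τ i) * ((r : ℝ) * (v0 (b j0) : ℝ)) := by ring
        _ ≤ N * r := hsum
    exact le_of_mul_le_mul_right h11 hr0
  exact (mul_le_mul_of_nonneg_left hvr hS0).trans h10

end Pft

theorem t_PFT (h1 : S_GAL) (h2 : S_ADB) (h3 : S_RDM) : S_PFT := by
  intro F0 d ι _ w τ v v0 hF hw hP hτ hwv hv0 hst T hT
  have hd : 1 ≤ d := hF.2.2
  have hkey := Pft.key h1 h2 h3 F0 d ι w τ v v0 hF hw hP hτ hwv hv0 hst T hT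
  by_contra hcon
  rw [not_le] at hcon
  obtain ⟨N, hN⟩ := exists_nat_gt (max (d : ℝ)
    ((∑ i ∈ T, τ i) * (((d : ℝ) - 1) * ((d : ℝ) - 2)) /
      (2 * ((∑ i ∈ T, τ i) * d - 1))))
  have hNd : (d : ℝ) < N := lt_of_le_of_lt (le_max_left _ _) hN
  have hN2 := lt_of_le_of_lt (le_max_right _ _) hN
  have hdN : d ≤ N := by
    have : d < N := by exact_mod_cast hNd
    omega
  have he : 0 < 2 * ((∑ i ∈ T, τ i) * d - 1) := by linarith
  rw [div_lt_iff₀ he] at hN2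
  have h4 := hkey N hdN
  have h5 : 2 * (rdim d N : ℝ) = 2 * N * d + 2 - ((d : ℝ) - 1) * ((d : ℝ) - 2) := by
    have h6 := h3 d N hd hdN
    exact_mod_cast h6
  have h7 : (∑ i ∈ T, τ i) * (2 * N * d - ((d : ℝ) - 1) * ((d : ℝ) - 2)) ≤ 2 * N := by
    have h8 : 2 * ((rdim d N : ℝ) - 1) = 2 * N * d - ((d : ℝ) - 1) * ((d : ℝ) - 2) := by
      linarith
    rw [← h8]
    calc (∑ i ∈ T, τ i) * (2 * ((rdim d N : ℝ) - 1))
        = 2 * ((∑ i ∈ T, τ i) * ((rdim d N : ℝ) - 1)) := by ring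
      _ ≤ 2 * N := by linarith
  have h9 : (∑ i ∈ T, τ i) * (2 * N * d - ((d : ℝ) - 1) * ((d : ℝ) - 2)) =
      (N : ℝ) * (2 * ((∑ i ∈ T, τ i) * d - 1)) + 2 * N -
        (∑ i ∈ T, τ i) * (((d : ℝ) - 1) * ((d : ℝ) - 2)) := by ring
  rw [h9] at h7
  linarith

end Pool.Agent.NH95.QP
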