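import Pool.Agent.NH95.QP.Base

/-!
Project QP, job QP-POLY (helper20): functions with poles at one rational place.
-/

set_option autoImplicit false

namespace Pool.Agent.NH95.QP.Poly

open MvPolynomial

/-- the claim of the induction -/
theorem aux (h1 : S_RES) (h2 : S_BZ1) (k : Type) [Field k] [IsAlgClosed k] [CharZero k]
    (F : MvPolynomial (Fin 3) k) (d : ℕ) (v : MvPolynomial (Fin 3) k → ℤ) (hF : Curve F d)
    (hv : IsPlace F v) (A B : MvPolynomial (Fin 3) k) (hA : A.IsHomogeneous 1)
    (hB : B.IsHomogeneous 1) (hA0 : ¬ F ∣ A) (hB0 : ¬ F ∣ B) (vA : v A = d)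
    (vB : v B = (d : ℤ) - 1) (s m : ℕ) : ∀ h : MvPolynomial (Fin 3) k, h.IsHomogeneous s →
      (F ∣ h ∨ ((s : ℤ) * d - s ≤ v h ∧ (s : ℤ) * d - v h < m)) →
      ∃ G : Polynomial k, G.natDegree ≤ s ∧
        F ∣ h - ∑ i ∈ Finset.range (s + 1), C (G.coeff i) * B ^ i * A ^ (s - i) := by
  have hdiv : ∀ h : MvPolynomial (Fin 3) k, F ∣ h → ∃ G : Polynomial k, G.natDegree ≤ s ∧
      F ∣ h - ∑ i ∈ Finset.range (s + 1), C (G.coeff i) * B ^ i * A ^ (s - i) := by
    intro h hh
    refine ⟨0, by simp, ?_⟩
    have : ∑ i ∈ Finset.range (s + 1), C ((0 : Polynomial k).coeff i) * B ^ i * A ^ (s - i) =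
        (0 : MvPolynomial (Fin 3) k) := by
      refine Finset.sum_eq_zero fun i _ => ?_
      rw [Polynomial.coeff_zero, map_zero, zero_mul, zero_mul]
    rw [this, sub_zero]
    exact hh
  induction m with
  | zero =>
    intro h hh hc
    rcases hc with hc | ⟨-, hc⟩
    · exact hdiv h hc
    · by_cases hd : F ∣ h
      · exact hdiv h hd
      · have := h2 k F d v hF hv s h hh hd
        push_cast at hc
        linarith
  | succ m ih =>
    intro h hh hc
    by_cases hd : F ∣ h
    · exact hdiv h hd
    · obtain ⟨hc1, hc2⟩ := hc.resolve_left hd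
      have hb := h2 k F d v hF hv s h hh hd
      obtain ⟨k0, hk0⟩ := Int.eq_ofNat_of_zero_le (sub_nonneg.2 hb)
      have hk1 : k0 ≤ s := by
        have : (k0 : ℤ) ≤ s := by linarith
        exact_mod_cast this
      have hBk : (B ^ k0).IsHomogeneous k0 := by
        have := hB.pow k0
        rwa [one_mul] at this
      have hAk : (A ^ (s - k0)).IsHomogeneous (s - k0) := by
        have := hA.pow (s - k0)
        rwa [one_mul] at this
      have hh0 : (B ^ k0 * A ^ (s - k0)).IsHomogeneous s := by
        have := hBk.mul hAk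
        rwa [Nat.add_sub_cancel' hk1] at this
      have nB : ¬ F ∣ B ^ k0 := not_dvd_pow hF hB0 k0
      have nA : ¬ F ∣ A ^ (s - k0) := not_dvd_pow hF hA0 _
      have hv0 : v (B ^ k0 * A ^ (s - k0)) = v h := by
        rw [hv.1.mul k0 (s - k0) _ _ hBk hAk nB nA, hv.1.pow hF hB hB0, hv.1.pow hF hA hA0, vA, vB,
          nsmul_eq_mul, nsmul_eq_mul, Nat.cast_sub hk1]
        linear_combination hk0
      obtain ⟨c, hc0, hc3⟩ := h1 k F d v hF hv s h (B ^ k0 * A ^ (s - k0)) hh hh0 hd
        (not_dvd_mul hF nB nA) hv0.symm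
      have hh1 : (h - C c * (B ^ k0 * A ^ (s - k0))).IsHomogeneous s := hh.sub (C_mul_hom hh0 c)
      obtain ⟨G, hG1, hG2⟩ := ih _ hh1 (by
        rcases hc3 with hc3 | hc3
        · exact Or.inl hc3
        · right
          rw [hv0] at hc3
          push_cast at hc2
          constructor
          · linarith
          · omega)
      refine ⟨G + Polynomial.monomial k0 c, ?_, ?_⟩
      · exact Polynomial.natDegree_add_le_of_degree_le hG1
          ((Polynomial.natDegree_monomial_le c).trans hk1)
      · have e : ∑ i ∈ Finset.range (s + 1), C ((G + Polynomial.monomial k0 c).coeff i) * B ^ i *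
            A ^ (s - i) = ∑ i ∈ Finset.range (s + 1), C (G.coeff i) * B ^ i * A ^ (s - i) +
            C c * (B ^ k0 * A ^ (s - k0)) := by
          have e1 : ∀ i ∈ Finset.range (s + 1), C ((G + Polynomial.monomial k0 c).coeff i) * B ^ i *
              A ^ (s - i) = C (G.coeff i) * B ^ i * A ^ (s - i) +
              (if k0 = i then C c * (B ^ i * A ^ (s - i)) else 0) := by
            intro i _
            rw [Polynomial.coeff_add, Polynomial.coeff_monomial, map_add]
            split_ifs
            · ring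
            · rw [map_zero]
              ring
          rw [Finset.sum_congr rfl e1, Finset.sum_add_distrib, Finset.sum_ite_eq,
            if_pos (Finset.mem_range.2 (Nat.lt_succ_of_le hk1))]
        rw [e]
        have e2 : h - (∑ i ∈ Finset.range (s + 1), C (G.coeff i) * B ^ i * A ^ (s - i) +
            C c * (B ^ k0 * A ^ (s - k0))) = h - C c * (B ^ k0 * A ^ (s - k0)) -
            ∑ i ∈ Finset.range (s + 1), C (G.coeff i) * B ^ i * A ^ (s - i) := by ring
        rw [e2]
        exact hG2

theorem t_POLY (h1 : S_RES) (h2 : S_BZ1) : S_POLY := by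
  intro k _ _ _ F d v hF hv A B hA hB hA0 hB0 vA vB n g hg
  have hd1 : 1 ≤ d := hF.2.2
  have hn : n ≤ n * d := Nat.le_mul_of_pos_right n hd1
  have hAp : (A ^ (n * d - n)).IsHomogeneous (n * d - n) := by
    have := hA.pow (n * d - n)
    rwa [one_mul] at this
  have hh : (g * A ^ (n * d - n)).IsHomogeneous (n * d) := by
    have := hg.mul hAp
    rwa [Nat.add_sub_cancel' hn] at this
  by_cases hg0 : F ∣ g
  · exact aux h1 h2 k F d v hF hv A B hA hB hA0 hB0 vA vB (n * d) 0 _ hh
      (Or.inl (hg0.mul_right _))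
  · have nA : ¬ F ∣ A ^ (n * d - n) := not_dvd_pow hF hA0 _
    have hval : v (g * A ^ (n * d - n)) = v g + ((n * d : ℤ) - n) * d := by
      rw [hv.1.mul n (n * d - n) _ _ hg hAp hg0 nA, hv.1.pow hF hA hA0, vA, nsmul_eq_mul,
        Nat.cast_sub hn]
      push_cast
      ring
    have h0 := hv.1.nonneg n g hg hg0
    refine aux h1 h2 k F d v hF hv A B hA hB hA0 hB0 vA vB (n * d)
      (((n * d : ℤ) * d - v (g * A ^ (n * d - n))).toNat + 1) _ hh (Or.inr ⟨?_, ?_⟩)
    · rw [hval]
      push_cast
      nlinarith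
    · push_cast
      have := Int.self_le_toNat ((n * d : ℤ) * d - v (g * A ^ (n * d - n)))
      linarith

end Pool.Agent.NH95.QP.Poly
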