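import Pool.Agent.NH95.QP.Base

set_option autoImplicit false

namespace Pool.Agent.NH95.QP

open MvPolynomial

namespace Rdm

lemma two_choose (n : ℕ) : 2 * ((n + 2).choose 2 : ℤ) = ((n : ℤ) + 2) * (n + 1) := by
  have h1 : (n + 2).choose 2 = (n + 2) * (n + 1) / 2 := Nat.choose_two_right (n + 2)
  have h2 : 2 ∣ (n + 2) * (n + 1) := by
    have h3 := Nat.even_mul_succ_self (n + 1)
    have h4 : (n + 1) * (n + 1 + 1) = (n + 2) * (n + 1) := by ring
    rw [h4] at h3
    exact h3.two_dvd
  have h5 : 2 * (n + 2).choose 2 = (n + 2) * (n + 1) := by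
    rw [h1]
    exact Nat.mul_div_cancel' h2
  exact_mod_cast h5

end Rdm

/-- The value of `rdim`. -/
theorem t_RDM : S_RDM := by
  intro d N hd hN
  obtain ⟨M, rfl⟩ := Nat.exists_eq_add_of_le hN
  have h1 : d + M + 2 - d = M + 2 := by omega
  have h2 : (M + 2).choose 2 ≤ (d + M + 2).choose 2 := Nat.choose_le_choose 2 (by omega)
  unfold rdim
  rw [h1, Nat.cast_sub h2, mul_sub, Rdm.two_choose, Rdm.two_choose]
  push_cast
  ring

/-- Independent families modulo `F` are small. -/
theorem t_CNT (h1 : S_DIM) (h2 : S_RDM) : S_CNT := by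
  intro k _ F d N κ _ b hF hN hb hind
  obtain ⟨s, hs, hi, hspan⟩ := h1 k F d N hF hN
  choose c hc using fun j => hspan (b j) (hb j)
  have hinj : Function.Injective (Fintype.linearCombination k c) := by
    rw [injective_iff_map_eq_zero]
    intro a ha
    apply hind a
    rw [Fintype.linearCombination_apply] at ha
    have e1 : ∑ j, C (a j) * b j =
        ∑ j, C (a j) * (b j - ∑ i, C (c j i) * monomial (s i) (1 : k)) +
          ∑ i, C ((∑ j, a j • c j) i) * monomial (s i) (1 : k) := by
      have e2 : ∑ i, C ((∑ j, a j • c j) i) * monomial (s i) (1 : k) =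
          ∑ j, C (a j) * ∑ i, C (c j i) * monomial (s i) (1 : k) := by
        simp only [Finset.mul_sum]
        rw [Finset.sum_comm]
        refine Finset.sum_congr rfl fun i _ => ?_
        rw [Finset.sum_apply, map_sum, Finset.sum_mul]
        refine Finset.sum_congr rfl fun j _ => ?_
        rw [Pi.smul_apply, smul_eq_mul, map_mul, mul_assoc]
      rw [e2, ← Finset.sum_add_distrib]
      refine Finset.sum_congr rfl fun j _ => ?_
      ring
    rw [e1, ha]
    refine dvd_add (Finset.dvd_sum fun j _ => (hc j).mul_left _) ?_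
    simp
  have h3 := LinearMap.finrank_le_finrank_of_injective hinj
  rw [Module.finrank_fintype_fun_eq_card, Module.finrank_fintype_fun_eq_card,
    Fintype.card_fin] at h3
  have h4 := h2 d N hF.2.2 hN
  have h5 : (0 : ℤ) ≤ ((d : ℤ) - 1) * ((d : ℤ) - 2) := by
    have hd := hF.2.2
    rcases Nat.lt_or_ge d 2 with hlt | hge
    · have : d = 1 := by omega
      subst this
      norm_num
    · have h6 : (2 : ℤ) ≤ d := by exact_mod_cast hge
      exact mul_nonneg (by linarith) (by linarith)
  have h6 : (rdim d N : ℤ) ≤ N * d + 1 := by nlinarith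
  have h7 : rdim d N ≤ N * d + 1 := by exact_mod_cast h6
  exact h3.trans h7

end Pool.Agent.NH95.QP
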