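import Pool.Agent.NH95.QP.Base

/-!
# Project QP: the residue field of a place is `k`
-/

set_option autoImplicit false

namespace Pool.Agent.NH95.QP.Res

open MvPolynomial

variable {k : Type} [Field k]

/-- the binary form in `g`, `h` of degree `T` with the coefficients of `P` -/
noncomputable def BF (g h : MvPolynomial (Fin 3) k) (T : ℕ) (P : Polynomial k) :
    MvPolynomial (Fin 3) k :=
  ∑ l ∈ Finset.range (T + 1), C (P.coeff l) * (g ^ l * h ^ (T - l))

theorem BF_sub (g h : MvPolynomial (Fin 3) k) (T : ℕ) (P Q : Polynomial k) :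
    BF g h T (P - Q) = BF g h T P - BF g h T Q := by
  unfold BF
  rw [← Finset.sum_sub_distrib]
  refine Finset.sum_congr rfl fun l _ => ?_
  rw [Polynomial.coeff_sub, map_sub, sub_mul]

theorem BF_C (g h : MvPolynomial (Fin 3) k) (T : ℕ) (r : k) (P : Polynomial k) :
    BF g h T (Polynomial.C r * P) = C r * BF g h T P := by
  unfold BF
  rw [Finset.mul_sum]
  refine Finset.sum_congr rfl fun l _ => ?_
  rw [Polynomial.coeff_C_mul, map_mul, mul_assoc]

theorem BF_zero (g h : MvPolynomial (Fin 3) k) (T : ℕ) : BF g h T 0 = 0 := by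
  unfold BF
  refine Finset.sum_eq_zero fun l _ => ?_
  rw [Polynomial.coeff_zero, map_zero, zero_mul]

theorem BF_X (g h : MvPolynomial (Fin 3) k) (T : ℕ) (P : Polynomial k) :
    BF g h (T + 1) (Polynomial.X * P) = g * BF g h T P := by
  unfold BF
  rw [Finset.sum_range_succ' _ (T + 1), Polynomial.coeff_X_mul_zero, map_zero, zero_mul, add_zero,
    Finset.mul_sum]
  refine Finset.sum_congr rfl fun l _ => ?_
  rw [Polynomial.coeff_X_mul, Nat.add_sub_add_right, pow_succ]
  ring

theorem BF_succ (g h : MvPolynomial (Fin 3) k) (T : ℕ) {P : Polynomial k}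
    (hP : P.natDegree ≤ T) : BF g h (T + 1) P = h * BF g h T P := by
  unfold BF
  rw [Finset.sum_range_succ, Polynomial.coeff_eq_zero_of_natDegree_lt (by omega), map_zero,
    zero_mul, add_zero, Finset.mul_sum]
  refine Finset.sum_congr rfl fun l hl => ?_
  have : T + 1 - l = (T - l) + 1 := by
    have := Finset.mem_range.1 hl
    omega
  rw [this, pow_succ]
  ring

theorem BF_hom {g h : MvPolynomial (Fin 3) k} {n : ℕ} (hg : g.IsHomogeneous n)
    (hh : h.IsHomogeneous n) (T : ℕ) (P : Polynomial k) : (BF g h T P).IsHomogeneous (n * T) := by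
  unfold BF
  refine IsHomogeneous.sum _ _ _ fun l hl => C_mul_hom ?_ _
  have h1 := (hg.pow l).mul (hh.pow (T - l))
  have h2 : n * l + n * (T - l) = n * T := by
    rw [← mul_add]
    congr 1
    have := Finset.mem_range.1 hl
    omega
  rwa [h2] at h1

theorem BF_val [IsAlgClosed k] {F : MvPolynomial (Fin 3) k} {d : ℕ}
    {v : MvPolynomial (Fin 3) k → ℤ} (hF : Curve F d) (hv : IsW F v) {n : ℕ}
    {g h : MvPolynomial (Fin 3) k} (hg : g.IsHomogeneous n) (hh : h.IsHomogeneous n)
    (hh0 : ¬ F ∣ h) (H : ∀ c : k, ¬ F ∣ g - C c * h ∧ v (g - C c * h) = v h) (T : ℕ) :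
    ∀ P : Polynomial k, P ≠ 0 → P.natDegree ≤ T →
      ¬ F ∣ BF g h T P ∧ v (BF g h T P) = T * v h := by
  induction T with
  | zero =>
    intro P hP hd
    have h1 : BF g h 0 P = C (P.coeff 0) := by
      unfold BF
      rw [zero_add, Finset.sum_range_one]
      simp
    have h2 : P.coeff 0 ≠ 0 := by
      intro h0
      apply hP
      rw [Polynomial.eq_C_of_natDegree_le_zero hd, h0, map_zero]
    rw [h1]
    refine ⟨not_dvd_C hF h2, ?_⟩
    rw [hv.const _ h2]
    simp
  | succ T ih =>
    intro P hP hd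
    by_cases hdT : P.natDegree ≤ T
    · obtain ⟨h1, h2⟩ := ih P hP hdT
      rw [BF_succ g h T hdT]
      refine ⟨not_dvd_mul hF hh0 h1, ?_⟩
      rw [hv.mul n (n * T) _ _ hh (BF_hom hg hh T P) hh0 h1, h2]
      push_cast
      ring
    · have hdeg : P.natDegree = T + 1 := by omega
      obtain ⟨r, hr⟩ := IsAlgClosed.exists_root P (by
        rw [Polynomial.degree_eq_natDegree hP, hdeg]
        norm_cast)
      obtain ⟨P1, hP1⟩ := Polynomial.dvd_iff_isRoot.2 hr
      have h10 : P1 ≠ 0 := by
        rintro rfl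
        exact hP (by rw [hP1, mul_zero])
      have h11 : P1.natDegree ≤ T := by
        have := hdeg
        rw [hP1, Polynomial.natDegree_mul (Polynomial.X_sub_C_ne_zero r) h10,
          Polynomial.natDegree_X_sub_C] at this
        omega
      obtain ⟨h1, h2⟩ := ih P1 h10 h11
      have h3 : BF g h (T + 1) P = (g - C r * h) * BF g h T P1 := by
        rw [hP1, sub_mul, BF_sub, BF_X, BF_C, BF_succ g h T h11]
        ring
      rw [h3]
      refine ⟨not_dvd_mul hF (H r).1 h1, ?_⟩
      rw [hv.mul n (n * T) _ _ (hg.sub (C_mul_hom hh r)) (BF_hom hg hh T P1) (H r).1 h1, h2,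
        (H r).2]
      push_cast
      ring

/-- RES -/
theorem t_RES (h : S_CNT) : S_RES := by
  classical
  intro k _ _ _ F d v hF hP n g g' hg hg' hg0 hg0' hvv
  obtain ⟨hv, e, A, A', hA, hA', hA0, hA0', hAv⟩ := hP
  by_contra hcon
  push Not at hcon
  have H : ∀ c : k, ¬ F ∣ g - C c * g' ∧ v (g - C c * g') = v g' := by
    intro c
    by_cases hc : c = 0
    · rw [hc, map_zero, zero_mul, sub_zero]
      exact ⟨hg0, hvv⟩
    · obtain ⟨h1, h2⟩ := hcon c hc
      refine ⟨h1, le_antisymm h2 ?_⟩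
      have h3 := hv.sub_ge hF (c := v g') hg (C_mul_hom hg' c) (Or.inr hvv.ge)
        (Or.inr (hv.C_mul hF hg' hg0' hc).ge)
      exact h3.resolve_left h1
  have hA1 : 1 ≤ v A := by
    have := hv.nonneg e A' hA' hA0'
    omega
  have he : 1 ≤ e := by
    by_contra h0
    have h1 : e = 0 := by omega
    subst h1
    have h2 : A = C (A.coeff 0) := by
      rw [← totalDegree_eq_zero_iff_eq_C]
      exact hA.totalDegree (ne_zero_of_not_dvd hA0)
    have h3 : A.coeff 0 ≠ 0 := by
      intro h4
      rw [h4, map_zero] at h2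
      exact ne_zero_of_not_dvd hA0 h2
    rw [h2, hv.const _ h3] at hA1
    omega
  obtain ⟨i0, hz0, hz⟩ := hv.coord
  have hzh : (X i0 : MvPolynomial (Fin 3) k).IsHomogeneous 1 := isHomogeneous_X k i0
  have hd1 : 1 ≤ d := hF.2.2
  set T : ℕ := (e + n) * d + d with hT
  have hT1 : 1 ≤ T := by omega
  -- the family
  let b : Fin (T + 1) × Fin (T + 1) → MvPolynomial (Fin 3) k := fun x =>
    A ^ (x.1 : ℕ) * X i0 ^ (e * (T - x.1)) * (g ^ (x.2 : ℕ) * g' ^ (T - x.2))
  have hb : ∀ x, (b x).IsHomogeneous (T * (e + n)) := by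
    intro x
    have h1 := ((hA.pow (x.1 : ℕ)).mul (hzh.pow (e * (T - x.1)))).mul
      ((hg.pow (x.2 : ℕ)).mul (hg'.pow (T - x.2)))
    have h2 : e * (x.1 : ℕ) + 1 * (e * (T - x.1)) + (n * (x.2 : ℕ) + n * (T - x.2)) =
        T * (e + n) := by
      have h3 : e * (x.1 : ℕ) + e * (T - x.1) = e * T := by
        rw [← mul_add]
        congr 1
        have := x.1.2
        omega
      have h4 : n * (x.2 : ℕ) + n * (T - x.2) = n * T := by
        rw [← mul_add]
        congr 1
        have := x.2.2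
        omega
      rw [one_mul, h3, h4]
      ring
    rw [h2] at h1
    exact h1
  have hN : d ≤ T * (e + n) := by
    have h1 : T * 1 ≤ T * (e + n) := Nat.mul_le_mul_left T (by omega)
    omega
  have hnot : ¬ IndepMod F b := by
    intro hI
    have h1 := h k F d (T * (e + n)) (Fin (T + 1) × Fin (T + 1)) b hF hN hb hI
    rw [Fintype.card_prod, Fintype.card_fin] at h1
    have h2 : T * (e + n) * d ≤ T * T := by
      rw [mul_assoc]
      exact Nat.mul_le_mul_left T (by omega)
    nlinarith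
  unfold IndepMod at hnot
  push Not at hnot
  obtain ⟨c, hc, hc0⟩ := hnot
  -- the polynomials
  let P : Fin (T + 1) → Polynomial k := fun i =>
    ∑ l : Fin (T + 1), Polynomial.monomial (l : ℕ) (c (i, l))
  have hPc : ∀ i l : Fin (T + 1), (P i).coeff l = c (i, l) := by
    intro i l
    simp only [P]
    rw [Polynomial.finset_sum_coeff, Finset.sum_eq_single l]
    · rw [Polynomial.coeff_monomial, if_pos rfl]
    · intro j _ hj
      rw [Polynomial.coeff_monomial, if_neg]
      intro h1
      exact hj (Fin.ext h1)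
    · intro h1
      exact absurd (Finset.mem_univ l) h1
  have hPd : ∀ i, (P i).natDegree ≤ T := by
    intro i
    simp only [P]
    refine Polynomial.natDegree_sum_le_of_forall_le _ _ fun l _ => ?_
    refine (Polynomial.natDegree_monomial_le _).trans ?_
    have := l.2
    omega
  let t : Fin (T + 1) → MvPolynomial (Fin 3) k := fun i =>
    A ^ (i : ℕ) * X i0 ^ (e * (T - i)) * BF g g' T (P i)
  have hsum : ∑ j, C (c j) * b j = ∑ i, t i := by
    rw [Fintype.sum_prod_type]
    refine Finset.sum_congr rfl fun i _ => ?_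
    simp only [t, b, BF]
    rw [Finset.sum_range, Finset.mul_sum]
    refine Finset.sum_congr rfl fun l _ => ?_
    rw [hPc]
    ring
  have hth : ∀ i ∈ (Finset.univ : Finset (Fin (T + 1))), (t i).IsHomogeneous (T * (e + n)) := by
    intro x _
    have h1 := ((hA.pow (x : ℕ)).mul (hzh.pow (e * (T - x)))).mul (BF_hom hg hg' T (P x))
    have h2 : e * (x : ℕ) + 1 * (e * (T - x)) + n * T = T * (e + n) := by
      have h3 : e * (x : ℕ) + e * (T - x) = e * T := by
        rw [← mul_add]
        congr 1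
        have := x.2
        omega
      rw [one_mul, h3]
      ring
    rw [h2] at h1
    exact h1
  have htv : ∀ i, P i ≠ 0 → ¬ F ∣ t i ∧ v (t i) = i * v A + T * v g' := by
    intro i hi
    obtain ⟨h1, h2⟩ := BF_val hF hv hg hg' hg0' H T (P i) hi (hPd i)
    have h3 := not_dvd_pow hF hA0 (i : ℕ)
    have h4 := not_dvd_pow hF hz0 (e * (T - i))
    refine ⟨not_dvd_mul hF (not_dvd_mul hF h3 h4) h1, ?_⟩
    simp only [t]
    rw [hv.mul _ _ _ _ ((hA.pow (i : ℕ)).mul (hzh.pow (e * (T - i)))) (BF_hom hg hg' T (P i))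
      (not_dvd_mul hF h3 h4) h1, hv.mul _ _ _ _ (hA.pow (i : ℕ)) (hzh.pow (e * (T - i))) h3 h4,
      hv.pow hF hA hA0, hv.pow hF hzh hz0, hz, smul_zero, add_zero, h2, nsmul_eq_mul]
  -- the least index
  have hne : (Finset.univ.filter fun i : Fin (T + 1) => P i ≠ 0).Nonempty := by
    obtain ⟨⟨i, l⟩, hil⟩ := Function.ne_iff.1 hc0
    refine ⟨i, ?_⟩
    rw [Finset.mem_filter]
    refine ⟨Finset.mem_univ i, fun h0 => hil ?_⟩
    rw [← hPc, h0]
    simp
  obtain ⟨i1, hi1, hmin⟩ := Finset.exists_min_image _ (fun i : Fin (T + 1) => (i : ℕ)) hne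
  have hi1' : P i1 ≠ 0 := (Finset.mem_filter.1 hi1).2
  have hfin := hv.sum_dom hF Finset.univ t hth i1 (Finset.mem_univ i1) (htv i1 hi1').1 (by
    intro i _ hi
    by_cases h0 : P i = 0
    · left
      simp only [t]
      rw [h0, BF_zero, mul_zero]
      exact dvd_zero F
    · right
      rw [(htv i h0).2, (htv i1 hi1').2]
      have h1 : (i1 : ℕ) < i := by
        refine lt_of_le_of_ne (hmin i (Finset.mem_filter.2 ⟨Finset.mem_univ i, h0⟩)) ?_
        intro h2
        exact hi (Fin.ext h2.symm)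
      have h2 : ((i1 : ℕ) : ℤ) < ((i : ℕ) : ℤ) := by exact_mod_cast h1
      nlinarith)
  rw [hsum] at hc
  exact hfin.1 hc

end Pool.Agent.NH95.QP.Res
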