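import Pool.Agent.NH95.QP.Base

/-!
Project QP: the total mass is at most `2 / d`.
-/

set_option autoImplicit false

namespace Pool.Agent.NH95.QP

open MvPolynomial

namespace Sum2

theorem not_dvd {k : Type} [Field k] {F : MvPolynomial (Fin 3) k}
    {κ : Type} [Fintype κ] [DecidableEq κ]
    {b : κ → MvPolynomial (Fin 3) k}
    (h : IndepMod F b) (j : κ) : ¬ F ∣ b j := by
  intro hd
  have h1 := h (Pi.single j 1) (by
    have e : ∑ i, C ((Pi.single j (1 : k) : κ → k) i) * b i = b j := by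
      rw [Finset.sum_eq_single j]
      · simp
      · intro i _ hi
        simp [Pi.single_eq_of_ne hi]
      · intro hj
        exact absurd (Finset.mem_univ j) hj
    rw [e]
    exact hd)
  have h2 := congrFun h1 j
  simp at h2

theorem sum_fin (M : ℕ) :
    ∑ j : Fin M, ((j : ℕ) : ℝ) = (M : ℝ) * ((M : ℝ) - 1) / 2 := by
  rw [Fin.sum_univ_eq_sum_range (fun j => (j : ℝ)) M]
  induction M with
  | zero => simp
  | succ n ih =>
    rw [Finset.sum_range_succ, ih]
    push_cast
    ring

end Sum2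

theorem t_SUM2 (h1 : S_ADB) (h2 : S_DIM) (h3 : S_RDM) : S_SUM2 := by
  intro k _ _ _ F d ι _ w τ v hF hS hτ hv hw
  -- the basic inequality
  have key : ∀ N : ℕ, d ≤ N →
      (∑ i, τ i) * ((rdim d N : ℝ) * ((rdim d N : ℝ) - 1) / 2) ≤
        (N : ℝ) * rdim d N := by
    intro N hN
    have hb : ∀ i, ∃ b : Fin (rdim d N) → MvPolynomial (Fin 3) k,
        (∀ j, (b j).IsHomogeneous N) ∧ IndepMod F b ∧
        ∀ j : Fin (rdim d N), τ i * ((j : ℕ) : ℝ) ≤ w i (b j) := by
      intro i
      by_cases hi : τ i = 0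
      · obtain ⟨s, hs1, hs2, -⟩ := h2 k F d N hF hN
        refine ⟨fun j => monomial (s j) (1 : k), ?_, hs2, ?_⟩
        · intro j
          apply isHomogeneous_monomial
          rw [Finsupp.degree_eq_sum, Fin.sum_univ_three]
          exact hs1 j
        · intro j
          have hm : (monomial (s j) (1 : k)).IsHomogeneous N := by
            apply isHomogeneous_monomial
            rw [Finsupp.degree_eq_sum, Fin.sum_univ_three]
            exact hs1 j
          rw [hw i N _ hm (Sum2.not_dvd hs2 j), hi]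
          simp
      · obtain ⟨b, hb1, hb2, hb3⟩ := h1 k F d N (v i) hF (hv i hi) hN
        refine ⟨b, hb1, hb2, ?_⟩
        intro j
        rw [hw i N _ (hb1 j) (Sum2.not_dvd hb2 j)]
        apply mul_le_mul_of_nonneg_left _ (hτ i)
        have := hb3 j
        exact_mod_cast this
    choose b hb1 hb2 hb3 using hb
    have h4 := hS N hN b hb1 hb2
    refine le_trans ?_ h4
    rw [Finset.sum_mul]
    apply Finset.sum_le_sum
    intro i _
    rw [← Sum2.sum_fin, Finset.mul_sum]
    apply Finset.sum_le_sum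
    intro j _
    exact hb3 i j
  by_contra hcon
  push Not at hcon
  set S : ℝ := ∑ i, τ i with hSdef
  have hS0 : 0 ≤ S := Finset.sum_nonneg (fun i _ => hτ i)
  have hd : 1 ≤ d := hF.2.2
  have he : 0 < S * d - 2 := by linarith
  obtain ⟨N0, hN0⟩ := exists_nat_gt
    (S * (((d : ℝ) - 1) * ((d : ℝ) - 2)) / (2 * (S * d - 2)))
  set N : ℕ := max N0 d with hNdef
  have hNd : d ≤ N := le_max_right _ _
  have hN1 : S * (((d : ℝ) - 1) * ((d : ℝ) - 2)) / (2 * (S * d - 2)) <
      (N : ℝ) := by
    refine lt_of_lt_of_le hN0 ?_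
    exact_mod_cast le_max_left _ _
  rw [div_lt_iff₀ (by linarith)] at hN1
  have hM := h3 d N hd hNd
  have hM' : 2 * (rdim d N : ℝ) =
      2 * N * d + 2 - ((d : ℝ) - 1) * ((d : ℝ) - 2) := by
    exact_mod_cast hM
  have hk := key N hNd
  have hd' : (1 : ℝ) ≤ d := by exact_mod_cast hd
  have hNd' : (d : ℝ) ≤ N := by exact_mod_cast hNd
  have hMpos : 0 < (rdim d N : ℝ) := by
    have : (d : ℝ) * d ≤ N * d := by nlinarith
    nlinarith
  have hk2 : S * (((rdim d N : ℝ) - 1) / 2) ≤ N := by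
    have : (rdim d N : ℝ) * (S * (((rdim d N : ℝ) - 1) / 2)) ≤
        (rdim d N : ℝ) * N := by
      calc (rdim d N : ℝ) * (S * (((rdim d N : ℝ) - 1) / 2))
          = S * ((rdim d N : ℝ) * ((rdim d N : ℝ) - 1) / 2) := by ring
        _ ≤ (N : ℝ) * rdim d N := hk
        _ = (rdim d N : ℝ) * N := by ring
    exact le_of_mul_le_mul_left this hMpos
  have e : (rdim d N : ℝ) - 1 = N * d - ((d : ℝ) - 1) * ((d : ℝ) - 2) / 2 := by
    linarith
  rw [e] at hk2
  nlinarith

end Pool.Agent.NH95.QP
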