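import Pool.Agent.NH95.QP.Base

/-! Project QP, job QP-VAL: real valuations are multiples of places (helper86). -/

set_option autoImplicit false

namespace Pool.Agent.NH95.QP.Val

open MvPolynomial

section

variable {k : Type} [Field k] {F : MvPolynomial (Fin 3) k} {d : ℕ}
  {w : MvPolynomial (Fin 3) k → ℝ}

/-- forms of degree `n` not divisible by `F` -/
def Fo (F : MvPolynomial (Fin 3) k) (n : ℕ) (g : MvPolynomial (Fin 3) k) : Prop :=
  g.IsHomogeneous n ∧ ¬ F ∣ g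

lemma Fo.mul (hF : Curve F d) {n m : ℕ} {g h : MvPolynomial (Fin 3) k} (hg : Fo F n g)
    (hh : Fo F m h) : Fo F (n + m) (g * h) := ⟨hg.1.mul hh.1, not_dvd_mul hF hg.2 hh.2⟩

lemma Fo.pow (hF : Curve F d) {n : ℕ} {g : MvPolynomial (Fin 3) k} (hg : Fo F n g) (m : ℕ) :
    Fo F (n * m) (g ^ m) := ⟨hg.1.pow m, not_dvd_pow hF hg.2 m⟩

lemma one_fo (hF : Curve F d) : Fo F 0 (C 1 : MvPolynomial (Fin 3) k) :=
  ⟨isHomogeneous_C _ _, not_dvd_C hF one_ne_zero⟩

/-- the group of the values -/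
def Gp (hF : Curve F d) (hw : IsW F w) : AddSubgroup ℝ where
  carrier := {x | ∃ (n m : ℕ) (g h : MvPolynomial (Fin 3) k), Fo F n g ∧ Fo F m h ∧
    x = w g - w h}
  zero_mem' := ⟨0, 0, C 1, C 1, one_fo hF, one_fo hF, by simp⟩
  add_mem' := by
    rintro x y ⟨n, m, g, h, hg, hh, rfl⟩ ⟨n', m', g', h', hg', hh', rfl⟩
    refine ⟨n + n', m + m', g * g', h * h', hg.mul hF hg', hh.mul hF hh', ?_⟩
    rw [hw.mul n n' g g' hg.1 hg'.1 hg.2 hg'.2, hw.mul m m' h h' hh.1 hh'.1 hh.2 hh'.2]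
    ring
  neg_mem' := by
    rintro x ⟨n, m, g, h, hg, hh, rfl⟩
    exact ⟨m, n, h, g, hh, hg, by ring⟩

lemma mem_gp (hF : Curve F d) (hw : IsW F w) {n : ℕ} {g : MvPolynomial (Fin 3) k}
    (hg : Fo F n g) : w g ∈ Gp hF hw :=
  ⟨n, 0, g, C 1, hg, one_fo hF, by rw [hw.const 1 one_ne_zero, sub_zero]⟩

/-- common denominators -/
lemma common (hF : Curve F d) (hw : IsW F w) {z : MvPolynomial (Fin 3) k} (hz : Fo F 1 z)
    (hz0 : w z = 0) (s : Finset ℝ) : (∀ x ∈ s, x ∈ Gp hF hw) →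
    ∃ (c : ℝ) (n : ℕ) (f0 : MvPolynomial (Fin 3) k) (f : ℝ → MvPolynomial (Fin 3) k),
      Fo F n f0 ∧ w f0 = c ∧ ∀ x ∈ s, Fo F n (f x) ∧ w (f x) = x + c := by
  classical
  induction s using Finset.induction_on with
  | empty =>
    intro _
    exact ⟨0, 0, C 1, fun _ => 0, one_fo hF, hw.const 1 one_ne_zero, by simp⟩
  | insert a s ha ih =>
    intro hs
    obtain ⟨c, n, f0, f, h0, hc, hf⟩ := ih fun x hx => hs x (Finset.mem_insert_of_mem hx)
    obtain ⟨n1, m1, g, h, hg, hh, hx⟩ := hs a (Finset.mem_insert_self a s)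
    have hzp : ∀ m : ℕ, Fo F m (z ^ m) := fun m => by
      simpa using hz.pow hF m
    have hwz : ∀ m : ℕ, w (z ^ m) = 0 := fun m => by
      rw [hw.pow hF hz.1 hz.2 m, hz0, smul_zero]
    have e1 : ∀ (p q r : MvPolynomial (Fin 3) k) (a b c : ℕ), Fo F a p → Fo F b q → Fo F c r →
        w (p * q * r) = w p + w q + w r := by
      intro p q r a b c hp hq hr
      rw [hw.mul (a + b) c _ _ (hp.mul hF hq).1 hr.1 (hp.mul hF hq).2 hr.2,
        hw.mul a b _ _ hp.1 hq.1 hp.2 hq.2]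
    refine ⟨c + w h, n + m1 + n1, f0 * h * z ^ n1,
      fun x => if x = a then g * f0 * z ^ m1 else f x * h * z ^ n1, ?_, ?_, ?_⟩
    · exact (h0.mul hF hh).mul hF (hzp n1)
    · rw [e1 _ _ _ _ _ _ h0 hh (hzp n1), hwz, hc, add_zero]
    · intro x hx'
      by_cases hxa : x = a
      · simp only [if_pos hxa]
        have h1 := (hg.mul hF h0).mul hF (hzp m1)
        have h2 : n1 + n + m1 = n + m1 + n1 := by ring
        rw [h2] at h1
        refine ⟨h1, ?_⟩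
        rw [e1 _ _ _ _ _ _ hg h0 (hzp m1), hwz, hc, hxa, hx]
        ring
      · simp only [if_neg hxa]
        have hxs : x ∈ s := (Finset.mem_insert.1 hx').resolve_left hxa
        obtain ⟨h1, h2⟩ := hf x hxs
        refine ⟨(h1.mul hF hh).mul hF (hzp n1), ?_⟩
        rw [e1 _ _ _ _ _ _ h1 hh (hzp n1), hwz, h2]
        ring

/-- the counting -/
lemma count (hC : S_CNT) (hF : Curve F d) (hw : IsW F w) {z : MvPolynomial (Fin 3) k}
    (hz : Fo F 1 z) (hz0 : w z = 0) {e : ℕ} {A : MvPolynomial (Fin 3) k} (he : 1 ≤ e)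
    (hA : Fo F e A) (hA0 : 0 < w A) (s : Finset ℝ) (hs : ∀ x ∈ s, x ∈ Gp hF hw)
    (hs0 : ∀ x ∈ s, 0 ≤ x ∧ x < w A) (hcard : s.card = d * e + 1) : False := by
  classical
  obtain ⟨c, n, f0, f, -, -, hf⟩ := common hF hw hz hz0 s hs
  set T : ℕ := n * d + d + 1 with hT
  let b : Fin (T + 1) × {x // x ∈ s} → MvPolynomial (Fin 3) k := fun q =>
    A ^ (q.1 : ℕ) * z ^ (e * (T - q.1)) * f q.2
  have hAp : ∀ i : ℕ, Fo F (e * i) (A ^ i) := fun i => hA.pow hF i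
  have hzp : ∀ m : ℕ, Fo F m (z ^ m) := fun m => by
    simpa using hz.pow hF m
  have hb : ∀ q, Fo F (T * e + n) (b q) := by
    rintro ⟨i, x⟩
    have h1 := ((hAp i).mul hF (hzp (e * (T - i)))).mul hF (hf x x.2).1
    have h2 : e * (i : ℕ) + e * (T - i) + n = T * e + n := by
      have hi : (i : ℕ) ≤ T := Nat.lt_succ_iff.1 i.2
      rw [← mul_add, Nat.add_sub_cancel' hi, mul_comm]
    rw [h2] at h1
    exact h1
  have hwb : ∀ q : Fin (T + 1) × {x // x ∈ s}, w (b q) = (q.1 : ℕ) * w A + (q.2 : ℝ) + c := by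
    rintro ⟨i, x⟩
    have h1 := (hAp i).mul hF (hzp (e * (T - i)))
    change w (A ^ (i : ℕ) * z ^ (e * (T - i)) * f x) = _
    rw [hw.mul _ _ _ _ h1.1 (hf x x.2).1.1 h1.2 (hf x x.2).1.2,
      hw.mul _ _ _ _ (hAp i).1 (hzp _).1 (hAp i).2 (hzp _).2,
      hw.pow hF hA.1 hA.2, hw.pow hF hz.1 hz.2, hz0, smul_zero, add_zero, (hf x x.2).2,
      nsmul_eq_mul]
    ring
  have hinj : ∀ p q, p ≠ q → w (b p) ≠ w (b q) := by
    rintro ⟨i, x⟩ ⟨j, y⟩ hne heq
    rw [hwb, hwb] at heq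
    simp only at heq
    have hx := hs0 x x.2
    have hy := hs0 y y.2
    have hij : (i : ℕ) = j := by
      rcases lt_trichotomy (i : ℕ) (j : ℕ) with h | h | h
      · exfalso
        have h' : ((i : ℕ) : ℝ) + 1 ≤ (j : ℕ) := by exact_mod_cast h
        nlinarith
      · exact h
      · exfalso
        have h' : ((j : ℕ) : ℝ) + 1 ≤ (i : ℕ) := by exact_mod_cast h
        nlinarith
    have hij' : i = j := Fin.ext hij
    subst hij'
    apply hne
    have : (x : ℝ) = y := by linarith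
    rw [Subtype.ext this]
  have hI := hw.indep_of_inj hF b (fun q => (hb q).1) (fun q => (hb q).2) hinj
  have hdN : d ≤ T * e + n := by nlinarith
  have h1 := hC k F d (T * e + n) _ b hF hdN (fun q => (hb q).1) hI
  rw [Fintype.card_prod, Fintype.card_fin, Fintype.card_coe, hcard] at h1
  have h2 : (T + 1) * (d * e + 1) = T * e * d + T + d * e + 1 := by ring
  have h3 : (T * e + n) * d = T * e * d + n * d := by ring
  rw [h2, h3] at h1
  omega

lemma exists_gen (hC : S_CNT) (hF : Curve F d) (hw : IsW F w) {z : MvPolynomial (Fin 3) k}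
    (hz : Fo F 1 z) (hz0 : w z = 0) {e : ℕ} {A : MvPolynomial (Fin 3) k} (he : 1 ≤ e)
    (hA : Fo F e A) (hA0 : 0 < w A) :
    ∃ τ : ℝ, 0 < τ ∧ τ ∈ Gp hF hw ∧ ∀ x ∈ Gp hF hw, ∃ m : ℤ, x = τ * m := by
  have hfin : {x : ℝ | x ∈ Gp hF hw ∧ 0 ≤ x ∧ x < w A}.Finite := by
    by_contra hinf
    obtain ⟨t, ht, htc⟩ := Set.Infinite.exists_subset_card_eq hinf (d * e + 1)
    exact count hC hF hw hz hz0 he hA hA0 t (fun x hx => (ht hx).1) (fun x hx => (ht hx).2) htc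
  have hfin2 : {x : ℝ | x ∈ Gp hF hw ∧ 0 < x ∧ x ≤ w A}.Finite := by
    refine (hfin.union (Set.finite_singleton (w A))).subset ?_
    rintro x ⟨h1, h2, h3⟩
    rcases h3.lt_or_eq with h | h
    · exact Or.inl ⟨h1, h2.le, h⟩
    · exact Or.inr h
  obtain ⟨τ, ⟨t1, t2, t3⟩, ht⟩ := Set.exists_min_image _ id hfin2
    ⟨w A, mem_gp hF hw hA, hA0, le_rfl⟩
  refine ⟨τ, t2, t1, fun x hx => ?_⟩
  have hl : IsLeast {g : ℝ | g ∈ Gp hF hw ∧ 0 < g} τ := by
    refine ⟨⟨t1, t2⟩, ?_⟩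
    rintro y ⟨y1, y2⟩
    rcases le_or_gt y (w A) with h | h
    · exact ht y ⟨y1, y2, h⟩
    · exact t3.trans h.le
  have h1 := AddSubgroup.cyclic_of_min hl
  rw [h1, AddSubgroup.mem_closure_singleton] at hx
  obtain ⟨m, hm⟩ := hx
  refine ⟨m, ?_⟩
  rw [← hm, zsmul_eq_mul]
  ring

end

end Pool.Agent.NH95.QP.Val

namespace Pool.Agent.NH95.QP

open MvPolynomial Val

theorem t_VAL (h : S_CNT) : S_VAL := by
  intro k _ _ _ F d w hF hw
  by_cases hall : ∀ (n : ℕ) (g : MvPolynomial (Fin 3) k), g.IsHomogeneous n → ¬ F ∣ g → w g = 0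
  · refine ⟨0, fun _ => 0, le_rfl, fun h => absurd rfl h, fun n g hg h1 => ?_⟩
    rw [hall n g hg h1]
    simp
  push Not at hall
  obtain ⟨e0, A0, hA1, hA2, hA3⟩ := hall
  obtain ⟨i, hi1, hi2⟩ := hw.coord
  have hz : Fo F 1 (X i : MvPolynomial (Fin 3) k) := ⟨isHomogeneous_X k i, hi1⟩
  have hA0 : 0 < w A0 := lt_of_le_of_ne (hw.nonneg e0 A0 hA1 hA2) (Ne.symm hA3)
  have hA : Fo F (e0 + 1) (A0 * X i) := Fo.mul hF ⟨hA1, hA2⟩ hz
  have hwA : w (A0 * X i) = w A0 := by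
    rw [hw.mul e0 1 _ _ hA1 hz.1 hA2 hz.2, hi2, add_zero]
  obtain ⟨τ, hτ, hτG, hG⟩ := exists_gen h hF hw hz hi2 (Nat.succ_pos e0) hA
    (by rw [hwA]; exact hA0)
  have hv : ∀ (n : ℕ) (g : MvPolynomial (Fin 3) k), g.IsHomogeneous n → ¬ F ∣ g →
      w g = τ * (⌊w g / τ⌋ : ℤ) := by
    intro n g hg h1
    obtain ⟨m, hm⟩ := hG _ (mem_gp hF hw ⟨hg, h1⟩)
    have h2 : w g / τ = (m : ℝ) := by
      rw [hm]
      field_simp
    rw [h2, Int.floor_intCast]
    exact hm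
  have hcan : ∀ a b : ℤ, τ * (a : ℝ) = τ * b → a = b := by
    intro a b hab
    exact_mod_cast mul_left_cancel₀ hτ.ne' hab
  refine ⟨τ, fun g => ⌊w g / τ⌋, hτ.le, fun _ => ⟨?_, ?_⟩, hv⟩
  · constructor
    · intro n g hg h1
      exact Int.floor_nonneg.2 (div_nonneg (hw.nonneg n g hg h1) hτ.le)
    · intro n m g g' hg hg' h1 h2
      apply hcan
      have h3 := hw.mul n m g g' hg hg' h1 h2
      rw [hv _ _ (hg.mul hg') (not_dvd_mul hF h1 h2), hv n g hg h1, hv m g' hg' h2] at h3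
      rw [h3]
      push_cast
      ring
    · intro n g g' hg hg' h1 h2 h3
      have h4 := hw.add n g g' hg hg' h1 h2 h3
      rw [hv _ _ (hg.add hg') h3, hv n g hg h1, hv n g' hg' h2, min_le_iff] at h4
      rw [min_le_iff]
      rcases h4 with h4 | h4
      · left
        exact_mod_cast le_of_mul_le_mul_left h4 hτ
      · right
        exact_mod_cast le_of_mul_le_mul_left h4 hτ
    · intro c hc
      simp only [hw.const c hc, zero_div, Int.floor_zero]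
    · exact ⟨i, hi1, by simp only [hi2, zero_div, Int.floor_zero]⟩
    · intro n g g' hg hg' h1 h2
      simp only [hw.congr n g g' hg hg' h1 h2]
  · obtain ⟨n, m, g, g', hg, hg', hx⟩ := hτG
    have hzp : ∀ m : ℕ, Fo F m ((X i : MvPolynomial (Fin 3) k) ^ m) := fun m => by
      simpa using hz.pow hF m
    have hwz : ∀ m : ℕ, w ((X i : MvPolynomial (Fin 3) k) ^ m) = 0 := fun m => by
      rw [hw.pow hF hz.1 hz.2 m, hi2, smul_zero]
    have k1 := hg.mul hF (hzp m)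
    have k2 := hg'.mul hF (hzp n)
    rw [add_comm] at k2
    refine ⟨n + m, g * X i ^ m, g' * X i ^ n, k1.1, k2.1, k1.2, k2.2, ?_⟩
    apply hcan
    have e1 := hv _ _ k1.1 k1.2
    have e2 := hv _ _ k2.1 k2.2
    have e3 : w (g * X i ^ m) = w g := by
      rw [hw.mul _ _ _ _ hg.1 (hzp m).1 hg.2 (hzp m).2, hwz, add_zero]
    have e4 : w (g' * X i ^ n) = w g' := by
      rw [hw.mul _ _ _ _ hg'.1 (hzp n).1 hg'.2 (hzp n).2, hwz, add_zero]
    push_cast
    rw [← e1, mul_add, ← e2, e3, e4, mul_one]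
    linarith

end Pool.Agent.NH95.QP
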