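import Pool.Agent.NH95.QP.Bridge
import Pool.Agent.NH95.QP.Adb
import Pool.Agent.NH95.QP.Adj
import Pool.Agent.NH95.QP.Apx
import Pool.Agent.NH95.QP.Alg
import Pool.Agent.NH95.QP.Bz
import Pool.Agent.NH95.QP.Bz1
import Pool.Agent.NH95.QP.Cn2
import Pool.Agent.NH95.QP.Pft
import Pool.Agent.NH95.QP.Cla
import Pool.Agent.NH95.QP.Cn1
import Pool.Agent.NH95.QP.Cnj
import Pool.Agent.NH95.QP.Ctr
import Pool.Agent.NH95.QP.Dim
import Pool.Agent.NH95.QP.Exc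
import Pool.Agent.NH95.QP.Gal
import Pool.Agent.NH95.QP.Gen
import Pool.Agent.NH95.QP.Hrd
import Pool.Agent.NH95.QP.Lcb
import Pool.Agent.NH95.QP.Lin
import Pool.Agent.NH95.QP.Loc1
import Pool.Agent.NH95.QP.Locg
import Pool.Agent.NH95.QP.Nh
import Pool.Agent.NH95.QP.Num
import Pool.Agent.NH95.QP.Poly
import Pool.Agent.NH95.QP.Rdm
import Pool.Agent.NH95.QP.Res
import Pool.Agent.NH95.QP.Sum2
import Pool.Agent.NH95.QP.Val

namespace Pool.Agent.NH95.QP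

open Adb Adj Bz1 Cla Cn1 Cnj Ctr Dim Exc Gal Gen Hrd Lcb Locg Nh Num
  Poly Res Val

theorem cnt : S_CNT := t_CNT t_DIM t_RDM

theorem res : S_RES := t_RES cnt

theorem bz1 : S_BZ1 := t_BZ1 cnt

theorem ctr : S_CTR := t_CTR res

theorem adb : S_ADB := t_ADB res t_DIM

theorem sum2 : S_SUM2 := t_SUM2 adb t_DIM t_RDM

theorem apx : S_APX := t_APX t_LIN

theorem poly : S_POLY := t_POLY res bz1

theorem val : S_VAL := t_VAL cnt

theorem loc1 : S_LOC1 := t_LOC1 t_LOCG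

theorem loc2 : S_LOC2 := t_LOC2 t_LOCG

theorem exc (h : S_BZ) : S_EXC := t_EXC poly t_PID h ctr

theorem gen (h : S_BZ) : S_GEN := t_GEN h res t_DIM t_RDM

theorem adj (h : S_BZ) : S_ADJ :=
  t_ADJ loc1 loc2 (gen h) t_LCB t_NUM (exc h) h

theorem hrd (h : S_BZ) (h2 : S_CN2) : S_HRD :=
  t_HRD (t_CN1 h) h2 (adj h) ctr t_NH2 t_NH3 h

theorem cla (h : S_BZ) (h2 : S_CN2) : S_CLA :=
  t_CLA (hrd h h2) ctr t_NH2 t_NH3 h bz1

theorem cl1 : S_CL1 := t_CL1 ctr t_NH2 t_NH3 bz1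

theorem bz : S_BZ := Bz.t_BZ cnt t_LIN apx bz1

theorem pft : S_PFT := t_PFT t_GAL adb t_RDM

/-- The algebraic theorem. -/
theorem alg : ALG :=
  t_ALG val (cla bz (Cn2.t_CN2 bz)) cl1 sum2 pft t_CNJ

/-- The algebraic theorem in the notation of the arithmetic half. -/
theorem alg28 : Pool.Agent.NH28.QP.S_ALG := Bridge.bridge t_RDM alg

end Pool.Agent.NH95.QP
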