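import Mathlib

/-!
Project QP (MP_651af7_nt): statements.

Binary quadratic forms `a X^2 + b X Y + c Y^2` are points `(a, b, c)`
of the projective plane; `k` is an algebraically closed field of
characteristic zero, `F` an irreducible form in three variables.
-/

namespace Pool.Agent.NH95.QP

open MvPolynomial

/-! ### Forms -/

/-- The discriminant form `b ^ 2 - 4 a c`. -/
noncomputable def Dsc (k : Type) [Field k] : MvPolynomial (Fin 3) k :=
  X 1 ^ 2 - C 4 * X 0 * X 2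

/-- The value of `a X^2 + b X Y + c Y^2` at `(p, q)`, as a linear form
in `(a, b, c)`. -/
noncomputable def HL {k : Type} [Field k] (p q : k) :
    MvPolynomial (Fin 3) k :=
  C (p ^ 2) * X 0 + C (p * q) * X 1 + C (q ^ 2) * X 2

/-- Twice the polarisation at `(p, q)` and `(r, s)`. -/
noncomputable def TL {k : Type} [Field k] (p q r s : k) :
    MvPolynomial (Fin 3) k :=
  C (2 * (p * r)) * X 0 + C (p * s + q * r) * X 1
    + C (2 * (q * s)) * X 2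

/-- An irreducible plane curve of degree `d`. -/
def Curve {k : Type} [Field k] (F : MvPolynomial (Fin 3) k) (d : ℕ) :
    Prop :=
  F.IsHomogeneous d ∧ Irreducible F ∧ 1 ≤ d

/-- A valuation on the forms which are not divisible by `F`. -/
structure IsW {k : Type} [Field k] {Γ : Type} [AddCommGroup Γ]
    [LinearOrder Γ] (F : MvPolynomial (Fin 3) k)
    (w : MvPolynomial (Fin 3) k → Γ) : Prop where
  nonneg : ∀ (n : ℕ) (g : MvPolynomial (Fin 3) k),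
    g.IsHomogeneous n → ¬ F ∣ g → 0 ≤ w g
  mul : ∀ (n m : ℕ) (g h : MvPolynomial (Fin 3) k),
    g.IsHomogeneous n → h.IsHomogeneous m → ¬ F ∣ g → ¬ F ∣ h →
      w (g * h) = w g + w h
  add : ∀ (n : ℕ) (g h : MvPolynomial (Fin 3) k),
    g.IsHomogeneous n → h.IsHomogeneous n → ¬ F ∣ g → ¬ F ∣ h →
      ¬ F ∣ g + h → min (w g) (w h) ≤ w (g + h)
  const : ∀ c : k, c ≠ 0 → w (C c) = 0
  coord : ∃ i : Fin 3, ¬ F ∣ X i ∧ w (X i) = 0
  congr : ∀ (n : ℕ) (g h : MvPolynomial (Fin 3) k),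
    g.IsHomogeneous n → h.IsHomogeneous n → ¬ F ∣ g → F ∣ g - h →
      w g = w h

/-- A place: a normalised discrete valuation. -/
def IsPlace {k : Type} [Field k] (F : MvPolynomial (Fin 3) k)
    (v : MvPolynomial (Fin 3) k → ℤ) : Prop :=
  IsW F v ∧ ∃ (n : ℕ) (g h : MvPolynomial (Fin 3) k),
    g.IsHomogeneous n ∧ h.IsHomogeneous n ∧ ¬ F ∣ g ∧ ¬ F ∣ h ∧
      v g = v h + 1

/-- The two functions differ on some form. -/
def Diff {k : Type} [Field k] (F : MvPolynomial (Fin 3) k)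
    (v v' : MvPolynomial (Fin 3) k → ℤ) : Prop :=
  ∃ (n : ℕ) (g : MvPolynomial (Fin 3) k),
    g.IsHomogeneous n ∧ ¬ F ∣ g ∧ v g ≠ v' g

/-- Linear independence modulo `F`. -/
def IndepMod {k : Type} [Field k] (F : MvPolynomial (Fin 3) k)
    {κ : Type} [Fintype κ] (b : κ → MvPolynomial (Fin 3) k) : Prop :=
  ∀ c : κ → k, F ∣ ∑ j, C (c j) * b j → c = 0

/-- The dimension of the space of forms of degree `N` modulo `F`. -/
def rdim (d N : ℕ) : ℕ := (N + 2).choose 2 - (N + 2 - d).choose 2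

/-- The number of lattice points below the line. -/
def Lc (m j : ℕ) : ℕ :=
  ((Finset.range j ×ˢ Finset.range m).filter
    (fun x => m * x.1 + j * x.2 < m * j)).card

/-- `v ≥ n` (or divisible by `F`) is at most `L` linear conditions. -/
def Loc {k : Type} [Field k] (F : MvPolynomial (Fin 3) k)
    (v : MvPolynomial (Fin 3) k → ℤ) (n L : ℕ) : Prop :=
  ∀ N : ℕ, ∃ Λ : MvPolynomial (Fin 3) k →ₗ[k] (Fin L → k),
    ∀ g : MvPolynomial (Fin 3) k, g.IsHomogeneous N → Λ g = 0 →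
      F ∣ g ∨ (n : ℤ) ≤ v g

/-! ### Curves -/

/-- Every valuation is a multiple of a place. -/
def S_VAL : Prop :=
  ∀ (k : Type) [Field k] [IsAlgClosed k] [CharZero k]
    (F : MvPolynomial (Fin 3) k) (d : ℕ)
    (w : MvPolynomial (Fin 3) k → ℝ), Curve F d → IsW F w →
    ∃ (τ : ℝ) (v : MvPolynomial (Fin 3) k → ℤ), 0 ≤ τ ∧
      (τ ≠ 0 → IsPlace F v) ∧
      ∀ (n : ℕ) (g : MvPolynomial (Fin 3) k), g.IsHomogeneous n →
        ¬ F ∣ g → w g = τ * v g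

/-- The residue field is `k`. -/
def S_RES : Prop :=
  ∀ (k : Type) [Field k] [IsAlgClosed k] [CharZero k]
    (F : MvPolynomial (Fin 3) k) (d : ℕ)
    (v : MvPolynomial (Fin 3) k → ℤ), Curve F d → IsPlace F v →
    ∀ (n : ℕ) (g h : MvPolynomial (Fin 3) k), g.IsHomogeneous n →
      h.IsHomogeneous n → ¬ F ∣ g → ¬ F ∣ h → v g = v h →
      ∃ c : k, c ≠ 0 ∧ (F ∣ g - C c * h ∨ v h < v (g - C c * h))

/-- Bezout, one place. -/
def S_BZ1 : Prop :=
  ∀ (k : Type) [Field k] [IsAlgClosed k] [CharZero k]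
    (F : MvPolynomial (Fin 3) k) (d : ℕ)
    (v : MvPolynomial (Fin 3) k → ℤ), Curve F d → IsPlace F v →
    ∀ (n : ℕ) (g : MvPolynomial (Fin 3) k), g.IsHomogeneous n →
      ¬ F ∣ g → v g ≤ n * d

/-- Bezout, two places. -/
def S_BZ : Prop :=
  ∀ (k : Type) [Field k] [IsAlgClosed k] [CharZero k]
    (F : MvPolynomial (Fin 3) k) (d : ℕ)
    (v v' : MvPolynomial (Fin 3) k → ℤ), Curve F d → IsPlace F v →
    IsPlace F v' → Diff F v v' →
    ∀ (n : ℕ) (g : MvPolynomial (Fin 3) k), g.IsHomogeneous n →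
      ¬ F ∣ g → v g + v' g ≤ n * d

/-- The adjunction inequality. -/
def S_GEN : Prop :=
  ∀ (k : Type) [Field k] [IsAlgClosed k] [CharZero k]
    (F : MvPolynomial (Fin 3) k) (d : ℕ)
    (v v' : MvPolynomial (Fin 3) k → ℤ), Curve F d → IsPlace F v →
    IsPlace F v' → Diff F v v' →
    ∀ n n' L L' : ℕ, Loc F v n L → Loc F v' n' L' →
      2 * ((n : ℤ) + n') ≤
        2 * ((L : ℤ) + L') + ((d : ℤ) - 1) * ((d : ℤ) - 2)

/-- The dimension of the space of forms modulo `F`. -/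
def S_DIM : Prop :=
  ∀ (k : Type) [Field k] (F : MvPolynomial (Fin 3) k) (d N : ℕ),
    Curve F d → d ≤ N →
    ∃ s : Fin (rdim d N) → (Fin 3 →₀ ℕ),
      (∀ j, (s j) 0 + (s j) 1 + (s j) 2 = N) ∧
      IndepMod F (fun j => monomial (s j) (1 : k)) ∧
      ∀ g : MvPolynomial (Fin 3) k, g.IsHomogeneous N →
        ∃ c : Fin (rdim d N) → k,
          F ∣ g - ∑ j, C (c j) * monomial (s j) (1 : k)

/-- The value of `rdim`. -/
def S_RDM : Prop :=
  ∀ d N : ℕ, 1 ≤ d → d ≤ N →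
    2 * (rdim d N : ℤ) =
      2 * N * d + 2 - ((d : ℤ) - 1) * ((d : ℤ) - 2)

/-- Independent families modulo `F` are small. -/
def S_CNT : Prop :=
  ∀ (k : Type) [Field k] (F : MvPolynomial (Fin 3) k) (d N : ℕ)
    (κ : Type) [Fintype κ] (b : κ → MvPolynomial (Fin 3) k),
    Curve F d → d ≤ N → (∀ j, (b j).IsHomogeneous N) →
    IndepMod F b → Fintype.card κ ≤ N * d + 1

/-- A linear form of value zero at two valuations. -/
def S_LIN : Prop :=
  ∀ (k : Type) [Field k] [CharZero k]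
    (F : MvPolynomial (Fin 3) k) (d : ℕ)
    (v v' : MvPolynomial (Fin 3) k → ℤ), Curve F d → IsW F v →
    IsW F v' → ∃ z : MvPolynomial (Fin 3) k, z.IsHomogeneous 1 ∧
      ¬ F ∣ z ∧ v z = 0 ∧ v' z = 0

/-- Distinct places are incomparable. -/
def S_APX : Prop :=
  ∀ (k : Type) [Field k] [CharZero k]
    (F : MvPolynomial (Fin 3) k) (d : ℕ)
    (v v' : MvPolynomial (Fin 3) k → ℤ), Curve F d → IsPlace F v →
    IsPlace F v' → Diff F v v' →
    ∃ (n : ℕ) (A B : MvPolynomial (Fin 3) k), A.IsHomogeneous n ∧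
      B.IsHomogeneous n ∧ ¬ F ∣ A ∧ ¬ F ∣ B ∧ v B < v A ∧ v' A < v' B

/-- The centre of a place. -/
def S_CTR : Prop :=
  ∀ (k : Type) [Field k] [IsAlgClosed k] [CharZero k]
    (F : MvPolynomial (Fin 3) k) (d : ℕ)
    (v : MvPolynomial (Fin 3) k → ℤ), Curve F d → IsPlace F v →
    ∃ x : Fin 3 → k, x ≠ 0 ∧ eval x F = 0 ∧
      ∀ (n : ℕ) (g : MvPolynomial (Fin 3) k), g.IsHomogeneous n →
        ¬ F ∣ g → (0 < v g ↔ eval x g = 0)

/-- Two tangent lines meet outside the conic. -/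
def S_NH2 : Prop :=
  ∀ (k : Type) [Field k] [CharZero k] (p q r s : k) (x : Fin 3 → k),
    p * s - q * r ≠ 0 → x ≠ 0 → eval x (HL p q) = 0 →
    eval x (HL r s) = 0 → eval x (Dsc k) ≠ 0

/-- Three tangent lines have no common point. -/
def S_NH3 : Prop :=
  ∀ (k : Type) [Field k] [CharZero k] (p q r s a b : k)
    (x : Fin 3 → k), p * s - q * r ≠ 0 → p * b - q * a ≠ 0 →
    r * b - s * a ≠ 0 → eval x (HL p q) = 0 →
    eval x (HL r s) = 0 → eval x (HL a b) = 0 → x = 0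

/-- Local conditions from two local coordinates. -/
def S_LOCG : Prop :=
  ∀ (k : Type) [Field k] [IsAlgClosed k] [CharZero k]
    (F : MvPolynomial (Fin 3) k) (d : ℕ)
    (v : MvPolynomial (Fin 3) k → ℤ), Curve F d → IsPlace F v →
    ∀ (c P Q : MvPolynomial (Fin 3) k) (e e' m j : ℕ)
      (G : Fin 3 → MvPolynomial (Fin 2) k),
      c.IsHomogeneous 1 → ¬ F ∣ c → v c = 0 → P.IsHomogeneous e →
      Q.IsHomogeneous e' → (F ∣ P ∨ (m : ℤ) ≤ v P) →
      (F ∣ Q ∨ (j : ℤ) ≤ v Q) → 1 ≤ m → 1 ≤ j →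
      (∀ (K : Type) [Field K] [Algebra k K] (x : Fin 3 → K),
        aeval x c ≠ 0 → ∀ i,
          x i / aeval x c =
            aeval ![aeval x P / (aeval x c) ^ e,
              aeval x Q / (aeval x c) ^ e'] (G i)) →
      Loc F v (m * j) (Lc m j)

/-- Local conditions at a point of the conic. -/
def S_LOC1 : Prop :=
  ∀ (k : Type) [Field k] [IsAlgClosed k] [CharZero k]
    (F : MvPolynomial (Fin 3) k) (d : ℕ)
    (v : MvPolynomial (Fin 3) k → ℤ), Curve F d → IsPlace F v →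
    ∀ (p q r s : k) (m j : ℕ), p * s - q * r ≠ 0 →
      ¬ F ∣ HL r s → v (HL r s) = 0 →
      (m : ℤ) ≤ v (TL p q r s) → (j : ℤ) ≤ v (Dsc k) →
      1 ≤ m → 1 ≤ j → Loc F v (m * j) (Lc m j)

/-- Local conditions at the intersection of two tangents. -/
def S_LOC2 : Prop :=
  ∀ (k : Type) [Field k] [IsAlgClosed k] [CharZero k]
    (F : MvPolynomial (Fin 3) k) (d : ℕ)
    (v : MvPolynomial (Fin 3) k → ℤ), Curve F d → IsPlace F v →
    ∀ (p q r s a b : k) (m j : ℕ), p * s - q * r ≠ 0 →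
      p * b - q * a ≠ 0 → r * b - s * a ≠ 0 →
      ¬ F ∣ HL p q → v (HL p q) = 0 →
      (m : ℤ) ≤ v (HL r s) → (j : ℤ) ≤ v (HL a b) →
      1 ≤ m → 1 ≤ j → Loc F v (m * j) (Lc m j)

/-- The number of lattice points. -/
def S_LCB : Prop :=
  ∀ m j : ℕ, 1 ≤ m → 1 ≤ j →
    2 * (Lc m j : ℤ) ≤ (m : ℤ) * j + m + j - 1

/-- The numerical part. -/
def S_NUM : Prop :=
  ∀ m j p q d : ℤ, 1 ≤ m → 1 ≤ q → q ≤ p → p ≤ d → j ≤ 2 * d →
    2 * m ≤ d → 4 * m < j →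
    (m - 1) * (j - 1) + (p - 1) * (q - 1) ≤ (d - 1) * (d - 2) →
    2 * m + j + p + q ≤ 4 * d ∨
      (m = 1 ∧ j = 2 * d ∧ p = d ∧ q = d - 1)

/-- Functions with poles at one rational place. -/
def S_POLY : Prop :=
  ∀ (k : Type) [Field k] [IsAlgClosed k] [CharZero k]
    (F : MvPolynomial (Fin 3) k) (d : ℕ)
    (v : MvPolynomial (Fin 3) k → ℤ), Curve F d → IsPlace F v →
    ∀ A B : MvPolynomial (Fin 3) k, A.IsHomogeneous 1 →
      B.IsHomogeneous 1 → ¬ F ∣ A → ¬ F ∣ B → v A = d →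
      v B = (d : ℤ) - 1 →
      ∀ (n : ℕ) (g : MvPolynomial (Fin 3) k), g.IsHomogeneous n →
        ∃ G : Polynomial k, G.natDegree ≤ n * d ∧
          F ∣ g * A ^ (n * d - n) -
            ∑ i ∈ Finset.range (n * d + 1),
              C (G.coeff i) * B ^ i * A ^ (n * d - i)

/-- A polynomial identity which is impossible. -/
def S_PID : Prop :=
  ∀ (k : Type) [Field k] [IsAlgClosed k] [CharZero k] (d : ℕ)
    (G : Polynomial k) (κ a : k), 2 ≤ d →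
    G ^ 2 - Polynomial.C 4 * Polynomial.X ≠
      Polynomial.C κ * (Polynomial.X - Polynomial.C a) ^ (2 * d)

/-- The excluded case. -/
def S_EXC : Prop :=
  ∀ (k : Type) [Field k] [IsAlgClosed k] [CharZero k]
    (F : MvPolynomial (Fin 3) k) (d : ℕ)
    (v v' : MvPolynomial (Fin 3) k → ℤ), Curve F d → 2 ≤ d →
    IsPlace F v → IsPlace F v' → Diff F v v' → ¬ F ∣ Dsc k →
    ∀ p q r s : k, p * s - q * r ≠ 0 → ¬ F ∣ HL p q →
      ¬ F ∣ HL r s → v' (HL p q) = d → v' (HL r s) = (d : ℤ) - 1 →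
      v (Dsc k) = 2 * d → False

/-- The conic case, general. -/
def S_CN1 : Prop :=
  ∀ (k : Type) [Field k] [IsAlgClosed k] [CharZero k]
    (F : MvPolynomial (Fin 3) k) (d : ℕ)
    (v v' : MvPolynomial (Fin 3) k → ℤ), Curve F d →
    IsPlace F v → IsPlace F v' → Diff F v v' → ¬ F ∣ Dsc k →
    ∀ (p q r s a b : k), p * s - q * r ≠ 0 → p * b - q * a ≠ 0 →
      r * b - s * a ≠ 0 → ¬ F ∣ HL p q → ¬ F ∣ HL r s →
      ¬ F ∣ HL a b → v' (HL p q) = 0 → 0 < v' (HL a b) →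
      v' (HL a b) ≤ v' (HL r s) → v (Dsc k) ≤ 2 * v (HL p q) →
      (∀ κ : k, ¬ F ∣ Dsc k + C κ * HL p q ^ 2) →
      v (Dsc k) + v' (HL a b) ≤ 2 * d

/-- The conic case, special. -/
def S_CN2 : Prop :=
  ∀ (k : Type) [Field k] [IsAlgClosed k] [CharZero k]
    (F : MvPolynomial (Fin 3) k) (d : ℕ)
    (v v' : MvPolynomial (Fin 3) k → ℤ), Curve F d →
    IsPlace F v → IsPlace F v' → Diff F v v' → ¬ F ∣ Dsc k →
    ∀ (p q r s a b : k), p * s - q * r ≠ 0 → p * b - q * a ≠ 0 →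
      r * b - s * a ≠ 0 → ¬ F ∣ HL p q → ¬ F ∣ HL r s →
      ¬ F ∣ HL a b → 0 < v (HL p q) → v' (HL p q) = 0 →
      0 < v' (HL a b) → 0 < v' (HL r s) →
      (∃ κ : k, F ∣ Dsc k + C κ * HL p q ^ 2) →
      v (HL p q) + v (Dsc k) + v' (HL r s) + v' (HL a b) ≤ 4 * d

/-- The case of high contact with the conic. -/
def S_ADJ : Prop :=
  ∀ (k : Type) [Field k] [IsAlgClosed k] [CharZero k]
    (F : MvPolynomial (Fin 3) k) (d : ℕ)
    (v v' : MvPolynomial (Fin 3) k → ℤ), Curve F d →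
    IsPlace F v → IsPlace F v' → Diff F v v' → ¬ F ∣ Dsc k →
    ∀ (p q r s a b : k), p * s - q * r ≠ 0 → p * b - q * a ≠ 0 →
      r * b - s * a ≠ 0 → ¬ F ∣ HL p q → ¬ F ∣ HL r s →
      ¬ F ∣ HL a b → 0 < v (HL p q) → v (HL r s) = 0 →
      v' (HL p q) = 0 → 0 < v' (HL a b) →
      v' (HL a b) ≤ v' (HL r s) → 2 * v (HL p q) < v (Dsc k) →
      v (HL p q) + v (Dsc k) + v' (HL r s) + v' (HL a b) ≤ 4 * d

/-- The hard case. -/
def S_HRD : Prop :=
  ∀ (k : Type) [Field k] [IsAlgClosed k] [CharZero k]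
    (F : MvPolynomial (Fin 3) k) (d : ℕ)
    (v v' : MvPolynomial (Fin 3) k → ℤ), Curve F d →
    IsPlace F v → IsPlace F v' → Diff F v v' → ¬ F ∣ Dsc k →
    ∀ (p q r s a b : k), p * s - q * r ≠ 0 → p * b - q * a ≠ 0 →
      r * b - s * a ≠ 0 → ¬ F ∣ HL p q → ¬ F ∣ HL r s →
      ¬ F ∣ HL a b → 0 < v (HL p q) → 0 < v (Dsc k) →
      0 < v' (HL a b) → 0 < v' (HL r s) →
      v (HL p q) + v (Dsc k) + v' (HL r s) + v' (HL a b) ≤ 4 * d

/-- Two places. -/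
def S_CLA : Prop :=
  ∀ (k : Type) [Field k] [IsAlgClosed k] [CharZero k]
    (F : MvPolynomial (Fin 3) k) (d : ℕ)
    (v v' : MvPolynomial (Fin 3) k → ℤ), Curve F d →
    IsPlace F v → IsPlace F v' → Diff F v v' → ¬ F ∣ Dsc k →
    ∀ (m : ℕ) (p q : Fin m → k),
      (∀ i j, i ≠ j → p i * q j - q i * p j ≠ 0) →
      (∀ i, ¬ F ∣ HL (p i) (q i)) →
      (v (Dsc k) + ∑ i, v (HL (p i) (q i))) +
        (v' (Dsc k) + ∑ i, v' (HL (p i) (q i))) ≤ 4 * d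

/-- One place. -/
def S_CL1 : Prop :=
  ∀ (k : Type) [Field k] [IsAlgClosed k] [CharZero k]
    (F : MvPolynomial (Fin 3) k) (d : ℕ)
    (v : MvPolynomial (Fin 3) k → ℤ), Curve F d →
    IsPlace F v → ¬ F ∣ Dsc k →
    ∀ (m : ℕ) (p q : Fin m → k),
      (∀ i j, i ≠ j → p i * q j - q i * p j ≠ 0) →
      (∀ i, ¬ F ∣ HL (p i) (q i)) →
      v (Dsc k) + ∑ i, v (HL (p i) (q i)) ≤ 4 * d

/-! ### Weights -/

/-- A basis adapted to a place. -/
def S_ADB : Prop :=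
  ∀ (k : Type) [Field k] [IsAlgClosed k] [CharZero k]
    (F : MvPolynomial (Fin 3) k) (d N : ℕ)
    (v : MvPolynomial (Fin 3) k → ℤ), Curve F d → IsPlace F v →
    d ≤ N →
    ∃ b : Fin (rdim d N) → MvPolynomial (Fin 3) k,
      (∀ j, (b j).IsHomogeneous N) ∧ IndepMod F b ∧
      ∀ j : Fin (rdim d N), ((j : ℕ) : ℤ) ≤ v (b j)

/-- The subspace inequality. -/
def SubIneq {k : Type} [Field k] (F : MvPolynomial (Fin 3) k) (d : ℕ)
    {ι : Type} [Fintype ι] (w : ι → MvPolynomial (Fin 3) k → ℝ) :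
    Prop :=
  ∀ N : ℕ, d ≤ N →
    ∀ b : ι → Fin (rdim d N) → MvPolynomial (Fin 3) k,
      (∀ i j, (b i j).IsHomogeneous N) → (∀ i, IndepMod F (b i)) →
      ∑ i, ∑ j, w i (b i j) ≤ (N : ℝ) * rdim d N

/-- The total mass is at most `2 / d`. -/
def S_SUM2 : Prop :=
  ∀ (k : Type) [Field k] [IsAlgClosed k] [CharZero k]
    (F : MvPolynomial (Fin 3) k) (d : ℕ) (ι : Type) [Fintype ι]
    (w : ι → MvPolynomial (Fin 3) k → ℝ) (τ : ι → ℝ)
    (v : ι → MvPolynomial (Fin 3) k → ℤ), Curve F d →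
    SubIneq F d w → (∀ i, 0 ≤ τ i) →
    (∀ i, τ i ≠ 0 → IsPlace F (v i)) →
    (∀ i (n : ℕ) (g : MvPolynomial (Fin 3) k), g.IsHomogeneous n →
      ¬ F ∣ g → w i g = τ i * v i g) →
    (∑ i, τ i) * d ≤ 2

/-- The algebraic numbers. -/
abbrev QQ : Type := AlgebraicClosure ℚ

/-- A rational form, over the algebraic numbers. -/
noncomputable def rat (g : MvPolynomial (Fin 3) ℚ) :
    MvPolynomial (Fin 3) QQ :=
  MvPolynomial.map (algebraMap ℚ QQ) g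

/-- The product formula. -/
def ProdForm (F0 : MvPolynomial (Fin 3) ℚ) {ι : Type} [Fintype ι]
    (w : ι → MvPolynomial (Fin 3) QQ → ℝ) : Prop :=
  ∀ (n : ℕ) (g : MvPolynomial (Fin 3) ℚ), g.IsHomogeneous n →
    ¬ rat F0 ∣ rat g → ∑ i, w i (rat g) ≤ n

/-- Galois stable places. -/
def Stab (F : MvPolynomial (Fin 3) QQ)
    (v : MvPolynomial (Fin 3) QQ → ℤ) : Prop :=
  ∀ (σ : QQ ≃ₐ[ℚ] QQ) (n : ℕ) (g : MvPolynomial (Fin 3) QQ),
    g.IsHomogeneous n → ¬ F ∣ g →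
      v (MvPolynomial.map (σ : QQ →+* QQ) g) = v g

/-- Products of conjugates. -/
def S_GAL : Prop :=
  ∀ (F0 : MvPolynomial (Fin 3) ℚ) (d : ℕ)
    (v : MvPolynomial (Fin 3) QQ → ℤ), Curve (rat F0) d →
    IsPlace (rat F0) v → Stab (rat F0) v →
    ∀ (n : ℕ) (g : MvPolynomial (Fin 3) QQ), g.IsHomogeneous n →
      ¬ rat F0 ∣ g →
      ∃ (r : ℕ) (g0 : MvPolynomial (Fin 3) ℚ), 1 ≤ r ∧
        g0.IsHomogeneous (n * r) ∧ ¬ rat F0 ∣ rat g0 ∧
        v (rat g0) = r * v g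

/-- The mass of a stable place is at most `1 / d`. -/
def S_PFT : Prop :=
  ∀ (F0 : MvPolynomial (Fin 3) ℚ) (d : ℕ) (ι : Type) [Fintype ι]
    (w : ι → MvPolynomial (Fin 3) QQ → ℝ) (τ : ι → ℝ)
    (v : ι → MvPolynomial (Fin 3) QQ → ℤ)
    (v0 : MvPolynomial (Fin 3) QQ → ℤ), Curve (rat F0) d →
    (∀ i, IsW (rat F0) (w i)) → ProdForm F0 w → (∀ i, 0 ≤ τ i) →
    (∀ i (n : ℕ) (g : MvPolynomial (Fin 3) QQ), g.IsHomogeneous n →
      ¬ rat F0 ∣ g → w i g = τ i * v i g) →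
    IsPlace (rat F0) v0 → Stab (rat F0) v0 →
    ∀ T : Finset ι, (∀ i ∈ T, ¬ Diff (rat F0) (v i) v0) →
      (∑ i ∈ T, τ i) * d ≤ 1

/-- Conjugate places. -/
def S_CNJ : Prop :=
  ∀ (F0 : MvPolynomial (Fin 3) ℚ) (d : ℕ)
    (v : MvPolynomial (Fin 3) QQ → ℤ), Curve (rat F0) d →
    IsPlace (rat F0) v → ¬ Stab (rat F0) v →
    ∃ v' : MvPolynomial (Fin 3) QQ → ℤ, IsPlace (rat F0) v' ∧
      Diff (rat F0) v v' ∧
      ∀ g : MvPolynomial (Fin 3) ℚ, v' (rat g) = v (rat g)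

/-- The algebraic theorem. -/
def ALG : Prop :=
  ∀ (F0 : MvPolynomial (Fin 3) ℚ) (d : ℕ) (ι : Type) [Fintype ι]
    (w : ι → MvPolynomial (Fin 3) QQ → ℝ), Curve (rat F0) d →
    (∀ i, IsW (rat F0) (w i)) → SubIneq (rat F0) d w →
    ProdForm F0 w →
    ∀ (m : ℕ) (p q : Fin m → QQ) (c0 : QQ)
      (W0 : MvPolynomial (Fin 3) ℚ), c0 ≠ 0 →
      (∀ i j, i ≠ j → p i * q j - q i * p j ≠ 0) →
      rat W0 = C c0 * (Dsc QQ * ∏ i, HL (p i) (q i)) →
      ¬ rat F0 ∣ Dsc QQ → (∀ i, ¬ rat F0 ∣ HL (p i) (q i)) →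
      ∑ i, w i (rat W0) ≤ 4

end Pool.Agent.NH95.QP
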